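import Pool.Agent.Q272.LP.H
import Pool.Agent.H57R3.VJ.L

/-! # Densities in products of boxes -/

set_option autoImplicit false

open NumberField Height Function

namespace Pool.Agent.Q272.GL

open Q241.AK Q265.NF Q265.BM LP

variable {K : Type*} [Field K] [NumberField K]

/-- the product of boxes -/
noncomputable def Om (K : Type*) [Field K] [NumberField K] {m : ℕ} (Y : Fin m → ℕ) :
    Finset (Fin m → Ix K → ℤ) := Fintype.piFinset fun c => cube K (Y c)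

lemma mem_Om {m : ℕ} {Y : Fin m → ℕ} {f : Fin m → Ix K → ℤ} :
    f ∈ Om K Y ↔ ∀ c, f c ∈ cube K (Y c) := Fintype.mem_piFinset

lemma card_Om {m : ℕ} (Y : Fin m → ℕ) :
    (Om K Y).card = ∏ c, Y c ^ Module.finrank ℚ K := by
  unfold Om
  rw [Fintype.card_piFinset]
  exact Finset.prod_congr rfl fun c _ => card_cube _

lemma upd_mem {m : ℕ} {Y : Fin m → ℕ} {f : Fin m → Ix K → ℤ} (hf : f ∈ Om K Y) {c : Fin m}
    {a : Ix K → ℤ} (ha : a ∈ cube K (Y c)) : update f c a ∈ Om K Y := by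
  rw [mem_Om] at hf ⊢
  intro i
  by_cases h : i = c
  · subst h
    rwa [update_self]
  · rw [update_of_ne h]
    exact hf i

open scoped Classical in
/-- Fibrewise bound. -/
lemma fib {m : ℕ} (Y : Fin m → ℕ) (A A1 : Finset (Fin m → Ix K → ℤ)) (c : Fin m)
    (hA : A ⊆ A1) (h1 : A1 ⊆ Om K Y)
    (hinv : ∀ f ∈ A1, ∀ a ∈ cube K (Y c), update f c a ∈ A1) (B : ℝ)
    (hB : ∀ f ∈ A1, (((cube K (Y c)).filter fun a => update f c a ∈ A).card : ℝ) ≤ B) :
    (A.card : ℝ) * (Y c : ℝ) ^ Module.finrank ℚ K ≤ B * A1.card := by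
  classical
  have hinj : (A ×ˢ cube K (Y c)).card ≤
      (A1.sigma fun f => (cube K (Y c)).filter fun a => update f c a ∈ A).card := by
    refine Finset.card_le_card_of_injOn (fun g => ⟨update g.1 c g.2, g.1 c⟩) ?_ ?_
    · rintro ⟨g, a⟩ hg
      rw [Finset.mem_coe, Finset.mem_product] at hg
      rw [Finset.mem_coe, Finset.mem_sigma]
      refine ⟨hinv g (hA hg.1) a hg.2, Finset.mem_filter.2 ⟨mem_Om.1 (h1 (hA hg.1)) c, ?_⟩⟩
      show update (update g c a) c (g c) ∈ A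
      rw [update_idem, update_eq_self]
      exact hg.1
    · rintro ⟨g, a⟩ _ ⟨g', a'⟩ _ h
      simp only [Sigma.mk.injEq, heq_eq_eq] at h
      obtain ⟨h2, h3⟩ := h
      have h4 : a = a' := by
        have := congrFun h2 c
        rwa [update_self, update_self] at this
      have h5 : g = g' := by
        have := congrArg (fun F => update F c (g c)) h2
        simp only [update_idem, update_eq_self] at this
        rwa [h3, update_eq_self] at this
      rw [h4, h5]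
  rw [Finset.card_product, card_cube, Finset.card_sigma] at hinj
  have h2 : ((A.card * Y c ^ Module.finrank ℚ K : ℕ) : ℝ) ≤
      ∑ f ∈ A1, (((cube K (Y c)).filter fun a => update f c a ∈ A).card : ℝ) := by
    exact_mod_cast hinj
  push_cast at h2
  refine h2.trans ((Finset.sum_le_sum hB).trans ?_)
  rw [Finset.sum_const, nsmul_eq_mul, mul_comm]

lemma v_le_inv' (v : FinitePlace K) {x : K} (h : v x < 1) : v x ≤ (N v)⁻¹ := by
  by_cases hx : x = 0
  · rw [hx, map_zero]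
    exact inv_nonneg.2 (zero_le_one.trans (one_lt_N v).le)
  · exact v_le_inv v hx h

/-- The density of a congruence condition on a linear function. -/
lemma lin_dens {W : ℝ} (hW0 : 1 ≤ W)
    (hW : ∀ (w : InfinitePlace K) (n : Ix K → ℤ) (s : ℝ), (∀ i, |(n i : ℝ)| ≤ s) →
      w (el n : K) ≤ W * s)
    {m : ℕ} (Y : Fin m → ℕ) (A1 : Finset (Fin m → Ix K → ℤ)) (c : Fin m)
    (h1 : A1 ⊆ Om K Y) (hinv : ∀ f ∈ A1, ∀ a ∈ cube K (Y c), update f c a ∈ A1)
    (hY : 1 ≤ Y c) (v : FinitePlace K) (l : (Fin m → Ix K → ℤ) → K) (q : K) (hq : v q = 1)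
    (hl : ∀ f ∈ A1, ∀ a a' : Ix K → ℤ, l (update f c a) - l (update f c a') =
      q * ((el a : K) - (el a' : K))) {ρ : ℝ} (hρ : 0 < ρ) (A : Finset (Fin m → Ix K → ℤ))
    (hA : A ⊆ A1) (hAl : ∀ f ∈ A, v (l f) ≤ ρ) :
    (A.card : ℝ) ≤ (4 * W) ^ Module.finrank ℚ K *
      (1 / (Y c : ℝ) ^ Module.finrank ℚ K + ρ) * A1.card := by
  classical
  have hYr : (0 : ℝ) < (Y c : ℝ) ^ Module.finrank ℚ K := by
    have : (0 : ℝ) < Y c := by exact_mod_cast hY
    positivity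
  have h2 := fib Y A A1 c hA h1 hinv
    ((4 * W) ^ Module.finrank ℚ K * (1 + (Y c : ℝ) ^ Module.finrank ℚ K / (1 / ρ))) (by
      intro f hf
      refine box_real hW0 hW v (Finset.filter_subset _ _) (by positivity) ?_
      intro a ha a' ha' _
      have g1 := hAl _ (Finset.mem_filter.1 ha).2
      have g2 := hAl _ (Finset.mem_filter.1 ha').2
      have g3 := fsub v (l (update f c a)) (l (update f c a'))
      rw [hl f hf, map_mul, hq, one_mul] at g3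
      have g4 : v ((el a : K) - (el a' : K)) ≤ ρ := g3.trans (max_le g1 g2)
      rw [one_div, inv_mul_le_iff₀ hρ, mul_one]
      exact g4)
  rw [← le_div_iff₀ hYr] at h2
  refine h2.trans (le_of_eq ?_)
  field_simp

/-- A linear function takes each value rarely. -/
lemma zero_dens {m : ℕ} (Y : Fin m → ℕ) (c : Fin m) (hY : 1 ≤ Y c)
    (l : (Fin m → Ix K → ℤ) → K) (q : K) (hq : q ≠ 0)
    (hl : ∀ f ∈ Om K Y, ∀ a a' : Ix K → ℤ, l (update f c a) - l (update f c a') =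
      q * ((el a : K) - (el a' : K))) (A : Finset (Fin m → Ix K → ℤ))
    (hA : A ⊆ Om K Y) (hAl : ∀ f ∈ A, l f = 0) :
    (A.card : ℝ) ≤ 1 / (Y c : ℝ) ^ Module.finrank ℚ K * (Om K Y).card := by
  classical
  have hYr : (0 : ℝ) < (Y c : ℝ) ^ Module.finrank ℚ K := by
    have : (0 : ℝ) < Y c := by exact_mod_cast hY
    positivity
  have h2 := fib Y A (Om K Y) c hA subset_rfl (fun f hf a ha => upd_mem hf ha) 1 (by
    intro f hf
    have : ((cube K (Y c)).filter fun a => update f c a ∈ A).card ≤ 1 := by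
      rw [Finset.card_le_one]
      intro a ha a' ha'
      have g1 := hAl _ (Finset.mem_filter.1 ha).2
      have g2 := hAl _ (Finset.mem_filter.1 ha').2
      have g3 := hl f hf a a'
      rw [g1, g2, sub_zero] at g3
      rcases mul_eq_zero.1 g3.symm with h | h
      · exact absurd h hq
      · refine el_inj ?_
        exact_mod_cast sub_eq_zero.1 h
    exact_mod_cast this)
  rw [one_mul, ← le_div_iff₀ hYr] at h2
  refine h2.trans (le_of_eq ?_)
  ring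

/-- The density of the square factors of norm at most `Z`. -/
lemma sq_dens {W : ℝ} (hW0 : 1 ≤ W)
    (hW : ∀ (w : InfinitePlace K) (n : Ix K → ℤ) (s : ℝ), (∀ i, |(n i : ℝ)| ≤ s) →
      w (el n : K) ≤ W * s)
    {m : ℕ} (Y : Fin m → ℕ) (c : Fin m) (hY : 1 ≤ Y c) (E : Finset (FinitePlace K)) (T Z : ℕ)
    (hT : 1 ≤ T) (hET : ∀ v, Nn v ≤ T → v ∈ E) (l : (Fin m → Ix K → ℤ) → K) (q : K)
    (hq : ∀ v ∉ E, v q = 1)
    (hl : ∀ f ∈ Om K Y, ∀ a a' : Ix K → ℤ, l (update f c a) - l (update f c a') =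
      q * ((el a : K) - (el a' : K))) (A : Finset (Fin m → Ix K → ℤ))
    (hA : A ⊆ Om K Y)
    (hAl : ∀ f ∈ A, l f ≠ 0 ∧ ∃ v ∉ E, Nn v ≤ Z ∧ v (l f) < (N v)⁻¹) :
    (A.card : ℝ) ≤ (4 * W) ^ Module.finrank ℚ K * (Module.finrank ℚ K *
      (Z / (Y c : ℝ) ^ Module.finrank ℚ K + 1 / T)) * (Om K Y).card := by
  classical
  obtain ⟨P, hP⟩ : ∃ P : Finset (FinitePlace K), P =
      ((finite_norm_le (K := K) Z).toFinset.filter fun v => v ∉ E) := ⟨_, rfl⟩
  have hPm : ∀ v, v ∈ P ↔ Nn v ≤ Z ∧ v ∉ E := by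
    intro v
    rw [hP, Finset.mem_filter, Set.Finite.mem_toFinset]
    rfl
  have hcov : A ⊆ P.biUnion fun v => A.filter fun f => l f ≠ 0 ∧ v (l f) < (N v)⁻¹ := by
    intro f hf
    obtain ⟨h0, v, hv, hZ, hlt⟩ := hAl f hf
    rw [Finset.mem_biUnion]
    exact ⟨v, (hPm v).2 ⟨hZ, hv⟩, Finset.mem_filter.2 ⟨hf, h0, hlt⟩⟩
  have h1 : (A.card : ℝ) ≤ ∑ v ∈ P,
      ((A.filter fun f => l f ≠ 0 ∧ v (l f) < (N v)⁻¹).card : ℝ) := by
    exact_mod_cast (Finset.card_le_card hcov).trans Finset.card_biUnion_le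
  have h2 : ∀ v ∈ P, ((A.filter fun f => l f ≠ 0 ∧ v (l f) < (N v)⁻¹).card : ℝ) ≤
      (4 * W) ^ Module.finrank ℚ K *
      (1 / (Y c : ℝ) ^ Module.finrank ℚ K + 1 / (Nn v : ℝ) ^ 2) * (Om K Y).card := by
    intro v hv
    have hvE := ((hPm v).1 hv).2
    have hN : (0 : ℝ) < Nn v := by
      have := Nn_pos v
      exact_mod_cast (by omega : 0 < Nn v)
    refine lin_dens hW0 hW Y (Om K Y) c subset_rfl (fun f hf a ha => upd_mem hf ha) hY v l q
      (hq v hvE) hl (by positivity) _ ((Finset.filter_subset _ _).trans hA) ?_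
    intro f hf
    obtain ⟨hfA, h0, hlt⟩ := Finset.mem_filter.1 hf
    have := v_sq v h0 hlt
    rw [N_eq] at this
    rw [le_div_iff₀ (by positivity), mul_comm]
    exact this
  have h3 := Finset.sum_le_sum h2
  refine h1.trans (h3.trans ?_)
  rw [← Finset.sum_mul, ← Finset.mul_sum]
  refine mul_le_mul_of_nonneg_right ?_ (Nat.cast_nonneg _)
  refine mul_le_mul_of_nonneg_left ?_ (by positivity)
  have h4 := sum_places P (fun n => 1 / (Y c : ℝ) ^ Module.finrank ℚ K + 1 / (n : ℝ) ^ 2)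
    (fun n => by positivity) T Z (by
      intro v hv
      obtain ⟨g1, g2⟩ := (hPm v).1 hv
      refine ⟨?_, g1⟩
      by_contra hc
      push Not at hc
      exact g2 (hET v hc))
  refine h4.trans (mul_le_mul_of_nonneg_left ?_ (Nat.cast_nonneg _))
  rw [Finset.sum_add_distrib, Finset.sum_const, Nat.card_Ioc, nsmul_eq_mul]
  have h5 := sum_sq T Z hT
  have h6 : ((Z - T : ℕ) : ℝ) * (1 / (Y c : ℝ) ^ Module.finrank ℚ K) ≤
      Z / (Y c : ℝ) ^ Module.finrank ℚ K := by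
    rw [mul_one_div]
    gcongr
    omega
  linarith

lemma harm (T Z : ℕ) (hT : 1 ≤ T) : ∑ n ∈ Finset.Ioc T Z, 1 / (n : ℝ) ≤ 1 + Real.log Z := by
  have h1 : ∑ n ∈ Finset.Ioc T Z, 1 / (n : ℝ) ≤ ∑ n ∈ Finset.Icc 1 Z, 1 / (n : ℝ) := by
    refine Finset.sum_le_sum_of_subset_of_nonneg ?_ fun _ _ _ => by positivity
    intro n hn
    rw [Finset.mem_Ioc] at hn
    rw [Finset.mem_Icc]
    omega
  refine h1.trans ?_
  have h2 := harmonic_le_one_add_log Z
  rw [harmonic_eq_sum_Icc] at h2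
  push_cast at h2
  simpa [one_div] using h2

/-- The density of common prime factors of norm at most `Z` of two linear functions. -/
lemma pair_dens {W : ℝ} (hW0 : 1 ≤ W)
    (hW : ∀ (w : InfinitePlace K) (n : Ix K → ℤ) (s : ℝ), (∀ i, |(n i : ℝ)| ≤ s) →
      w (el n : K) ≤ W * s)
    {m : ℕ} (Y : Fin m → ℕ) (c1 c2 : Fin m) (hY1 : 1 ≤ Y c1) (hY2 : 1 ≤ Y c2)
    (E : Finset (FinitePlace K)) (T Z : ℕ)
    (hT : 1 ≤ T) (hET : ∀ v, Nn v ≤ T → v ∈ E) (l1 l2 : (Fin m → Ix K → ℤ) → K) (q1 q2 : K)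
    (hq1 : ∀ v ∉ E, v q1 = 1) (hq2 : ∀ v ∉ E, v q2 = 1)
    (hl1 : ∀ f ∈ Om K Y, ∀ a a' : Ix K → ℤ, l1 (update f c1 a) - l1 (update f c1 a') =
      q1 * ((el a : K) - (el a' : K)))
    (hl1' : ∀ f ∈ Om K Y, ∀ a : Ix K → ℤ, l1 (update f c2 a) = l1 f)
    (hl2 : ∀ f ∈ Om K Y, ∀ a a' : Ix K → ℤ, l2 (update f c2 a) - l2 (update f c2 a') =
      q2 * ((el a : K) - (el a' : K)))
    (A : Finset (Fin m → Ix K → ℤ)) (hA : A ⊆ Om K Y)
    (hAl : ∀ f ∈ A, ∃ v ∉ E, Nn v ≤ Z ∧ v (l1 f) < 1 ∧ v (l2 f) < 1) :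
    (A.card : ℝ) ≤ ((4 * W) ^ Module.finrank ℚ K) ^ 2 * (Module.finrank ℚ K *
      (Z / ((Y c1 : ℝ) ^ Module.finrank ℚ K * (Y c2 : ℝ) ^ Module.finrank ℚ K) +
        (1 / (Y c1 : ℝ) ^ Module.finrank ℚ K + 1 / (Y c2 : ℝ) ^ Module.finrank ℚ K) *
          (1 + Real.log Z) + 1 / T)) * (Om K Y).card := by
  classical
  obtain ⟨C0, hC0⟩ : ∃ C0 : ℝ, C0 = (4 * W) ^ Module.finrank ℚ K := ⟨_, rfl⟩
  have hC0p : 0 < C0 := by rw [hC0]; positivity
  obtain ⟨D1, hD1⟩ : ∃ D1 : ℝ, D1 = (Y c1 : ℝ) ^ Module.finrank ℚ K := ⟨_, rfl⟩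
  obtain ⟨D2, hD2⟩ : ∃ D2 : ℝ, D2 = (Y c2 : ℝ) ^ Module.finrank ℚ K := ⟨_, rfl⟩
  have hD1p : 0 < D1 := by
    have : (0 : ℝ) < Y c1 := by exact_mod_cast hY1
    rw [hD1]; positivity
  have hD2p : 0 < D2 := by
    have : (0 : ℝ) < Y c2 := by exact_mod_cast hY2
    rw [hD2]; positivity
  obtain ⟨P, hP⟩ : ∃ P : Finset (FinitePlace K), P =
      ((finite_norm_le (K := K) Z).toFinset.filter fun v => v ∉ E) := ⟨_, rfl⟩
  have hPm : ∀ v, v ∈ P ↔ Nn v ≤ Z ∧ v ∉ E := by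
    intro v
    rw [hP, Finset.mem_filter, Set.Finite.mem_toFinset]
    rfl
  have hcov : A ⊆ P.biUnion fun v => A.filter fun f => v (l1 f) < 1 ∧ v (l2 f) < 1 := by
    intro f hf
    obtain ⟨v, hv, hZ, hlt⟩ := hAl f hf
    rw [Finset.mem_biUnion]
    exact ⟨v, (hPm v).2 ⟨hZ, hv⟩, Finset.mem_filter.2 ⟨hf, hlt⟩⟩
  have h1 : (A.card : ℝ) ≤ ∑ v ∈ P,
      ((A.filter fun f => v (l1 f) < 1 ∧ v (l2 f) < 1).card : ℝ) := by
    exact_mod_cast (Finset.card_le_card hcov).trans Finset.card_biUnion_le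
  have h2 : ∀ v ∈ P, ((A.filter fun f => v (l1 f) < 1 ∧ v (l2 f) < 1).card : ℝ) ≤
      C0 * (1 / D2 + 1 / (Nn v : ℝ)) * (C0 * (1 / D1 + 1 / (Nn v : ℝ)) * (Om K Y).card) := by
    intro v hv
    have hvE := ((hPm v).1 hv).2
    have hN : (0 : ℝ) < Nn v := by
      have := Nn_pos v
      exact_mod_cast (by omega : 0 < Nn v)
    obtain ⟨A1, hA1⟩ : ∃ A1 : Finset (Fin m → Ix K → ℤ), A1 =
        (Om K Y).filter fun f => v (l1 f) < 1 := ⟨_, rfl⟩
    have hA1s : A1 ⊆ Om K Y := by rw [hA1]; exact Finset.filter_subset _ _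
    have g1 : (A1.card : ℝ) ≤ C0 * (1 / D1 + 1 / (Nn v : ℝ)) * (Om K Y).card := by
      rw [hC0, hD1]
      refine lin_dens hW0 hW Y (Om K Y) c1 subset_rfl (fun f hf a ha => upd_mem hf ha) hY1 v l1 q1
        (hq1 v hvE) hl1 (by positivity) _ hA1s ?_
      intro f hf
      rw [hA1] at hf
      have := v_le_inv' v (Finset.mem_filter.1 hf).2
      rwa [N_eq, ← one_div] at this
    have g2 : ((A.filter fun f => v (l1 f) < 1 ∧ v (l2 f) < 1).card : ℝ) ≤
        C0 * (1 / D2 + 1 / (Nn v : ℝ)) * A1.card := by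
      rw [hC0, hD2]
      refine lin_dens hW0 hW Y A1 c2 hA1s ?_ hY2 v l2 q2
        (hq2 v hvE) (fun f hf => hl2 f (hA1s hf)) (by positivity) _ ?_ ?_
      · intro f hf a ha
        rw [hA1] at hf ⊢
        obtain ⟨k1, k2⟩ := Finset.mem_filter.1 hf
        refine Finset.mem_filter.2 ⟨upd_mem k1 ha, ?_⟩
        rw [hl1' f k1]
        exact k2
      · intro f hf
        obtain ⟨k1, k2, k3⟩ := Finset.mem_filter.1 hf
        rw [hA1]
        exact Finset.mem_filter.2 ⟨hA k1, k2⟩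
      · intro f hf
        obtain ⟨k1, k2, k3⟩ := Finset.mem_filter.1 hf
        have := v_le_inv' v k3
        rwa [N_eq, ← one_div] at this
    exact g2.trans (mul_le_mul_of_nonneg_left g1 (by positivity))
  have h3 := Finset.sum_le_sum h2
  refine h1.trans (h3.trans ?_)
  rw [← hC0, ← hD1, ← hD2]
  have h4 := sum_places P (fun n => (1 / D2 + 1 / (n : ℝ)) * (1 / D1 + 1 / (n : ℝ)))
    (fun n => by positivity) T Z (by
      intro v hv
      obtain ⟨g1, g2⟩ := (hPm v).1 hv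
      refine ⟨?_, g1⟩
      by_contra hc
      push Not at hc
      exact g2 (hET v hc))
  have e1 : ∑ v ∈ P, C0 * (1 / D2 + 1 / (Nn v : ℝ)) * (C0 * (1 / D1 + 1 / (Nn v : ℝ)) *
      ((Om K Y).card : ℝ)) = C0 ^ 2 * (∑ v ∈ P, (1 / D2 + 1 / (Nn v : ℝ)) *
      (1 / D1 + 1 / (Nn v : ℝ))) * (Om K Y).card := by
    rw [Finset.mul_sum, Finset.sum_mul]
    refine Finset.sum_congr rfl fun v _ => ?_
    ring
  rw [e1]
  refine mul_le_mul_of_nonneg_right ?_ (Nat.cast_nonneg _)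
  refine mul_le_mul_of_nonneg_left ?_ (by positivity)
  refine h4.trans (mul_le_mul_of_nonneg_left ?_ (Nat.cast_nonneg _))
  have e2 : ∑ n ∈ Finset.Ioc T Z, (1 / D2 + 1 / (n : ℝ)) * (1 / D1 + 1 / (n : ℝ)) =
      ((Z - T : ℕ) : ℝ) * (1 / (D1 * D2)) + (1 / D1 + 1 / D2) * (∑ n ∈ Finset.Ioc T Z, 1 / (n : ℝ)) +
      ∑ n ∈ Finset.Ioc T Z, 1 / (n : ℝ) ^ 2 := by
    rw [Finset.mul_sum, ← nsmul_eq_mul, ← Nat.card_Ioc, ← Finset.sum_const,
      ← Finset.sum_add_distrib, ← Finset.sum_add_distrib]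
    refine Finset.sum_congr rfl fun n hn => ?_
    have hn0 : (n : ℝ) ≠ 0 := by
      have := (Finset.mem_Ioc.1 hn).1
      have : n ≠ 0 := by omega
      exact_mod_cast this
    field_simp
    ring
  rw [e2]
  have h5 := sum_sq T Z hT
  have h6 := harm T Z hT
  have h7 : ((Z - T : ℕ) : ℝ) * (1 / (D1 * D2)) ≤ Z / (D1 * D2) := by
    rw [mul_one_div]
    gcongr
    omega
  have h8 : (1 / D1 + 1 / D2) * (∑ n ∈ Finset.Ioc T Z, 1 / (n : ℝ)) ≤
      (1 / D1 + 1 / D2) * (1 + Real.log Z) := mul_le_mul_of_nonneg_left h6 (by positivity)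
  linarith

end Pool.Agent.Q272.GL
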