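import Pool.Agent.Q272.GL.A

/-! # Square factors and common factors of large norm -/

set_option autoImplicit false

open NumberField Height Function

namespace Pool.Agent.Q272.GL

open Q241.AK Q265.NF Q265.BM LP

variable {K : Type*} [Field K] [NumberField K]

lemma exists_V (K : Type*) [Field K] [NumberField K] : ∃ V : ℝ, 1 ≤ V ∧
    ∀ (n : Ix K → ℤ) (R : ℝ), (∀ w : InfinitePlace K, w (el n : K) ≤ R) →
      ∀ i, |(n i : ℝ)| ≤ V * R := by
  classical
  obtain ⟨φ, hφ⟩ : ∃ φ : Ix K → Module.Dual ℚ K, φ = fun i => (integralBasis K).coord i := ⟨_, rfl⟩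
  obtain ⟨c, hc⟩ : ∃ c : Ix K → K, c = fun i =>
      ((Algebra.traceForm ℚ K).toDual (traceForm_nondegenerate ℚ K)).symm (φ i) := ⟨_, rfl⟩
  have htr : ∀ (n : Ix K → ℤ) (i : Ix K), (n i : ℂ) = ∑ σ : K →ₐ[ℚ] ℂ, σ (c i * (el n : K)) := by
    intro n i
    have h1 : (n i : ℚ) = Algebra.trace ℚ K (c i * (el n : K)) := by
      have h2 : Algebra.traceForm ℚ K (c i) (el n : K) = φ i (el n : K) := by
        rw [hc]
        exact LinearMap.BilinForm.apply_toDual_symm_apply _ _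
      rw [Algebra.traceForm_apply] at h2
      rw [h2, hφ]
      show (n i : ℚ) = (integralBasis K).repr (el n : K) i
      have h3 := integralBasis_repr_apply K (el n) i
      have h4 : (algebraMap (𝓞 K) K (el n)) = (el n : K) := rfl
      rw [h4] at h3
      rw [h3]
      have h5 : (RingOfIntegers.basis K).repr (el n) i = n i := by
        unfold el
        have := congrFun ((RingOfIntegers.basis K).equivFun.apply_symm_apply n) i
        rwa [Module.Basis.equivFun_apply] at this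
      rw [h5]
      rfl
    have h6 := trace_eq_sum_embeddings (K := ℚ) (L := K) ℂ (x := c i * (el n : K))
    rw [← h1] at h6
    rw [← h6]
    simp
  refine ⟨1 + ∑ i, ∑ σ : K →ₐ[ℚ] ℂ, ‖σ (c i)‖, ?_, fun n R hR i => ?_⟩
  · have : 0 ≤ ∑ i, ∑ σ : K →ₐ[ℚ] ℂ, ‖σ (c i)‖ :=
      Finset.sum_nonneg fun i _ => Finset.sum_nonneg fun σ _ => norm_nonneg _
    linarith
  · obtain ⟨w0⟩ : Nonempty (InfinitePlace K) := inferInstance
    have hR0 : 0 ≤ R := (apply_nonneg w0 _).trans (hR w0)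
    have h1 : |(n i : ℝ)| = ‖(n i : ℂ)‖ := by
      rw [Complex.norm_intCast]
    rw [h1, htr n i]
    have h2 : ∀ σ : K →ₐ[ℚ] ℂ, ‖σ (c i * (el n : K))‖ ≤ ‖σ (c i)‖ * R := by
      intro σ
      rw [map_mul, norm_mul]
      refine mul_le_mul_of_nonneg_left ?_ (norm_nonneg _)
      have h3 := hR (InfinitePlace.mk (σ : K →+* ℂ))
      rwa [InfinitePlace.apply] at h3
    calc ‖∑ σ : K →ₐ[ℚ] ℂ, σ (c i * (el n : K))‖ ≤ ∑ σ : K →ₐ[ℚ] ℂ, ‖σ (c i * (el n : K))‖ :=
          norm_sum_le _ _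
      _ ≤ ∑ σ : K →ₐ[ℚ] ℂ, ‖σ (c i)‖ * R := Finset.sum_le_sum fun σ _ => h2 σ
      _ = (∑ σ : K →ₐ[ℚ] ℂ, ‖σ (c i)‖) * R := by rw [Finset.sum_mul]
      _ ≤ (1 + ∑ i, ∑ σ : K →ₐ[ℚ] ℂ, ‖σ (c i)‖) * R := by
          refine mul_le_mul_of_nonneg_right ?_ hR0
          have := Finset.single_le_sum (f := fun i => ∑ σ : K →ₐ[ℚ] ℂ, ‖σ (c i)‖)
            (fun i _ => Finset.sum_nonneg fun σ _ => norm_nonneg _) (Finset.mem_univ i)
          linarith

/-- the number of prime factors -/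
lemma card_supp {x : 𝓞 K} (hx : x ≠ 0) (P : Finset (FinitePlace K)) (hP : ∀ v ∈ P, v (x : K) < 1)
    {G : ℝ} (hG : nm (x : K) ≤ G) : (P.card : ℝ) ≤ Real.log G / Real.log 2 := by
  have hxK : (x : K) ≠ 0 := by exact_mod_cast hx
  have h1 := prod_le_nm hxK (fun v => int_le_one v x) P
  have h2 : (2 : ℝ) ^ P.card ≤ ∏ v ∈ P, (v (x : K))⁻¹ := by
    rw [← Finset.prod_const]
    refine Finset.prod_le_prod (fun v _ => by positivity) fun v hv => ?_
    have h3 := v_le_inv v hxK (hP v hv)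
    have h4 : 0 < v (x : K) := FinitePlace.pos_iff.2 hxK
    have h5 : (2 : ℝ) ≤ N v := by
      rw [N_eq]
      exact_mod_cast Nn_pos v
    have h6 := inv_anti₀ h4 h3
    rw [inv_inv] at h6
    linarith
  have h3 : (2 : ℝ) ^ P.card ≤ G := by linarith
  have h4 := Real.log_le_log (by positivity) h3
  rw [Real.log_pow] at h4
  rwa [le_div_iff₀ (Real.log_pos (by norm_num))]

/-- Common prime factors of large norm. -/
lemma far_pair {W : ℝ} (hW0 : 1 ≤ W)
    (hW : ∀ (w : InfinitePlace K) (n : Ix K → ℤ) (s : ℝ), (∀ i, |(n i : ℝ)| ≤ s) →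
      w (el n : K) ≤ W * s)
    {m : ℕ} (Y : Fin m → ℕ) (c : Fin m) (hY : 1 ≤ Y c) (E : Finset (FinitePlace K)) (Z : ℕ)
    (hZ : 1 ≤ Z) (g : (Fin m → Ix K → ℤ) → 𝓞 K) (l : (Fin m → Ix K → ℤ) → K) (q : K)
    (hq : ∀ v ∉ E, v q = 1) {G : ℝ} (hG1 : 1 ≤ G)
    (hg' : ∀ f ∈ Om K Y, ∀ a : Ix K → ℤ, g (update f c a) = g f)
    (hG : ∀ f ∈ Om K Y, nm (g f : K) ≤ G)
    (hl : ∀ f ∈ Om K Y, ∀ a a' : Ix K → ℤ, l (update f c a) - l (update f c a') =
      q * ((el a : K) - (el a' : K)))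
    (A : Finset (Fin m → Ix K → ℤ)) (hA : A ⊆ Om K Y)
    (hAl : ∀ f ∈ A, g f ≠ 0 ∧ ∃ v ∉ E, Z < Nn v ∧ v (g f : K) < 1 ∧ v (l f) < 1) :
    (A.card : ℝ) ≤ (4 * W) ^ Module.finrank ℚ K * (Real.log G / Real.log 2 *
      (1 / (Y c : ℝ) ^ Module.finrank ℚ K + 1 / Z)) * (Om K Y).card := by
  classical
  obtain ⟨D, hD⟩ : ∃ D : ℝ, D = (Y c : ℝ) ^ Module.finrank ℚ K := ⟨_, rfl⟩
  have hDp : 0 < D := by
    have : (0 : ℝ) < Y c := by exact_mod_cast hY
    rw [hD]; positivity
  have hZr : (0 : ℝ) < Z := by exact_mod_cast hZ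
  have hlog : 0 ≤ Real.log G / Real.log 2 :=
    div_nonneg (Real.log_nonneg hG1) (Real.log_nonneg (by norm_num))
  have h2 := fib Y A (Om K Y) c hA subset_rfl (fun f hf a ha => upd_mem hf ha)
    ((4 * W) ^ Module.finrank ℚ K * (Real.log G / Real.log 2 * (1 + D / Z))) (by
      intro f hf
      by_cases h0 : g f = 0
      · have : ((cube K (Y c)).filter fun a => update f c a ∈ A) = ∅ := by
          rw [Finset.filter_eq_empty_iff]
          intro a _ ha
          have h1 := (hAl _ ha).1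
          rw [hg' f hf a] at h1
          exact h1 h0
        rw [this]
        simp only [Finset.card_empty, Nat.cast_zero]
        positivity
      have hgK : (g f : K) ≠ 0 := by exact_mod_cast h0
      have hfin : {v : FinitePlace K | v (g f : K) < 1 ∧ v ∉ E ∧ Z < Nn v}.Finite := by
        refine (FinitePlace.hasFiniteMulSupport hgK).subset fun v hv => ?_
        rw [mem_mulSupport]
        exact hv.1.ne
      obtain ⟨P, hP⟩ : ∃ P : Finset (FinitePlace K), P = hfin.toFinset := ⟨_, rfl⟩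
      have hPm : ∀ v, v ∈ P ↔ v (g f : K) < 1 ∧ v ∉ E ∧ Z < Nn v := by
        intro v
        rw [hP, Set.Finite.mem_toFinset]
        rfl
      have hcov : ((cube K (Y c)).filter fun a => update f c a ∈ A) ⊆
          P.biUnion fun v => (cube K (Y c)).filter fun a => v (l (update f c a)) < 1 := by
        intro a ha
        obtain ⟨ha1, ha2⟩ := Finset.mem_filter.1 ha
        obtain ⟨-, v, hv1, hv2, hv3, hv4⟩ := hAl _ ha2
        rw [hg' f hf a] at hv3
        rw [Finset.mem_biUnion]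
        exact ⟨v, (hPm v).2 ⟨hv3, hv1, hv2⟩, Finset.mem_filter.2 ⟨ha1, hv4⟩⟩
      have h1 : (((cube K (Y c)).filter fun a => update f c a ∈ A).card : ℝ) ≤
          ∑ v ∈ P, (((cube K (Y c)).filter fun a => v (l (update f c a)) < 1).card : ℝ) := by
        exact_mod_cast (Finset.card_le_card hcov).trans Finset.card_biUnion_le
      have h3 : ∀ v ∈ P, (((cube K (Y c)).filter fun a => v (l (update f c a)) < 1).card : ℝ) ≤
          (4 * W) ^ Module.finrank ℚ K * (1 + D / Z) := by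
        intro v hv
        obtain ⟨g1, g2, g3⟩ := (hPm v).1 hv
        have hN : (Z : ℝ) < Nn v := by exact_mod_cast g3
        have h4 := box_real hW0 hW v (Y := Y c)
          (A := (cube K (Y c)).filter fun a => v (l (update f c a)) < 1)
          (Finset.filter_subset _ _) hZr (by
            intro a ha a' ha' _
            have k1 := v_le_inv' v (Finset.mem_filter.1 ha).2
            have k2 := v_le_inv' v (Finset.mem_filter.1 ha').2
            have k3 := fsub v (l (update f c a)) (l (update f c a'))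
            rw [hl f hf, map_mul, hq v g2, one_mul] at k3
            have k4 : v ((el a : K) - (el a' : K)) ≤ (N v)⁻¹ := k3.trans (max_le k1 k2)
            have k5 : 0 < N v := lt_trans one_pos (one_lt_N v)
            calc (Z : ℝ) * v ((el a : K) - (el a' : K)) ≤ N v * (N v)⁻¹ := by
                  rw [N_eq] at k4 k5 ⊢
                  gcongr
              _ = 1 := mul_inv_cancel₀ k5.ne')
        rwa [← hD] at h4
      refine h1.trans ((Finset.sum_le_sum h3).trans ?_)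
      rw [Finset.sum_const, nsmul_eq_mul]
      have h5 := card_supp h0 P (fun v hv => ((hPm v).1 hv).1) (hG f hf)
      calc (P.card : ℝ) * ((4 * W) ^ Module.finrank ℚ K * (1 + D / Z)) ≤
          Real.log G / Real.log 2 * ((4 * W) ^ Module.finrank ℚ K * (1 + D / Z)) := by gcongr
        _ = _ := by ring)
  rw [← hD, ← le_div_iff₀ hDp] at h2
  rw [← hD]
  refine h2.trans (le_of_eq ?_)
  field_simp

lemma el_dvd {n : Ix K → ℤ} {M : ℤ} (hM : M ≠ 0) (h : (M : 𝓞 K) ∣ el n) : ∀ i, M ∣ n i := by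
  obtain ⟨y, hy⟩ := h
  obtain ⟨m, rfl⟩ := el_surj y
  have h1 : n = M • m := by
    apply el_inj
    rw [el_smul, hy]
  intro i
  rw [h1]
  exact ⟨m i, rfl⟩

/-- Square factors of large norm of a function which depends on two variables. -/
lemma far_sq {W V : ℝ} (hW0 : 1 ≤ W)
    (hW : ∀ (w : InfinitePlace K) (n : Ix K → ℤ) (s : ℝ), (∀ i, |(n i : ℝ)| ≤ s) →
      w (el n : K) ≤ W * s) (hV0 : 1 ≤ V)
    (hV : ∀ (n : Ix K → ℤ) (R : ℝ), (∀ w : InfinitePlace K, w (el n : K) ≤ R) →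
      ∀ i, |(n i : ℝ)| ≤ V * R)
    {m : ℕ} (Y : Fin m → ℕ) (c0 c1 : Fin m) (hc : c0 ≠ c1) (Z M : ℕ)
    (hZ : 1 ≤ Z) (hM : 1 ≤ M) (y : (Fin m → Ix K → ℤ) → 𝓞 K) {R : ℝ} (hR1 : 1 ≤ R)
    (hyR : ∀ f ∈ Om K Y, ∀ w : InfinitePlace K, w (y f : K) ≤ R)
    (hfib : ∀ f ∈ Om K Y, ∀ f' ∈ Om K Y, y f = y f' → (∀ c, c ≠ c0 → c ≠ c1 → f c = f' c) →
      (∀ i, (M : ℤ) ∣ f c1 i - f' c1 i) ∧ (f c1 = f' c1 → f c0 = f' c0))
    (A : Finset (Fin m → Ix K → ℤ)) (hA : A ⊆ Om K Y)
    (hAl : ∀ f ∈ A, y f ≠ 0 ∧ ∃ v : FinitePlace K, Z < Nn v ∧ v (y f : K) < (N v)⁻¹) :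
    (A.card : ℝ) * ((Y c0 : ℝ) ^ Module.finrank ℚ K * (Y c1 : ℝ) ^ Module.finrank ℚ K) ≤
      ((Y c1 : ℝ) / M + 1) ^ Module.finrank ℚ K *
        (2 * (4 * W) ^ Module.finrank ℚ K * (5 * V) ^ Module.finrank ℚ K * Module.finrank ℚ K *
          (R ^ Module.finrank ℚ K / Z)) * (Om K Y).card := by
  classical
  obtain ⟨d, hd⟩ : ∃ d, d = Module.finrank ℚ K := ⟨_, rfl⟩
  have hd1 : 1 ≤ d := by rw [hd]; exact Module.finrank_pos
  have hMz : (0 : ℤ) < M := by exact_mod_cast hM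
  choose co hco using fun x : 𝓞 K => el_surj x
  obtain ⟨X, hX⟩ : ∃ X : ℕ, X = ⌈V * R⌉₊ := ⟨_, rfl⟩
  have hVR : 1 ≤ V * R := one_le_mul_of_one_le_of_one_le hV0 hR1
  have hX1 : V * R ≤ X := by rw [hX]; exact Nat.le_ceil _
  have hX2 : (X : ℝ) ≤ V * R + 1 := by rw [hX]; exact (Nat.ceil_lt_add_one (by positivity)).le
  have hX5 : ((2 * X + 1 : ℕ) : ℝ) ≤ 5 * V * R := by push_cast; linarith
  have hXR : R ≤ ((2 * X + 1 : ℕ) : ℝ) := by
    push_cast
    have : R ≤ V * R := le_mul_of_one_le_left (by linarith) hV0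
    linarith
  obtain ⟨Φ, hΦ⟩ : ∃ Φ : (Fin m → Ix K → ℤ) → (Ix K → ℤ) × (Fin m → Ix K → ℤ), Φ = fun f =>
      (fun i => co (y f) i + X, fun c => if c = c0 ∨ c = c1 then 0 else f c) := ⟨_, rfl⟩
  obtain ⟨Q, hQ⟩ : ∃ Q : ℕ, Q = ⌈R ^ d⌉₊ := ⟨_, rfl⟩
  obtain ⟨P, hP⟩ : ∃ P : Finset (FinitePlace K), P =
      ((finite_norm_le (K := K) Q).toFinset.filter fun v => Z < Nn v) := ⟨_, rfl⟩
  have hPm : ∀ v, v ∈ P ↔ Nn v ≤ Q ∧ Z < Nn v := by
    intro v
    rw [hP, Finset.mem_filter, Set.Finite.mem_toFinset]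
    rfl
  obtain ⟨eX, heX⟩ : ∃ eX : 𝓞 K, eX = el (fun _ : Ix K => (X : ℤ)) := ⟨_, rfl⟩
  obtain ⟨Bv, hBv⟩ : ∃ Bv : FinitePlace K → Finset (Ix K → ℤ), Bv = fun v =>
      (cube K (2 * X + 1)).filter fun n => (Nn v : ℝ) ^ 2 ≤ R ^ d ∧
        v ((el n : K) - (eX : K)) ≤ 1 / (Nn v : ℝ) ^ 2 := ⟨_, rfl⟩
  obtain ⟨Om', hOm'⟩ : ∃ Om' : Finset (Fin m → Ix K → ℤ), Om' =
      Fintype.piFinset fun c => if c = c0 ∨ c = c1 then {0} else cube K (Y c) := ⟨_, rfl⟩
  have himg : A.image Φ ⊆ (P.biUnion Bv) ×ˢ Om' := by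
    intro a ha
    obtain ⟨f, hf, rfl⟩ := Finset.mem_image.1 ha
    have hfO := hA hf
    obtain ⟨h0, v, hv1, hv2⟩ := hAl f hf
    have hyK : (y f : K) ≠ 0 := by exact_mod_cast h0
    rw [Finset.mem_product]
    constructor
    · rw [Finset.mem_biUnion]
      have hN0 : (0 : ℝ) < Nn v := by
        have := Nn_pos v
        exact_mod_cast (by omega : 0 < Nn v)
      have g1 := v_sq v hyK hv2
      have g2 := inv_le_nm hyK (fun v => int_le_one v _) v
      have g3 := nm_le (hyR f hfO)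
      rw [← hd] at g3
      have g4 : 0 < v (y f : K) := FinitePlace.pos_iff.2 hyK
      rw [N_eq] at g1
      have g5 : (Nn v : ℝ) ^ 2 ≤ R ^ d := by
        have : (Nn v : ℝ) ^ 2 ≤ (v (y f : K))⁻¹ := by
          rw [inv_eq_one_div, le_div_iff₀ g4]
          exact g1
        linarith
      refine ⟨v, (hPm v).2 ⟨?_, hv1⟩, ?_⟩
      · have g6 : (1 : ℝ) ≤ Nn v := by
          have := Nn_pos v
          exact_mod_cast (by omega : 1 ≤ Nn v)
        have g7 : (Nn v : ℝ) ≤ Q := by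
          have g8 : R ^ d ≤ Q := by rw [hQ]; exact Nat.le_ceil _
          nlinarith
        exact_mod_cast g7
      · rw [hBv]
        refine Finset.mem_filter.2 ⟨?_, g5, ?_⟩
        · rw [mem_cube]
          intro i
          have k1 : |(co (y f) i : ℝ)| ≤ V * R := hV (co (y f)) R (fun w => by
            rw [hco]
            exact hyR f hfO w) i
          have k2 : |(co (y f) i : ℝ)| ≤ X := k1.trans hX1
          have k3 : |co (y f) i| ≤ (X : ℤ) := by exact_mod_cast k2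
          rw [abs_le] at k3
          rw [hΦ]
          constructor
          · show 0 ≤ co (y f) i + X
            linarith [k3.1]
          · show co (y f) i + X < _
            push_cast
            linarith [k3.2]
        · have k1 : (el (Φ f).1 : K) - (eX : K) = (y f : K) := by
            have k2 : (Φ f).1 = co (y f) + fun _ => (X : ℤ) := by rw [hΦ]; rfl
            rw [k2, el_add, hco, heX]
            push_cast
            ring
          rw [k1, le_div_iff₀ (by positivity), mul_comm]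
          exact g1
    · rw [hOm', Fintype.mem_piFinset]
      intro c
      rw [hΦ]
      show (if c = c0 ∨ c = c1 then (0 : Ix K → ℤ) else f c) ∈
        (if c = c0 ∨ c = c1 then {0} else cube K (Y c))
      split_ifs with h
      · exact Finset.mem_singleton_self _
      · exact mem_Om.1 hfO c
  have hBc : ∀ v ∈ P, ((Bv v).card : ℝ) ≤
      2 * (4 * W) ^ d * (5 * V) ^ d * R ^ d * (1 / (Nn v : ℝ) ^ 2) := by
    intro v hv
    have hN0 : (0 : ℝ) < Nn v := by
      have := Nn_pos v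
      exact_mod_cast (by omega : 0 < Nn v)
    by_cases hNR : (Nn v : ℝ) ^ 2 ≤ R ^ d
    · have h1 := box_real hW0 hW v (Y := 2 * X + 1) (A := Bv v)
        (by rw [hBv]; exact Finset.filter_subset _ _) (by positivity : (0 : ℝ) < (Nn v : ℝ) ^ 2) (by
          intro a ha a' ha' _
          rw [hBv] at ha ha'
          have k1 := (Finset.mem_filter.1 ha).2.2
          have k2 := (Finset.mem_filter.1 ha').2.2
          have k3 := fsub v ((el a : K) - (eX : K)) ((el a' : K) - (eX : K))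
          rw [sub_sub_sub_cancel_right] at k3
          have k4 := k3.trans (max_le k1 k2)
          rw [le_div_iff₀ (by positivity), mul_comm] at k4
          exact k4)
      rw [← hd] at h1
      have h2 : (1 : ℝ) ≤ ((2 * X + 1 : ℕ) : ℝ) ^ d / (Nn v : ℝ) ^ 2 := by
        rw [one_le_div (by positivity)]
        refine hNR.trans ?_
        gcongr
      have h3 : ((2 * X + 1 : ℕ) : ℝ) ^ d ≤ (5 * V) ^ d * R ^ d := by
        rw [← mul_pow]
        gcongr
      calc ((Bv v).card : ℝ) ≤ (4 * W) ^ d * (1 + ((2 * X + 1 : ℕ) : ℝ) ^ d / (Nn v : ℝ) ^ 2) := h1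
        _ ≤ (4 * W) ^ d * (((2 * X + 1 : ℕ) : ℝ) ^ d / (Nn v : ℝ) ^ 2 +
            ((2 * X + 1 : ℕ) : ℝ) ^ d / (Nn v : ℝ) ^ 2) := by gcongr
        _ = 2 * (4 * W) ^ d * (((2 * X + 1 : ℕ) : ℝ) ^ d * (1 / (Nn v : ℝ) ^ 2)) := by ring
        _ ≤ 2 * (4 * W) ^ d * (((5 * V) ^ d * R ^ d) * (1 / (Nn v : ℝ) ^ 2)) := by gcongr
        _ = _ := by ring
    · have : Bv v = ∅ := by
        rw [hBv]
        exact Finset.filter_false_of_mem fun n _ h => hNR h.1
      rw [this]
      simp only [Finset.card_empty, Nat.cast_zero]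
      positivity
  have hPB : ((P.biUnion Bv).card : ℝ) ≤ 2 * (4 * W) ^ d * (5 * V) ^ d * d * (R ^ d / Z) := by
    have h1 : ((P.biUnion Bv).card : ℝ) ≤ ∑ v ∈ P, ((Bv v).card : ℝ) := by
      exact_mod_cast Finset.card_biUnion_le
    refine h1.trans ((Finset.sum_le_sum hBc).trans ?_)
    rw [← Finset.mul_sum]
    have h4 := sum_places P (fun n => 1 / (n : ℝ) ^ 2) (fun n => by positivity) Z Q
      (fun v hv => by
        obtain ⟨g1, g2⟩ := (hPm v).1 hv
        exact ⟨g2, g1⟩)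
    have h5 := sum_sq Z Q hZ
    rw [← hd] at h4
    calc 2 * (4 * W) ^ d * (5 * V) ^ d * R ^ d * ∑ v ∈ P, 1 / (Nn v : ℝ) ^ 2 ≤
        2 * (4 * W) ^ d * (5 * V) ^ d * R ^ d * (d * (1 / Z)) := by
          refine mul_le_mul_of_nonneg_left ?_ (by positivity)
          exact h4.trans (mul_le_mul_of_nonneg_left h5 (Nat.cast_nonneg _))
      _ = _ := by ring
  have hfibc : ∀ a ∈ A.image Φ, (A.filter fun f => Φ f = a).card ≤ (Y c1 / M + 1) ^ d := by
    intro a _
    rw [hd, ← card_cube]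
    refine Finset.card_le_card_of_injOn (fun f i => f c1 i / (M : ℤ)) ?_ ?_
    · intro f hf
      have hfO := hA (Finset.mem_filter.1 (Finset.mem_coe.1 hf)).1
      have h1 := mem_cube.1 (mem_Om.1 hfO c1)
      rw [Finset.mem_coe, mem_cube]
      intro i
      refine ⟨Int.ediv_nonneg (h1 i).1 (by positivity), ?_⟩
      have h2 : f c1 i / (M : ℤ) ≤ (Y c1 : ℤ) / (M : ℤ) :=
        Int.ediv_le_ediv hMz (h1 i).2.le
      push_cast
      omega
    · intro f hf f' hf' h
      obtain ⟨hf1, hf2⟩ := Finset.mem_filter.1 (Finset.mem_coe.1 hf)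
      obtain ⟨hf1', hf2'⟩ := Finset.mem_filter.1 (Finset.mem_coe.1 hf')
      have hΦe : Φ f = Φ f' := by rw [hf2, hf2']
      have e1 : y f = y f' := by
        have h1 : (Φ f).1 = (Φ f').1 := by rw [hΦe]
        have h2 : co (y f) = co (y f') := by
          funext i
          have := congrFun h1 i
          rw [hΦ] at this
          simp only at this
          omega
        rw [← hco (y f), h2, hco]
      have e2 : ∀ c, c ≠ c0 → c ≠ c1 → f c = f' c := by
        intro c h0 h1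
        have h2 : (Φ f).2 c = (Φ f').2 c := by rw [hΦe]
        rw [hΦ] at h2
        simp only [h0, h1, or_self, if_false] at h2
        exact h2
      obtain ⟨k1, k2⟩ := hfib f (hA hf1) f' (hA hf1') e1 e2
      have e3 : f c1 = f' c1 := by
        funext i
        have h1 : f c1 i / (M : ℤ) = f' c1 i / (M : ℤ) := congrFun h i
        obtain ⟨t, ht⟩ := k1 i
        have h2 : f c1 i = f' c1 i + M * t := by linarith
        rw [h2, Int.add_mul_ediv_left _ _ hMz.ne'] at h1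
        have h3 : t = 0 := by omega
        rw [h2, h3, mul_zero, add_zero]
      have e4 := k2 e3
      funext c
      by_cases h0 : c = c0
      · rw [h0, e4]
      by_cases h1 : c = c1
      · rw [h1, e3]
      exact e2 c h0 h1
  have hcard := Finset.card_le_mul_card_image A _ hfibc
  have hcard2 : A.card ≤ (Y c1 / M + 1) ^ d * ((P.biUnion Bv).card * Om'.card) := by
    refine hcard.trans (Nat.mul_le_mul_left _ ?_)
    rw [← Finset.card_product]
    exact Finset.card_le_card himg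
  have hOmc : Om'.card * (Y c0 ^ d * Y c1 ^ d) = (Om K Y).card := by
    have h1 : Om'.card = ∏ c, if c = c0 ∨ c = c1 then 1 else Y c ^ d := by
      rw [hOm', Fintype.card_piFinset]
      refine Finset.prod_congr rfl fun c _ => ?_
      split_ifs
      · rfl
      · rw [card_cube, hd]
    rw [h1, card_Om, ← hd]
    have h2 : ∏ c, Y c ^ d = ∏ c, ((if c = c0 ∨ c = c1 then 1 else Y c ^ d) *
        (if c = c0 then Y c ^ d else 1) * (if c = c1 then Y c ^ d else 1)) := by
      refine Finset.prod_congr rfl fun c _ => ?_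
      by_cases k0 : c = c0
      · have k1 : c ≠ c1 := fun h => hc (k0.symm.trans h)
        simp [k0, hc]
      · by_cases k1 : c = c1
        · simp [k1, Ne.symm hc]
        · simp [k0, k1]
    rw [h2, Finset.prod_mul_distrib, Finset.prod_mul_distrib, Finset.prod_ite_eq',
      Finset.prod_ite_eq']
    simp only [Finset.mem_univ, if_true]
    ring
  rw [← hd]
  have hr1 : (A.card : ℝ) ≤ (((Y c1 / M : ℕ) : ℝ) + 1) ^ d *
      (((P.biUnion Bv).card : ℝ) * Om'.card) := by exact_mod_cast hcard2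
  have hr2 : (((Y c1 / M : ℕ) : ℝ) + 1) ^ d ≤ ((Y c1 : ℝ) / M + 1) ^ d := by
    have : ((Y c1 / M : ℕ) : ℝ) ≤ (Y c1 : ℝ) / M := Nat.cast_div_le
    gcongr
  have hr3 : (Om'.card : ℝ) * ((Y c0 : ℝ) ^ d * (Y c1 : ℝ) ^ d) = (Om K Y).card := by
    exact_mod_cast hOmc
  calc (A.card : ℝ) * ((Y c0 : ℝ) ^ d * (Y c1 : ℝ) ^ d) ≤
      (((Y c1 : ℝ) / M + 1) ^ d * ((2 * (4 * W) ^ d * (5 * V) ^ d * d * (R ^ d / Z)) * Om'.card)) *
        ((Y c0 : ℝ) ^ d * (Y c1 : ℝ) ^ d) := by
        refine mul_le_mul_of_nonneg_right ?_ (by positivity)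
        refine hr1.trans ?_
        have : ((P.biUnion Bv).card : ℝ) * Om'.card ≤
            (2 * (4 * W) ^ d * (5 * V) ^ d * d * (R ^ d / Z)) * Om'.card :=
          mul_le_mul_of_nonneg_right hPB (Nat.cast_nonneg _)
        exact mul_le_mul hr2 this (by positivity) (by positivity)
    _ = ((Y c1 : ℝ) / M + 1) ^ d * (2 * (4 * W) ^ d * (5 * V) ^ d * d * (R ^ d / Z)) *
        ((Om'.card : ℝ) * ((Y c0 : ℝ) ^ d * (Y c1 : ℝ) ^ d)) := by ring
    _ = _ := by rw [hr3]

end Pool.Agent.Q272.GL
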