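import Pool.Agent.Q272.GL.B

/-! # Zeros of polynomials on the sample -/

set_option autoImplicit false

open NumberField Height Function

namespace Pool.Agent.Q272.GL

open Q241.AK Q265.NF Q265.BM LP

variable {K : Type*} [Field K] [NumberField K]

/-- the density of the zeros of a polynomial, product case -/
lemma poly_prod {n : ℕ} (G : MvPolynomial (Fin n) K) (hG : G ≠ 0) (Y : Fin n → ℕ)
    (hY : ∀ c, 1 ≤ Y c) (ζ : Fin n → (Ix K → ℤ) → K) (hζ : ∀ i, Injective (ζ i))
    (A : Finset (Fin n → Ix K → ℤ)) (hA : A ⊆ Om K Y)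
    (hAl : ∀ f ∈ A, MvPolynomial.eval (fun i => ζ i (f i)) G = 0) :
    (A.card : ℝ) ≤ (∑ i, (G.degreeOf i : ℝ) * (1 / (Y i : ℝ) ^ Module.finrank ℚ K)) *
      (Om K Y).card := by
  classical
  have h1 := MvPolynomial.schwartz_zippel_sum_degreeOf hG
    (fun i => (cube K (Y i)).image (ζ i))
  have hcard : ∀ i, ((cube K (Y i)).image (ζ i)).card = Y i ^ Module.finrank ℚ K := by
    intro i
    rw [Finset.card_image_of_injective _ (hζ i), card_cube]
  simp only [hcard] at h1
  rw [← Nat.cast_prod, ← card_Om (K := K) Y] at h1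
  have h2 : A.card ≤ ((Fintype.piFinset fun i => (cube K (Y i)).image (ζ i)).filter
      fun x => MvPolynomial.eval x G = 0).card := by
    refine Finset.card_le_card_of_injOn (fun f i => ζ i (f i)) ?_ ?_
    · intro f hf
      rw [Finset.mem_coe, Finset.mem_filter]
      refine ⟨Fintype.mem_piFinset.2 fun i => ?_, hAl f hf⟩
      exact Finset.mem_image_of_mem _ (mem_Om.1 (hA hf) i)
    · intro f _ f' _ h
      funext i
      exact hζ i (congrFun h i)
  have hOm : (0 : ℝ) < (Om K Y).card := by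
    rw [card_Om]
    have : 0 < ∏ c, Y c ^ Module.finrank ℚ K :=
      Finset.prod_pos fun c _ => pow_pos (hY c) _
    exact_mod_cast this
  have h3 : ((((Fintype.piFinset fun i => (cube K (Y i)).image (ζ i)).filter
      fun x => MvPolynomial.eval x G = 0).card : ℝ) / (Om K Y).card) ≤
      ∑ i, (G.degreeOf i : ℝ) * (1 / (Y i : ℝ) ^ Module.finrank ℚ K) := by
    have h4 := (NNRat.cast_le (K := ℝ)).2 h1
    push_cast at h4
    refine h4.trans (le_of_eq ?_)
    refine Finset.sum_congr rfl fun i _ => ?_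
    ring
  rw [div_le_iff₀ hOm] at h3
  have h5 : (A.card : ℝ) ≤ ((Fintype.piFinset fun i => (cube K (Y i)).image (ζ i)).filter
      fun x => MvPolynomial.eval x G = 0).card := by exact_mod_cast h2
  exact h5.trans h3

/-- the density of the zeros of a polynomial -/
lemma poly_dens {n : ℕ} (F : MvPolynomial (Fin (n + 1)) K) (hF : F ≠ 0) :
    ∃ Dg : ℝ, 0 ≤ Dg ∧ ∀ (Y : Fin (n + 1) → ℕ), (∀ c, 1 ≤ Y c) →
      ∀ (ζ : Fin n → (Ix K → ℤ) → K), (∀ i, Injective (ζ i)) →
      ∀ x0 : (Fin (n + 1) → Ix K → ℤ) → K, (∀ f, Injective fun a => x0 (update f 0 a)) →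
      ∀ A : Finset (Fin (n + 1) → Ix K → ℤ), A ⊆ Om K Y →
      (∀ f ∈ A, MvPolynomial.eval (Fin.cons (x0 f) (fun i => ζ i (f i.succ)) :
        Fin (n + 1) → K) F = 0) →
      (A.card : ℝ) ≤ Dg * (∑ c, 1 / (Y c : ℝ) ^ Module.finrank ℚ K) * (Om K Y).card := by
  classical
  obtain ⟨P, hP⟩ : ∃ P, P = MvPolynomial.finSuccEquiv K n F := ⟨_, rfl⟩
  have hP0 : P ≠ 0 := by
    rw [hP]
    exact (map_ne_zero_iff _ (MvPolynomial.finSuccEquiv K n).injective).2 hF
  obtain ⟨G, hG⟩ : ∃ G, G = P.leadingCoeff := ⟨_, rfl⟩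
  have hG0 : G ≠ 0 := by rw [hG]; exact Polynomial.leadingCoeff_ne_zero.2 hP0
  obtain ⟨G', hG'⟩ : ∃ G' : MvPolynomial (Fin (n + 1)) K, G' = MvPolynomial.rename Fin.succ G :=
    ⟨_, rfl⟩
  have hG'0 : G' ≠ 0 := by
    rw [hG']
    exact (map_ne_zero_iff _ (MvPolynomial.rename_injective _ (Fin.succ_injective n))).2 hG0
  refine ⟨P.natDegree + ∑ i, (G'.degreeOf i : ℝ), by positivity, ?_⟩
  intro Y hY ζ hζ x0 hx0 A hA hAl
  obtain ⟨z, hz⟩ : ∃ z : (Fin (n + 1) → Ix K → ℤ) → Fin n → K, z = fun f i => ζ i (f i.succ) :=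
    ⟨_, rfl⟩
  have hzu : ∀ f a, z (update f 0 a) = z f := by
    intro f a
    rw [hz]
    funext i
    simp only
    rw [update_of_ne (Fin.succ_ne_zero i)]
  obtain ⟨A1, hA1⟩ : ∃ A1, A1 = A.filter fun f => MvPolynomial.eval (z f) G = 0 := ⟨_, rfl⟩
  obtain ⟨A2, hA2⟩ : ∃ A2, A2 = A.filter fun f => ¬ MvPolynomial.eval (z f) G = 0 := ⟨_, rfl⟩
  have hsplit : A.card = A1.card + A2.card := by
    rw [hA1, hA2]
    exact (Finset.card_filter_add_card_filter_not (s := A) _).symm
  have hD : ∀ c, (0 : ℝ) < (Y c : ℝ) ^ Module.finrank ℚ K := by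
    intro c
    have : (0 : ℝ) < Y c := by exact_mod_cast hY c
    positivity
  -- the leading coefficient
  have h1 := poly_prod G' hG'0 Y hY
    (fun c => Fin.cases (fun a => (el a : K)) (fun i => ζ i) c) (by
      intro c
      refine Fin.cases ?_ (fun i => ?_) c
      · intro a a' h
        apply el_inj
        simp only [Fin.cases_zero] at h
        exact_mod_cast h
      · simp only [Fin.cases_succ]
        exact hζ i) A1 (by rw [hA1]; exact (Finset.filter_subset _ _).trans hA) (by
      intro f hf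
      rw [hA1] at hf
      have h2 := (Finset.mem_filter.1 hf).2
      rw [hG', MvPolynomial.eval_rename]
      rw [hz] at h2
      refine Eq.trans (congrFun (congrArg DFunLike.coe ?_) G) h2
      congr 1)
  -- the fibres
  have h2 := fib Y A2 (Om K Y) 0 (by rw [hA2]; exact (Finset.filter_subset _ _).trans hA)
    subset_rfl (fun f hf a ha => upd_mem hf ha) P.natDegree (by
      intro f hf
      by_cases h0 : MvPolynomial.eval (z f) G = 0
      · have : ((cube K (Y 0)).filter fun a => update f 0 a ∈ A2) = ∅ := by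
          rw [Finset.filter_eq_empty_iff]
          intro a _ ha
          rw [hA2] at ha
          have h3 := (Finset.mem_filter.1 ha).2
          rw [hzu] at h3
          exact h3 h0
        rw [this]
        simp
      · obtain ⟨Q, hQ⟩ : ∃ Q : Polynomial K, Q = P.map (MvPolynomial.eval (z f)) := ⟨_, rfl⟩
        have hQ0 : Q ≠ 0 := by
          intro h
          apply h0
          have h3 : Q.coeff P.natDegree = 0 := by rw [h, Polynomial.coeff_zero]
          rw [hQ, Polynomial.coeff_map] at h3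
          rw [hG]
          exact h3
        have h4 : ((cube K (Y 0)).filter fun a => update f 0 a ∈ A2).card ≤ P.natDegree := by
          have h5 : Q.natDegree ≤ P.natDegree := by rw [hQ]; exact Polynomial.natDegree_map_le
          refine le_trans ?_ ((Q.card_roots' ).trans h5)
          refine le_trans ?_ (Multiset.toFinset_card_le Q.roots)
          refine Finset.card_le_card_of_injOn (fun a => x0 (update f 0 a)) ?_
            (fun a _ a' _ h => hx0 f h)
          intro a ha
          have ha' := (Finset.mem_filter.1 (Finset.mem_coe.1 ha)).2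
          rw [hA2] at ha'
          have h6 := hAl _ (Finset.mem_filter.1 ha').1
          rw [Finset.mem_coe, Multiset.mem_toFinset, Polynomial.mem_roots hQ0,
            Polynomial.IsRoot.def, hQ, hP, ← MvPolynomial.eval_eq_eval_mv_eval']
          have h7 : z f = fun i => ζ i ((update f 0 a) i.succ) := by
            rw [← hzu f a, hz]
          rw [h7]
          exact h6
        exact_mod_cast h4)
  rw [← le_div_iff₀ (hD 0)] at h2
  have hsum : ∀ c, 1 / (Y c : ℝ) ^ Module.finrank ℚ K ≤
      ∑ c, 1 / (Y c : ℝ) ^ Module.finrank ℚ K := fun c =>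
    Finset.single_le_sum (f := fun c => 1 / (Y c : ℝ) ^ Module.finrank ℚ K)
      (fun c _ => (div_pos one_pos (hD c)).le) (Finset.mem_univ c)
  have h3 : (A2.card : ℝ) ≤ P.natDegree * (∑ c, 1 / (Y c : ℝ) ^ Module.finrank ℚ K) *
      (Om K Y).card := by
    refine h2.trans ?_
    have e : (P.natDegree : ℝ) * ((Om K Y).card : ℝ) / (Y 0 : ℝ) ^ Module.finrank ℚ K =
        P.natDegree * (1 / (Y 0 : ℝ) ^ Module.finrank ℚ K) * (Om K Y).card := by ring
    rw [e]
    have := hsum 0
    gcongr
  have h4 : (A1.card : ℝ) ≤ (∑ i, (G'.degreeOf i : ℝ)) *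
      (∑ c, 1 / (Y c : ℝ) ^ Module.finrank ℚ K) * (Om K Y).card := by
    refine h1.trans ?_
    refine mul_le_mul_of_nonneg_right ?_ (Nat.cast_nonneg _)
    rw [Finset.sum_mul]
    refine Finset.sum_le_sum fun i _ => ?_
    exact mul_le_mul_of_nonneg_left (hsum i) (Nat.cast_nonneg _)
  rw [hsplit]
  push_cast
  calc (A1.card : ℝ) + A2.card ≤ _ := add_le_add h4 h3
    _ = _ := by ring

end Pool.Agent.Q272.GL
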