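import Pool.Agent.Q272.GL.C

/-! # The sample of points -/

set_option autoImplicit false

open NumberField Height Function

namespace Pool.Agent.Q272.GL

open Q241.AK Q265.NF Q265.BM LP

/-- the data of the construction -/
structure Dat (K : Type*) [Field K] [NumberField K] (n r : ℕ) where
  γ : Fin r → Fin n → 𝓞 K
  p : Fin r → ℕ
  k : Fin r → ℕ
  b : Fin n → ℕ
  s : Fin n → ℕ
  Y : Fin (n + 1) → ℕ
  M1 : ℕ
  M2 : ℕ
  i0 : Fin n
  G0 : ℕ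
  W : ℝ
  hp : ∀ j, (p j).Prime
  hpi : Injective p
  hb : ∀ i, (b i).Prime
  hpb : ∀ j i, p j ≠ b i
  hY : ∀ c, 1 ≤ Y c
  hG0 : 0 < G0
  hγ : ∀ j j', j ≠ j' → (γ j i0 - γ j' i0) ∣ (G0 : 𝓞 K)
  hpG : ∀ j, ¬ p j ∣ G0
  hbG : ∀ i, ¬ b i ∣ G0
  hW0 : 1 ≤ W
  hW : ∀ (w : InfinitePlace K) (n : Ix K → ℤ) (s : ℝ), (∀ i, |(n i : ℝ)| ≤ s) →
      w (el n : K) ≤ W * s

namespace Dat

variable {K : Type*} [Field K] [NumberField K] {n r : ℕ} (D : Dat K n r)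

/-- the cofactors of the coordinates -/
noncomputable def w (f : Fin (n + 1) → Ix K → ℤ) (i : Fin n) : 𝓞 K :=
  ((D.M1 * D.Y i.succ : ℕ) : 𝓞 K) + el (f i.succ)

/-- the coordinates -/
noncomputable def z (f : Fin (n + 1) → Ix K → ℤ) (i : Fin n) : 𝓞 K :=
  (D.b i : 𝓞 K) ^ D.s i * D.w f i

/-- the values of the linear forms -/
noncomputable def t (f : Fin (n + 1) → Ix K → ℤ) (j : Fin r) : 𝓞 K :=
  ∑ i, D.γ j i * D.z f i

/-- the modulus -/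
def Qd : ℕ := ∏ j, D.p j ^ D.k j

/-- the complementary modulus -/
def Q' (j : Fin r) : ℕ := ∏ i ∈ Finset.univ.erase j, D.p i ^ D.k i

lemma Qd_eq (j : Fin r) : D.Qd = D.p j ^ D.k j * D.Q' j :=
  (Finset.mul_prod_erase Finset.univ (fun i => D.p i ^ D.k i) (Finset.mem_univ j)).symm

lemma Qd_pos : 0 < D.Qd := Finset.prod_pos fun j _ => pow_pos (D.hp j).pos _

lemma Q'_pos (j : Fin r) : 0 < D.Q' j := Finset.prod_pos fun j _ => pow_pos (D.hp j).pos _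

lemma ex_cr : ∃ (cr : (Fin r → 𝓞 K) → 𝓞 K) (ce : (Fin r → 𝓞 K) → Fin r → 𝓞 K),
    (∀ t j, cr t - t j = (D.p j : 𝓞 K) ^ D.k j * ce t j) ∧
      ∀ t (w : InfinitePlace K), w (cr t : K) ≤ D.W * D.Qd := by
  have h1 : ∀ t : Fin r → 𝓞 K, ∃ u : 𝓞 K, (∀ j, ((D.p j : 𝓞 K) ^ D.k j) ∣ u - t j) ∧
      ∀ w : InfinitePlace K, w (u : K) ≤ D.W * D.Qd := fun t =>
    crt D.hW0 D.hW D.p D.hp D.hpi D.k t
  choose cr hcr hw using h1
  choose ce hce using hcr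
  exact ⟨cr, ce, hce, hw⟩

/-- the residue -/
noncomputable def cr : (Fin r → 𝓞 K) → 𝓞 K := D.ex_cr.choose

/-- the quotients -/
noncomputable def ce : (Fin r → 𝓞 K) → Fin r → 𝓞 K := D.ex_cr.choose_spec.choose

lemma cr_sub (t : Fin r → 𝓞 K) (j : Fin r) :
    D.cr t - t j = (D.p j : 𝓞 K) ^ D.k j * D.ce t j := D.ex_cr.choose_spec.choose_spec.1 t j

lemma cr_le (t : Fin r → 𝓞 K) (w : InfinitePlace K) : w (D.cr t : K) ≤ D.W * D.Qd :=
  D.ex_cr.choose_spec.choose_spec.2 t w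

/-- the coordinate `0` -/
noncomputable def x0 (f : Fin (n + 1) → Ix K → ℤ) : 𝓞 K :=
  D.cr (D.t f) + (D.Qd : 𝓞 K) * (((D.M2 * D.Y 0 : ℕ) : 𝓞 K) + el (f 0))

/-- the cofactors of the forms -/
noncomputable def y (f : Fin (n + 1) → Ix K → ℤ) (j : Fin r) : 𝓞 K :=
  D.ce (D.t f) j + (D.Q' j : 𝓞 K) * (((D.M2 * D.Y 0 : ℕ) : 𝓞 K) + el (f 0))

lemma x0_sub (f : Fin (n + 1) → Ix K → ℤ) (j : Fin r) :
    D.x0 f - D.t f j = (D.p j : 𝓞 K) ^ D.k j * D.y f j := by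
  have h1 := D.cr_sub (D.t f) j
  have h2 : (D.Qd : 𝓞 K) = (D.p j : 𝓞 K) ^ D.k j * (D.Q' j : 𝓞 K) := by
    rw [D.Qd_eq j]
    push_cast
    ring
  unfold x0 y
  rw [h2]
  linear_combination h1

lemma x0_subK (f : Fin (n + 1) → Ix K → ℤ) (j : Fin r) :
    (D.x0 f : K) - (D.t f j : K) = (D.p j : K) ^ D.k j * (D.y f j : K) := by
  have := congrArg (fun t : 𝓞 K => (t : K)) (D.x0_sub f j)
  simpa using this

/-! ### Updates -/

lemma w_upd_ne (f : Fin (n + 1) → Ix K → ℤ) (c : Fin (n + 1)) (a : Ix K → ℤ) (i : Fin n)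
    (h : i.succ ≠ c) : D.w (update f c a) i = D.w f i := by
  unfold w
  rw [update_of_ne h]

lemma w_lin (f : Fin (n + 1) → Ix K → ℤ) (a a' : Ix K → ℤ) (i : Fin n) :
    (D.w (update f i.succ a) i : K) - (D.w (update f i.succ a') i : K) =
      1 * ((el a : K) - (el a' : K)) := by
  unfold w
  rw [update_self, update_self]
  push_cast
  ring

lemma z_upd_ne (f : Fin (n + 1) → Ix K → ℤ) (c : Fin (n + 1)) (a : Ix K → ℤ) (i : Fin n)
    (h : i.succ ≠ c) : D.z (update f c a) i = D.z f i := by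
  unfold z
  rw [D.w_upd_ne f c a i h]

lemma t_upd_zero (f : Fin (n + 1) → Ix K → ℤ) (a : Ix K → ℤ) :
    D.t (update f 0 a) = D.t f := by
  funext j
  unfold t
  exact Finset.sum_congr rfl fun i _ => by rw [D.z_upd_ne f 0 a i (Fin.succ_ne_zero i)]

lemma y_lin (f : Fin (n + 1) → Ix K → ℤ) (a a' : Ix K → ℤ) (j : Fin r) :
    (D.y (update f 0 a) j : K) - (D.y (update f 0 a') j : K) =
      (D.Q' j : K) * ((el a : K) - (el a' : K)) := by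
  unfold y
  rw [D.t_upd_zero, D.t_upd_zero, update_self, update_self]
  push_cast
  ring

lemma x0_lin (f : Fin (n + 1) → Ix K → ℤ) (a a' : Ix K → ℤ) :
    (D.x0 (update f 0 a) : K) - (D.x0 (update f 0 a') : K) =
      (D.Qd : K) * ((el a : K) - (el a' : K)) := by
  unfold x0
  rw [D.t_upd_zero, D.t_upd_zero, update_self, update_self]
  push_cast
  ring

/-- the difference of two forms -/
noncomputable def g (j j' : Fin r) (f : Fin (n + 1) → Ix K → ℤ) : 𝓞 K := D.t f j - D.t f j'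

lemma g_eq (j j' : Fin r) (f : Fin (n + 1) → Ix K → ℤ) :
    D.g j j' f = ∑ i, (D.γ j i - D.γ j' i) * D.z f i := by
  unfold g t
  rw [← Finset.sum_sub_distrib]
  exact Finset.sum_congr rfl fun i _ => by ring

lemma g_zero (j j' : Fin r) (f : Fin (n + 1) → Ix K → ℤ) (a : Ix K → ℤ) :
    D.g j j' (update f 0 a) = D.g j j' f := by
  unfold g
  rw [D.t_upd_zero]

/-- the difference of the values of `g` at two samples which differ at one place -/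
lemma g_diff (j j' : Fin r) (f f' : Fin (n + 1) → Ix K → ℤ)
    (h : ∀ i, i ≠ D.i0 → f i.succ = f' i.succ) :
    D.g j j' f - D.g j j' f' = (D.γ j D.i0 - D.γ j' D.i0) * ((D.b D.i0 : 𝓞 K) ^ D.s D.i0 *
      (el (f D.i0.succ) - el (f' D.i0.succ))) := by
  rw [D.g_eq, D.g_eq, ← Finset.sum_sub_distrib, Finset.sum_eq_single D.i0]
  · unfold z w
    ring
  · intro i _ hi
    have : D.z f i = D.z f' i := by
      unfold z w
      rw [h i hi]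
    rw [this, sub_self]
  · intro h
    exact absurd (Finset.mem_univ _) h

lemma g_lin (j j' : Fin r) (f : Fin (n + 1) → Ix K → ℤ) (a a' : Ix K → ℤ) :
    (D.g j j' (update f D.i0.succ a) : K) - (D.g j j' (update f D.i0.succ a') : K) =
      (((D.γ j D.i0 - D.γ j' D.i0 : 𝓞 K) : K) * (D.b D.i0 : K) ^ D.s D.i0) *
        ((el a : K) - (el a' : K)) := by
  have h1 := D.g_diff j j' (update f D.i0.succ a) (update f D.i0.succ a') (by
    intro i hi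
    have : i.succ ≠ D.i0.succ := fun h => hi (Fin.succ_injective _ h)
    rw [update_of_ne this, update_of_ne this])
  rw [update_self, update_self] at h1
  have h2 := congrArg (fun t : 𝓞 K => (t : K)) h1
  push_cast at h2 ⊢
  rw [h2]
  ring

/-! ### Sizes -/

lemma wel (f : Fin (n + 1) → Ix K → ℤ) (hf : f ∈ Om K D.Y) (c : Fin (n + 1))
    (w : InfinitePlace K) : w (el (f c) : K) ≤ D.W * D.Y c := by
  refine D.hW w _ _ fun i => ?_
  have h1 := mem_cube.1 (mem_Om.1 hf c) i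
  have h2 : |f c i| ≤ (D.Y c : ℤ) := by
    rw [abs_of_nonneg h1.1]
    exact h1.2.le
  exact_mod_cast h2

lemma w_size (hM1 : D.W + 1 ≤ D.M1) (f : Fin (n + 1) → Ix K → ℤ) (hf : f ∈ Om K D.Y) (i : Fin n)
    (w : InfinitePlace K) :
    (D.Y i.succ : ℝ) ≤ w (D.w f i : K) ∧ w (D.w f i : K) ≤ (D.M1 + D.W) * D.Y i.succ := by
  have h1 := D.wel f hf i.succ w
  have e : (D.w f i : K) = ((D.M1 * D.Y i.succ : ℕ) : K) + (el (f i.succ) : K) := by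
    unfold Dat.w
    push_cast
    ring
  have h2 := wadd w ((D.M1 * D.Y i.succ : ℕ) : K) (el (f i.succ) : K)
  have h3 := wadd_ge w ((D.M1 * D.Y i.succ : ℕ) : K) (el (f i.succ) : K)
  rw [← e, w_nat] at h2 h3
  push_cast at h2 h3
  have h4 : (0 : ℝ) ≤ D.Y i.succ := Nat.cast_nonneg _
  constructor <;> nlinarith

lemma z_size (hM1 : D.W + 1 ≤ D.M1) {B : ℝ} (hB : ∀ i, (D.b i : ℝ) ^ D.s i * D.Y i.succ ≤ B)
    (hB' : ∀ i, B / 2 ≤ (D.b i : ℝ) ^ D.s i * D.Y i.succ)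
    (f : Fin (n + 1) → Ix K → ℤ) (hf : f ∈ Om K D.Y) (i : Fin n) (w : InfinitePlace K) :
    B / 2 ≤ w (D.z f i : K) ∧ w (D.z f i : K) ≤ (D.M1 + D.W) * B := by
  obtain ⟨h1, h2⟩ := D.w_size hM1 f hf i w
  have e : w (D.z f i : K) = (D.b i : ℝ) ^ D.s i * w (D.w f i : K) := by
    unfold z
    push_cast
    rw [map_mul, map_pow, w_nat]
  have hb : (0 : ℝ) ≤ (D.b i : ℝ) ^ D.s i := by positivity
  have hW := D.hW0
  rw [e]
  constructor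
  · exact (hB' i).trans (mul_le_mul_of_nonneg_left h1 hb)
  · calc (D.b i : ℝ) ^ D.s i * w (D.w f i : K) ≤
        (D.b i : ℝ) ^ D.s i * ((D.M1 + D.W) * D.Y i.succ) := mul_le_mul_of_nonneg_left h2 hb
      _ = (D.M1 + D.W) * ((D.b i : ℝ) ^ D.s i * D.Y i.succ) := by ring
      _ ≤ (D.M1 + D.W) * B := mul_le_mul_of_nonneg_left (hB i) (by positivity)

lemma t_size (hM1 : D.W + 1 ≤ D.M1) {B A0 : ℝ}
    (hB : ∀ i, (D.b i : ℝ) ^ D.s i * D.Y i.succ ≤ B)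
    (hB' : ∀ i, B / 2 ≤ (D.b i : ℝ) ^ D.s i * D.Y i.succ)
    (hA0 : ∀ (w : InfinitePlace K) (j : Fin r), ∑ i, w (D.γ j i : K) ≤ A0)
    (f : Fin (n + 1) → Ix K → ℤ) (hf : f ∈ Om K D.Y) (j : Fin r) (w : InfinitePlace K) :
    w (D.t f j : K) ≤ A0 * ((D.M1 + D.W) * B) := by
  have e : (D.t f j : K) = ∑ i, (D.γ j i : K) * (D.z f i : K) := by
    unfold t
    push_cast
    rfl
  rw [e]
  have h1 : w (∑ i, (D.γ j i : K) * (D.z f i : K)) ≤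
      ∑ i, w ((D.γ j i : K) * (D.z f i : K)) := IsAbsoluteValue.abv_sum w.val _ _
  have hB0 : 0 ≤ (D.M1 + D.W) * B := by
    have h2 := D.z_size hM1 hB hB' f hf D.i0 w
    exact (apply_nonneg w _).trans h2.2
  refine h1.trans ((Finset.sum_le_sum fun i _ => ?_).trans
    ((Finset.sum_mul _ _ _).symm.le.trans (mul_le_mul_of_nonneg_right (hA0 w j) hB0)))
  rw [map_mul]
  exact mul_le_mul_of_nonneg_left (D.z_size hM1 hB hB' f hf i w).2 (apply_nonneg w _)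

lemma x0_size (hM1 : D.W + 1 ≤ D.M1) {B A0 : ℝ}
    (hB : ∀ i, (D.b i : ℝ) ^ D.s i * D.Y i.succ ≤ B)
    (hB' : ∀ i, B / 2 ≤ (D.b i : ℝ) ^ D.s i * D.Y i.succ)
    (hA0 : ∀ (w : InfinitePlace K) (j : Fin r), ∑ i, w (D.γ j i : K) ≤ A0) (hA00 : 0 ≤ A0)
    (hQ : (D.Qd : ℝ) * D.Y 0 ≤ B) (hQ' : B / 2 ≤ (D.Qd : ℝ) * D.Y 0)
    (hM2 : 2 * D.W + 2 * (A0 * (D.M1 + D.W) + 1) ≤ D.M2)
    (f : Fin (n + 1) → Ix K → ℤ) (hf : f ∈ Om K D.Y) (w : InfinitePlace K) :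
    w (D.x0 f : K) ≤ (D.M2 + 2 * D.W + A0 * (D.M1 + D.W)) * B ∧ ∀ j,
      B ≤ w ((D.x0 f : K) - (D.t f j : K)) ∧
      w ((D.x0 f : K) - (D.t f j : K)) ≤ (D.M2 + 2 * D.W + A0 * (D.M1 + D.W)) * B := by
  have hW0 := D.hW0
  have hB0 : 0 ≤ B := by
    have h1 : (0 : ℝ) ≤ (D.Qd : ℝ) * D.Y 0 := by positivity
    linarith
  have hQd : (0 : ℝ) < D.Qd := by exact_mod_cast D.Qd_pos
  have hY0 : (1 : ℝ) ≤ D.Y 0 := by exact_mod_cast D.hY 0
  have e : (D.x0 f : K) = (D.Qd : K) * ((D.M2 * D.Y 0 : ℕ) : K) +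
      ((D.Qd : K) * (el (f 0) : K) + (D.cr (D.t f) : K)) := by
    unfold x0
    push_cast
    ring
  have h1 := D.wel f hf 0 w
  have h2 := D.cr_le (D.t f) w
  have h3 : w ((D.Qd : K) * ((D.M2 * D.Y 0 : ℕ) : K)) = D.M2 * (D.Qd * D.Y 0) := by
    rw [map_mul, w_nat, w_nat]
    push_cast
    ring
  have h4 : w ((D.Qd : K) * (el (f 0) : K)) ≤ D.W * (D.Qd * D.Y 0) := by
    rw [map_mul, w_nat]
    calc (D.Qd : ℝ) * w (el (f 0) : K) ≤ D.Qd * (D.W * D.Y 0) :=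
          mul_le_mul_of_nonneg_left h1 hQd.le
      _ = _ := by ring
  have h5 := wadd w ((D.Qd : K) * (el (f 0) : K)) (D.cr (D.t f) : K)
  have h6 := wadd w ((D.Qd : K) * ((D.M2 * D.Y 0 : ℕ) : K))
    ((D.Qd : K) * (el (f 0) : K) + (D.cr (D.t f) : K))
  have h7 := wadd_ge w ((D.Qd : K) * ((D.M2 * D.Y 0 : ℕ) : K))
    ((D.Qd : K) * (el (f 0) : K) + (D.cr (D.t f) : K))
  rw [← e, h3] at h6 h7
  have h8 : D.W * (D.Qd : ℝ) ≤ D.W * (D.Qd * D.Y 0) :=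
    mul_le_mul_of_nonneg_left (le_mul_of_one_le_right hQd.le hY0) (by linarith)
  obtain ⟨q, hq⟩ : ∃ q : ℝ, q = (D.Qd : ℝ) * D.Y 0 := ⟨_, rfl⟩
  rw [← hq] at hQ hQ' h4 h6 h7 h8
  have hq0 : 0 ≤ q := by rw [hq]; positivity
  have hM20 : (0 : ℝ) ≤ D.M2 := Nat.cast_nonneg _
  have hM10 : (0 : ℝ) ≤ D.M1 := Nat.cast_nonneg _
  have g1 : w (D.x0 f : K) ≤ (D.M2 + 2 * D.W) * q := by linarith
  have g2 : (D.M2 - 2 * D.W) * q ≤ w (D.x0 f : K) := by linarith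
  have g3 : (D.M2 + 2 * D.W) * q ≤ (D.M2 + 2 * D.W) * B :=
    mul_le_mul_of_nonneg_left hQ (by positivity)
  have g4 : (2 * (A0 * (D.M1 + D.W) + 1)) * (B / 2) ≤ (D.M2 - 2 * D.W) * q := by
    have k1 : 2 * (A0 * (D.M1 + D.W) + 1) ≤ D.M2 - 2 * D.W := by linarith
    have k2 : 0 ≤ A0 * (D.M1 + D.W) := by positivity
    exact mul_le_mul k1 hQ' (by positivity) (by linarith)
  have g5 : 0 ≤ A0 * (D.M1 + D.W) * B := by positivity
  refine ⟨by linarith, fun j => ?_⟩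
  have h9 := D.t_size hM1 hB hB' hA0 f hf j w
  have h10 := wadd w (D.x0 f : K) (-(D.t f j : K))
  have h11 := wadd_ge w (D.x0 f : K) (-(D.t f j : K))
  rw [wneg, ← sub_eq_add_neg] at h10 h11
  constructor
  · linarith
  · linarith

lemma y_size (hM1 : D.W + 1 ≤ D.M1) {B A0 : ℝ}
    (hB : ∀ i, (D.b i : ℝ) ^ D.s i * D.Y i.succ ≤ B)
    (hB' : ∀ i, B / 2 ≤ (D.b i : ℝ) ^ D.s i * D.Y i.succ)
    (hA0 : ∀ (w : InfinitePlace K) (j : Fin r), ∑ i, w (D.γ j i : K) ≤ A0) (hA00 : 0 ≤ A0)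
    (hQ : (D.Qd : ℝ) * D.Y 0 ≤ B) (hQ' : B / 2 ≤ (D.Qd : ℝ) * D.Y 0)
    (hM2 : 2 * D.W + 2 * (A0 * (D.M1 + D.W) + 1) ≤ D.M2)
    (f : Fin (n + 1) → Ix K → ℤ) (hf : f ∈ Om K D.Y) (w : InfinitePlace K) (j : Fin r) :
    B / (D.p j : ℝ) ^ D.k j ≤ w (D.y f j : K) ∧
      w (D.y f j : K) ≤ (D.M2 + 2 * D.W + A0 * (D.M1 + D.W)) * (B / (D.p j : ℝ) ^ D.k j) := by
  obtain ⟨-, h⟩ := D.x0_size hM1 hB hB' hA0 hA00 hQ hQ' hM2 f hf w
  obtain ⟨h1, h2⟩ := h j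
  have hp : (0 : ℝ) < (D.p j : ℝ) ^ D.k j := by
    have : (0 : ℝ) < D.p j := by exact_mod_cast (D.hp j).pos
    positivity
  rw [D.x0_subK, map_mul, map_pow, w_nat] at h1 h2
  constructor
  · rw [div_le_iff₀ hp]
    linarith
  · rw [← mul_div_assoc, le_div_iff₀ hp]
    linarith

end Dat

end Pool.Agent.Q272.GL
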