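import Pool.Agent.Q272.GL.D

/-! # Existence of good samples -/

set_option autoImplicit false

open NumberField Height Function

namespace Pool.Agent.Q272.GL

open Q241.AK Q265.NF Q265.BM LP

variable {K : Type*} [Field K] [NumberField K]

lemma Nn_le_nm {x : K} (hx : x ≠ 0) (h1 : ∀ v : FinitePlace K, v x ≤ 1) (v : FinitePlace K)
    (h : v x < 1) : (Nn v : ℝ) ≤ nm x := by
  have h2 := v_le_inv v hx h
  have h3 := inv_le_nm hx h1 v
  have h4 : 0 < v x := FinitePlace.pos_iff.2 hx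
  have h5 := inv_anti₀ h4 h2
  rw [inv_inv, N_eq] at h5
  linarith

lemma cop_dvd {a b : ℕ} (h : Nat.Coprime a b) {x : 𝓞 K} (hx : (a : 𝓞 K) ∣ (b : 𝓞 K) * x) :
    (a : 𝓞 K) ∣ x := by
  have h2 : IsCoprime (a : 𝓞 K) (b : 𝓞 K) := by
    have := (Nat.isCoprime_iff_coprime.2 h).map (Int.castRingHom (𝓞 K))
    simpa using this
  exact h2.dvd_of_dvd_mul_left hx

/-- union bound -/
lemma ub {α ι : Type*} [DecidableEq α] (s : Finset ι) (A : ι → Finset α) (δ N : ℝ)
    (h : ∀ i ∈ s, ((A i).card : ℝ) ≤ δ * N) : ((s.biUnion A).card : ℝ) ≤ s.card * δ * N := by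
  have h1 : ((s.biUnion A).card : ℝ) ≤ ∑ i ∈ s, ((A i).card : ℝ) := by
    exact_mod_cast Finset.card_biUnion_le
  refine h1.trans ((Finset.sum_le_sum h).trans ?_)
  rw [Finset.sum_const, nsmul_eq_mul, mul_assoc]

namespace Dat

variable {n r : ℕ} (D : Dat K n r)

lemma fibD (j : Fin r) (f f' : Fin (n + 1) → Ix K → ℤ) (hy : D.y f j = D.y f' j)
    (h : ∀ c, c ≠ 0 → c ≠ D.i0.succ → f c = f' c) :
    (∀ i, (D.Q' j : ℤ) ∣ f D.i0.succ i - f' D.i0.succ i) ∧
      (f D.i0.succ = f' D.i0.succ → f 0 = f' 0) := by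
  constructor
  · intro i
    have hQ : (D.Q' j : ℤ) = ∏ i ∈ Finset.univ.erase j, ((D.p i : ℤ) ^ D.k i) := by
      unfold Q'
      push_cast
      rfl
    rw [hQ]
    refine Finset.prod_dvd_of_coprime ?_ ?_
    · intro a _ b _ hab
      apply IsCoprime.pow
      exact Nat.isCoprime_iff_coprime.2
        ((Nat.coprime_primes (D.hp a) (D.hp b)).2 fun h => hab (D.hpi h))
    · intro j' hj'
      have hjj : j ≠ j' := (Finset.ne_of_mem_erase hj').symm
      have h1 : ∀ f, D.x0 f - D.t f j' = (D.p j : 𝓞 K) ^ D.k j * D.y f j + D.g j j' f := by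
        intro f
        have := D.x0_sub f j
        unfold g
        linear_combination this
      have h2 : ((D.p j' : 𝓞 K) ^ D.k j') ∣ D.g j j' f - D.g j j' f' := by
        have h3 : D.g j j' f - D.g j j' f' = (D.x0 f - D.t f j') - (D.x0 f' - D.t f' j') := by
          rw [h1, h1, hy]
          ring
        rw [h3, D.x0_sub, D.x0_sub]
        exact dvd_sub (Dvd.intro _ rfl) (Dvd.intro _ rfl)
      rw [D.g_diff j j' f f' (fun i hi => h _ (Fin.succ_ne_zero i)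
        fun hc => hi (Fin.succ_injective _ hc)), ← el_sub] at h2
      obtain ⟨c, hc⟩ := D.hγ j j' hjj
      have h4 : ((D.p j' ^ D.k j' : ℕ) : 𝓞 K) ∣ ((D.G0 * D.b D.i0 ^ D.s D.i0 : ℕ) : 𝓞 K) *
          el (f D.i0.succ - f' D.i0.succ) := by
        push_cast
        have h5 := h2.mul_left c
        have e : c * ((D.γ j D.i0 - D.γ j' D.i0) * ((D.b D.i0 : 𝓞 K) ^ D.s D.i0 *
            el (f D.i0.succ - f' D.i0.succ))) = (D.G0 : 𝓞 K) * (D.b D.i0 : 𝓞 K) ^ D.s D.i0 *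
            el (f D.i0.succ - f' D.i0.succ) := by
          rw [hc]
          ring
        rwa [e] at h5
      have h6 : Nat.Coprime (D.p j' ^ D.k j') (D.G0 * D.b D.i0 ^ D.s D.i0) := by
        apply Nat.Coprime.pow_left
        apply Nat.Coprime.mul_right
        · exact (Nat.Prime.coprime_iff_not_dvd (D.hp j')).2 (D.hpG j')
        · apply Nat.Coprime.pow_right
          exact (Nat.coprime_primes (D.hp j') (D.hb _)).2 (D.hpb j' _)
      have h7 := cop_dvd h6 h4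
      have h8 : (((D.p j' ^ D.k j' : ℕ) : ℤ) : 𝓞 K) ∣ el (f D.i0.succ - f' D.i0.succ) := by
        rwa [Int.cast_natCast]
      have h9 := el_dvd (by
        have := pow_pos (D.hp j').pos (D.k j')
        exact_mod_cast this.ne') h8 i
      push_cast at h9
      exact h9
  · intro h1
    have h2 : D.t f = D.t f' := by
      funext j
      unfold t z w
      refine Finset.sum_congr rfl fun i _ => ?_
      have : f i.succ = f' i.succ := by
        by_cases hi : i = D.i0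
        · rw [hi, h1]
        · exact h _ (Fin.succ_ne_zero i) fun hc => hi (Fin.succ_injective _ hc)
      rw [this]
    unfold y at hy
    rw [h2] at hy
    have h3 : (D.Q' j : 𝓞 K) * (el (f 0) - el (f' 0)) = 0 := by linear_combination hy
    rcases mul_eq_zero.1 h3 with h4 | h4
    · exact absurd h4 (by exact_mod_cast (D.Q'_pos j).ne')
    · exact el_inj (sub_eq_zero.1 h4)

lemma g_unit {j j' : Fin r} (h : j ≠ j') (v : FinitePlace K) (hv : v (D.G0 : K) = 1) :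
    v ((D.γ j D.i0 - D.γ j' D.i0 : 𝓞 K) : K) = 1 := by
  obtain ⟨c, hc⟩ := D.hγ j j' h
  have h1 : (D.G0 : K) = ((D.γ j D.i0 - D.γ j' D.i0 : 𝓞 K) : K) * (c : K) := by
    have := congrArg (fun t : 𝓞 K => (t : K)) hc
    simpa using this
  rw [h1, map_mul] at hv
  refine le_antisymm (int_le_one v _) ?_
  by_contra hcon
  push Not at hcon
  have h2 := int_le_one v c
  have h3 : v ((D.γ j D.i0 - D.γ j' D.i0 : 𝓞 K) : K) * v (c : K) < 1 :=
    lt_of_le_of_lt (mul_le_of_le_one_right (by positivity) h2) hcon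
  linarith

theorem good (V : ℝ) (hV0 : 1 ≤ V)
    (hV : ∀ (n : Ix K → ℤ) (R : ℝ), (∀ w : InfinitePlace K, w (el n : K) ≤ R) →
      ∀ i, |(n i : ℝ)| ≤ V * R)
    (F : MvPolynomial (Fin (n + 1)) K) (Dg : ℝ)
    (hDg : ∀ (Y : Fin (n + 1) → ℕ), (∀ c, 1 ≤ Y c) →
      ∀ (ζ : Fin n → (Ix K → ℤ) → K), (∀ i, Injective (ζ i)) →
      ∀ x0 : (Fin (n + 1) → Ix K → ℤ) → K, (∀ f, Injective fun a => x0 (update f 0 a)) →
      ∀ A : Finset (Fin (n + 1) → Ix K → ℤ), A ⊆ Om K Y →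
      (∀ f ∈ A, MvPolynomial.eval (Fin.cons (x0 f) (fun i => ζ i (f i.succ)) :
        Fin (n + 1) → K) F = 0) →
      (A.card : ℝ) ≤ Dg * (∑ c, 1 / (Y c : ℝ) ^ Module.finrank ℚ K) * (Om K Y).card)
    (E : Finset (FinitePlace K)) (T : ℕ) (hT : 1 ≤ T) (hET : ∀ v : FinitePlace K, Nn v ≤ T → v ∈ E)
    (hEp : ∀ j, ∀ v ∉ E, v (D.p j : K) = 1) (hEb : ∀ i, ∀ v ∉ E, v (D.b i : K) = 1)
    (hEG : ∀ v ∉ E, v (D.G0 : K) = 1) (κ : ℝ) (hκ0 : 0 < κ)
    (hκp : ∀ v ∈ E, ∀ j, v (D.p j : K) < 1 → v (D.p j : K) ^ D.k j < κ)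
    (hM1 : D.W + 1 ≤ D.M1) {B A0 C1 : ℝ}
    (hB : ∀ i, (D.b i : ℝ) ^ D.s i * D.Y i.succ ≤ B)
    (hB' : ∀ i, B / 2 ≤ (D.b i : ℝ) ^ D.s i * D.Y i.succ)
    (hA0 : ∀ (w : InfinitePlace K) (j : Fin r), ∑ i, w (D.γ j i : K) ≤ A0) (hA00 : 0 ≤ A0)
    (hQ : (D.Qd : ℝ) * D.Y 0 ≤ B) (hQ' : B / 2 ≤ (D.Qd : ℝ) * D.Y 0)
    (hM2 : 2 * D.W + 2 * (A0 * (D.M1 + D.W) + 1) ≤ D.M2)
    (hC1 : C1 = D.M2 + 2 * D.W + A0 * (D.M1 + D.W))
    (hR1 : ∀ j, 1 ≤ C1 * (B / (D.p j : ℝ) ^ D.k j))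
    (Z1 Z5 : Fin n → ℕ) (Za : Fin r → ℕ) (Z6 : ℕ) (G δ1 δ2 : ℝ) (hG1 : 1 ≤ G) (hZ6 : 1 ≤ Z6)
    (hZa : ∀ j, 1 ≤ Za j)
    (hZ1 : ∀ i, ((D.M1 + D.W) * (D.Y i.succ : ℝ)) ^ Module.finrank ℚ K ≤ (Z1 i : ℝ) ^ 2)
    (hZ5 : ∀ i, ((D.M1 + D.W) * (D.Y i.succ : ℝ)) ^ Module.finrank ℚ K ≤ (Z5 i : ℝ))
    (hG : (2 * (A0 * ((D.M1 + D.W) * B))) ^ Module.finrank ℚ K ≤ G)
    (h1 : ∀ i, (4 * D.W) ^ Module.finrank ℚ K * (Module.finrank ℚ K *
      (Z1 i / (D.Y i.succ : ℝ) ^ Module.finrank ℚ K + 1 / T)) ≤ δ1)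
    (h2 : ∀ c, (4 * D.W) ^ Module.finrank ℚ K *
      (1 / (D.Y c : ℝ) ^ Module.finrank ℚ K + κ) ≤ δ2)
    (h3 : ∀ j, (4 * D.W) ^ Module.finrank ℚ K * (Module.finrank ℚ K *
      (Za j / (D.Y 0 : ℝ) ^ Module.finrank ℚ K + 1 / T)) ≤ δ1)
    (h4 : ∀ j, ((D.Y D.i0.succ : ℝ) / D.Q' j + 1) ^ Module.finrank ℚ K *
        (2 * (4 * D.W) ^ Module.finrank ℚ K * (5 * V) ^ Module.finrank ℚ K *
          Module.finrank ℚ K * ((C1 * (B / (D.p j : ℝ) ^ D.k j)) ^ Module.finrank ℚ K / Za j)) ≤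
        δ1 * ((D.Y 0 : ℝ) ^ Module.finrank ℚ K * (D.Y D.i0.succ : ℝ) ^ Module.finrank ℚ K))
    (h5 : ∀ i c, c ≠ i.succ → ((4 * D.W) ^ Module.finrank ℚ K) ^ 2 * (Module.finrank ℚ K *
      (Z5 i / ((D.Y i.succ : ℝ) ^ Module.finrank ℚ K * (D.Y c : ℝ) ^ Module.finrank ℚ K) +
        (1 / (D.Y i.succ : ℝ) ^ Module.finrank ℚ K + 1 / (D.Y c : ℝ) ^ Module.finrank ℚ K) *
          (1 + Real.log (Z5 i)) + 1 / T)) ≤ δ1)
    (h6 : ((4 * D.W) ^ Module.finrank ℚ K) ^ 2 * (Module.finrank ℚ K *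
      (Z6 / ((D.Y D.i0.succ : ℝ) ^ Module.finrank ℚ K * (D.Y 0 : ℝ) ^ Module.finrank ℚ K) +
        (1 / (D.Y D.i0.succ : ℝ) ^ Module.finrank ℚ K + 1 / (D.Y 0 : ℝ) ^ Module.finrank ℚ K) *
          (1 + Real.log Z6) + 1 / T)) ≤ δ1)
    (h7 : (4 * D.W) ^ Module.finrank ℚ K * (Real.log G / Real.log 2 *
      (1 / (D.Y 0 : ℝ) ^ Module.finrank ℚ K + 1 / Z6)) ≤ δ1)
    (h8 : 1 / (D.Y D.i0.succ : ℝ) ^ Module.finrank ℚ K ≤ δ1)
    (h9 : Dg * (∑ c, 1 / (D.Y c : ℝ) ^ Module.finrank ℚ K) ≤ δ1)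
    (hnum : (n + 2 * r + n * n + n * r + 3 * (r * r) + 1) * δ1 + (n + r) * E.card * δ2 < 1) :
    ∃ f ∈ Om K D.Y, (∀ i, (∀ v ∉ E, (N v)⁻¹ ≤ v (D.w f i : K)) ∧ ∀ v ∈ E, κ ≤ v (D.w f i : K)) ∧
      (∀ j, (∀ v ∉ E, (N v)⁻¹ ≤ v (D.y f j : K)) ∧ ∀ v ∈ E, κ ≤ v (D.y f j : K)) ∧
      (∀ i i', i ≠ i' → ∀ v ∉ E, ¬ (v (D.w f i : K) < 1 ∧ v (D.w f i' : K) < 1)) ∧
      (∀ i j, ∀ v ∉ E, ¬ (v (D.w f i : K) < 1 ∧ v (D.y f j : K) < 1)) ∧
      (∀ j j', j ≠ j' → ∀ v ∉ E, ¬ (v (D.y f j : K) < 1 ∧ v (D.y f j' : K) < 1)) ∧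
      MvPolynomial.eval (Fin.cons (D.x0 f : K) (fun i => (D.z f i : K)) : Fin (n + 1) → K) F ≠ 0 := by
  classical
  obtain ⟨O, hO⟩ : ∃ O : ℝ, O = ((Om K D.Y).card : ℝ) := ⟨_, rfl⟩
  have hOp : 0 < O := by
    rw [hO, card_Om]
    have : 0 < ∏ c, D.Y c ^ Module.finrank ℚ K :=
      Finset.prod_pos fun c _ => pow_pos (D.hY c) _
    exact_mod_cast this
  have hws := D.w_size hM1
  have hys := D.y_size hM1 hB hB' hA0 hA00 hQ hQ' hM2
  rw [← hC1] at hys
  obtain ⟨w0⟩ : Nonempty (InfinitePlace K) := inferInstance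
  have hwne : ∀ f ∈ Om K D.Y, ∀ i, (D.w f i : K) ≠ 0 := by
    intro f hf i h
    have h1 := (hws f hf i w0).1
    rw [h, map_zero] at h1
    have : (1 : ℝ) ≤ D.Y i.succ := by exact_mod_cast D.hY i.succ
    linarith
  have hpp : ∀ j, (0 : ℝ) < (D.p j : ℝ) ^ D.k j := by
    intro j
    have : (0 : ℝ) < D.p j := by exact_mod_cast (D.hp j).pos
    positivity
  have hBp : 0 < B := by
    have h1 : (1 : ℝ) ≤ D.Qd := by exact_mod_cast D.Qd_pos
    have h2 : (1 : ℝ) ≤ D.Y 0 := by exact_mod_cast D.hY 0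
    have h3 : (1 : ℝ) ≤ (D.Qd : ℝ) * D.Y 0 := one_le_mul_of_one_le_of_one_le h1 h2
    linarith
  have hyne : ∀ f ∈ Om K D.Y, ∀ j, (D.y f j : K) ≠ 0 := by
    intro f hf j h
    have h1 := (hys f hf w0 j).1
    rw [h, map_zero] at h1
    have : 0 < B / (D.p j : ℝ) ^ D.k j := div_pos hBp (hpp j)
    linarith
  have hnw : ∀ f ∈ Om K D.Y, ∀ i,
      nm (D.w f i : K) ≤ ((D.M1 + D.W) * (D.Y i.succ : ℝ)) ^ Module.finrank ℚ K := fun f hf i =>
    nm_le fun w => (hws f hf i w).2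
  have hEQ : ∀ j, ∀ v ∉ E, v (D.Q' j : K) = 1 := by
    intro j v hv
    unfold Q'
    push_cast
    rw [map_prod]
    refine Finset.prod_eq_one fun i _ => ?_
    rw [map_pow, hEp i v hv, one_pow]
  have hgq : ∀ j j', j ≠ j' → ∀ v : FinitePlace K, v (D.G0 : K) = 1 → v (D.b D.i0 : K) = 1 →
      v (((D.γ j D.i0 - D.γ j' D.i0 : 𝓞 K) : K) * (D.b D.i0 : K) ^ D.s D.i0) = 1 := by
    intro j j' hjj v hv1 hv2
    rw [map_mul, D.g_unit hjj v hv1, map_pow, hv2, one_pow, mul_one]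
  have hupd : ∀ f ∈ Om K D.Y, ∀ c, ∀ a ∈ cube K (D.Y c), update f c a ∈ Om K D.Y :=
    fun f hf c a ha => upd_mem hf ha
  -- the bad sets
  obtain ⟨S1, hS1⟩ : ∃ S1 : Fin n → Finset (Fin (n + 1) → Ix K → ℤ), S1 = fun i =>
      (Om K D.Y).filter fun f => ∃ v ∉ E, v (D.w f i : K) < (N v)⁻¹ := ⟨_, rfl⟩
  obtain ⟨S2, hS2⟩ : ∃ S2 : Fin n × FinitePlace K → Finset (Fin (n + 1) → Ix K → ℤ), S2 = fun a =>
      (Om K D.Y).filter fun f => a.2 (D.w f a.1 : K) < κ := ⟨_, rfl⟩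
  obtain ⟨S3, hS3⟩ : ∃ S3 : Fin r → Finset (Fin (n + 1) → Ix K → ℤ), S3 = fun j =>
      (Om K D.Y).filter fun f => ∃ v ∉ E, Nn v ≤ Za j ∧ v (D.y f j : K) < (N v)⁻¹ := ⟨_, rfl⟩
  obtain ⟨S4, hS4⟩ : ∃ S4 : Fin r → Finset (Fin (n + 1) → Ix K → ℤ), S4 = fun j =>
      (Om K D.Y).filter fun f => ∃ v : FinitePlace K, Za j < Nn v ∧
        v (D.y f j : K) < (N v)⁻¹ := ⟨_, rfl⟩
  obtain ⟨S5, hS5⟩ : ∃ S5 : Fin r × FinitePlace K → Finset (Fin (n + 1) → Ix K → ℤ), S5 = fun a =>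
      (Om K D.Y).filter fun f => a.2 (D.y f a.1 : K) < κ := ⟨_, rfl⟩
  obtain ⟨S6, hS6⟩ : ∃ S6 : Fin n × Fin n → Finset (Fin (n + 1) → Ix K → ℤ), S6 = fun a =>
      (Om K D.Y).filter fun f => a.1 ≠ a.2 ∧ ∃ v ∉ E, v (D.w f a.1 : K) < 1 ∧
        v (D.w f a.2 : K) < 1 := ⟨_, rfl⟩
  obtain ⟨S7, hS7⟩ : ∃ S7 : Fin n × Fin r → Finset (Fin (n + 1) → Ix K → ℤ), S7 = fun a =>
      (Om K D.Y).filter fun f => ∃ v ∉ E, v (D.w f a.1 : K) < 1 ∧
        v (D.y f a.2 : K) < 1 := ⟨_, rfl⟩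
  obtain ⟨S8, hS8⟩ : ∃ S8 : Fin r × Fin r → Finset (Fin (n + 1) → Ix K → ℤ), S8 = fun a =>
      (Om K D.Y).filter fun f => a.1 ≠ a.2 ∧ ∃ v ∉ E, Nn v ≤ Z6 ∧
        v (D.g a.1 a.2 f : K) < 1 ∧ v (D.y f a.1 : K) < 1 := ⟨_, rfl⟩
  obtain ⟨S9, hS9⟩ : ∃ S9 : Fin r × Fin r → Finset (Fin (n + 1) → Ix K → ℤ), S9 = fun a =>
      (Om K D.Y).filter fun f => a.1 ≠ a.2 ∧ D.g a.1 a.2 f ≠ 0 ∧ ∃ v ∉ E, Z6 < Nn v ∧
        v (D.g a.1 a.2 f : K) < 1 ∧ v (D.y f a.1 : K) < 1 := ⟨_, rfl⟩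
  obtain ⟨S10, hS10⟩ : ∃ S10 : Fin r × Fin r → Finset (Fin (n + 1) → Ix K → ℤ), S10 = fun a =>
      (Om K D.Y).filter fun f => a.1 ≠ a.2 ∧ D.g a.1 a.2 f = 0 := ⟨_, rfl⟩
  obtain ⟨S11, hS11⟩ : ∃ S11 : Finset (Fin (n + 1) → Ix K → ℤ), S11 =
      (Om K D.Y).filter fun f => MvPolynomial.eval (Fin.cons (D.x0 f : K)
        (fun i => (D.z f i : K)) : Fin (n + 1) → K) F = 0 := ⟨_, rfl⟩
  have c1 : ∀ i, ((S1 i).card : ℝ) ≤ δ1 * O := by
    intro i
    have := sq_dens D.hW0 D.hW D.Y i.succ (D.hY _) E T (Z1 i) hT hET (fun f => (D.w f i : K)) 1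
      (fun v _ => map_one v) (fun f _ a a' => D.w_lin f a a' i) (S1 i)
      (by rw [hS1]; exact Finset.filter_subset _ _) (by
        intro f hf
        rw [hS1] at hf
        obtain ⟨hfO, v, hv1, hv2⟩ := Finset.mem_filter.1 hf
        refine ⟨hwne f hfO i, v, hv1, ?_, hv2⟩
        have g1 := v_sq v (hwne f hfO i) hv2
        have g2 := inv_le_nm (hwne f hfO i) (fun v => int_le_one v _) v
        have g3 := (hnw f hfO i).trans (hZ1 i)
        have g4 : 0 < v (D.w f i : K) := FinitePlace.pos_iff.2 (hwne f hfO i)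
        have g5 : N v ^ 2 ≤ (v (D.w f i : K))⁻¹ := by
          rw [inv_eq_one_div, le_div_iff₀ g4]
          exact g1
        have g6 : N v ^ 2 ≤ (Z1 i : ℝ) ^ 2 := by linarith
        have g7 := one_lt_N v
        have g8 : N v ≤ (Z1 i : ℝ) := (sq_le_sq₀ (by linarith) (Nat.cast_nonneg _)).1 g6
        rw [N_eq] at g8
        exact_mod_cast g8)
    rw [← hO] at this
    exact this.trans (mul_le_mul_of_nonneg_right (h1 i) hOp.le)
  have c2 : ∀ a : Fin n × FinitePlace K, ((S2 a).card : ℝ) ≤ δ2 * O := by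
    rintro ⟨i, v⟩
    have := lin_dens D.hW0 D.hW D.Y (Om K D.Y) i.succ subset_rfl (fun f hf a ha => hupd f hf _ a ha)
      (D.hY _) v (fun f => (D.w f i : K)) 1 (map_one v) (fun f _ a a' => D.w_lin f a a' i) hκ0
      (S2 (i, v)) (by rw [hS2]; exact Finset.filter_subset _ _) (by
        intro f hf
        rw [hS2] at hf
        exact (Finset.mem_filter.1 hf).2.le)
    rw [← hO] at this
    exact this.trans (mul_le_mul_of_nonneg_right (h2 _) hOp.le)
  have c3 : ∀ j, ((S3 j).card : ℝ) ≤ δ1 * O := by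
    intro j
    have := sq_dens D.hW0 D.hW D.Y 0 (D.hY _) E T (Za j) hT hET (fun f => (D.y f j : K)) (D.Q' j)
      (fun v hv => hEQ j v hv) (fun f _ a a' => D.y_lin f a a' j) (S3 j)
      (by rw [hS3]; exact Finset.filter_subset _ _) (by
        intro f hf
        rw [hS3] at hf
        obtain ⟨hfO, v, hv1, hv2, hv3⟩ := Finset.mem_filter.1 hf
        exact ⟨hyne f hfO j, v, hv1, hv2, hv3⟩)
    rw [← hO] at this
    exact this.trans (mul_le_mul_of_nonneg_right (h3 j) hOp.le)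
  have c4 : ∀ j, ((S4 j).card : ℝ) ≤ δ1 * O := by
    intro j
    have := far_sq D.hW0 D.hW hV0 hV D.Y 0 D.i0.succ (Fin.succ_ne_zero _).symm (Za j) (D.Q' j)
      (hZa j) (D.Q'_pos j) (fun f => D.y f j) (hR1 j) (fun f hf w => (hys f hf w j).2)
      (fun f _ f' _ hy hc => D.fibD j f f' hy hc) (S4 j)
      (by rw [hS4]; exact Finset.filter_subset _ _) (by
        intro f hf
        rw [hS4] at hf
        obtain ⟨hfO, v, hv1, hv2⟩ := Finset.mem_filter.1 hf
        refine ⟨?_, v, hv1, hv2⟩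
        intro h
        exact hyne f hfO j (by exact_mod_cast h))
    rw [← hO] at this
    have hD0 : (0 : ℝ) < (D.Y 0 : ℝ) ^ Module.finrank ℚ K *
        (D.Y D.i0.succ : ℝ) ^ Module.finrank ℚ K := by
      have k1 : (0 : ℝ) < D.Y 0 := by exact_mod_cast D.hY 0
      have k2 : (0 : ℝ) < D.Y D.i0.succ := by exact_mod_cast D.hY _
      positivity
    have h6 := this.trans (mul_le_mul_of_nonneg_right (h4 j) hOp.le)
    refine le_of_mul_le_mul_right ?_ hD0
    linarith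
  have c5 : ∀ a : Fin r × FinitePlace K, a.2 ∈ E → ((S5 a).card : ℝ) ≤ δ2 * O := by
    rintro ⟨j, v⟩ hvE
    simp only at hvE
    by_cases hex : ∃ j', j' ≠ j ∧ v (D.p j' : K) < 1
    · obtain ⟨j', hjj, hj'⟩ := hex
      have hvG : v (D.G0 : K) = 1 := by
        refine le_antisymm (v_nat_le v _) (not_lt.1 fun hc => ?_)
        exact coprime_places v ((Nat.Prime.coprime_iff_not_dvd (D.hp j')).2 (D.hpG j')) ⟨hj', hc⟩
      have hvb : v (D.b D.i0 : K) = 1 := by
        refine le_antisymm (v_nat_le v _) (not_lt.1 fun hc => ?_)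
        exact coprime_places v ((Nat.coprime_primes (D.hp j') (D.hb _)).2 (D.hpb j' _)) ⟨hj', hc⟩
      have := lin_dens D.hW0 D.hW D.Y (Om K D.Y) D.i0.succ subset_rfl
        (fun f hf a ha => hupd f hf _ a ha) (D.hY _) v (fun f => (D.g j j' f : K)) _
        (hgq j j' (Ne.symm hjj) v hvG hvb) (fun f _ a a' => D.g_lin j j' f a a') hκ0
        (S5 (j, v)) (by rw [hS5]; exact Finset.filter_subset _ _) (by
          intro f hf
          rw [hS5] at hf
          have k1 := (Finset.mem_filter.1 hf).2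
          simp only at k1
          have k2 : (D.g j j' f : K) = (D.p j' : K) ^ D.k j' * (D.y f j' : K) -
              (D.p j : K) ^ D.k j * (D.y f j : K) := by
            rw [← D.x0_subK, ← D.x0_subK]
            unfold g
            push_cast
            ring
          have k3 := fsub v ((D.p j' : K) ^ D.k j' * (D.y f j' : K))
            ((D.p j : K) ^ D.k j * (D.y f j : K))
          rw [← k2] at k3
          refine k3.trans (max_le ?_ ?_)
          · rw [map_mul, map_pow]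
            exact (mul_le_of_le_one_right (by positivity) (int_le_one v _)).trans
              (hκp v hvE j' hj').le
          · rw [map_mul, map_pow]
            have k4 : v (D.p j : K) ^ D.k j ≤ 1 := pow_le_one₀ (by positivity) (v_nat_le v _)
            exact (mul_le_of_le_one_left (by positivity) k4).trans k1.le)
      rw [← hO] at this
      exact this.trans (mul_le_mul_of_nonneg_right (h2 _) hOp.le)
    · push Not at hex
      have hvQ : v (D.Q' j : K) = 1 := by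
        unfold Q'
        push_cast
        rw [map_prod]
        refine Finset.prod_eq_one fun i hi => ?_
        rw [map_pow, le_antisymm (v_nat_le v _) (hex i (Finset.ne_of_mem_erase hi)), one_pow]
      have := lin_dens D.hW0 D.hW D.Y (Om K D.Y) 0 subset_rfl
        (fun f hf a ha => hupd f hf _ a ha) (D.hY _) v (fun f => (D.y f j : K)) _
        hvQ (fun f _ a a' => D.y_lin f a a' j) hκ0
        (S5 (j, v)) (by rw [hS5]; exact Finset.filter_subset _ _) (by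
          intro f hf
          rw [hS5] at hf
          exact (Finset.mem_filter.1 hf).2.le)
      rw [← hO] at this
      exact this.trans (mul_le_mul_of_nonneg_right (h2 _) hOp.le)
  have hδ1 : 0 ≤ δ1 := le_trans (by positivity) h8
  have hδO : 0 ≤ δ1 * O := by positivity
  have hrange : ∀ f ∈ Om K D.Y, ∀ i, ∀ v : FinitePlace K, v (D.w f i : K) < 1 → Nn v ≤ Z5 i := by
    intro f hf i v hv
    have k1 := Nn_le_nm (hwne f hf i) (fun v => int_le_one v _) v hv
    have k2 := (hnw f hf i).trans (hZ5 i)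
    exact_mod_cast k1.trans k2
  have c6 : ∀ a : Fin n × Fin n, ((S6 a).card : ℝ) ≤ δ1 * O := by
    rintro ⟨i, i'⟩
    by_cases hii : i = i'
    · have : S6 (i, i') = ∅ := by
        rw [hS6]
        exact Finset.filter_false_of_mem fun f _ h => h.1 hii
      rw [this]
      simpa using hδO
    have hs : i'.succ ≠ i.succ := fun h => hii (Fin.succ_injective _ h).symm
    have := pair_dens D.hW0 D.hW D.Y i.succ i'.succ (D.hY _) (D.hY _) E T (Z5 i) hT hET
      (fun f => (D.w f i : K)) (fun f => (D.w f i' : K)) 1 1 (fun v _ => map_one v)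
      (fun v _ => map_one v) (fun f _ a a' => D.w_lin f a a' i)
      (fun f _ a => by rw [D.w_upd_ne f _ a i hs.symm]) (fun f _ a a' => D.w_lin f a a' i')
      (S6 (i, i')) (by rw [hS6]; exact Finset.filter_subset _ _) (by
        intro f hf
        rw [hS6] at hf
        obtain ⟨hfO, -, v, hv1, hv2, hv3⟩ := Finset.mem_filter.1 hf
        exact ⟨v, hv1, hrange f hfO i v hv2, hv2, hv3⟩)
    rw [← hO] at this
    exact this.trans (mul_le_mul_of_nonneg_right (h5 i _ hs) hOp.le)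
  have c7 : ∀ a : Fin n × Fin r, ((S7 a).card : ℝ) ≤ δ1 * O := by
    rintro ⟨i, j⟩
    have := pair_dens D.hW0 D.hW D.Y i.succ 0 (D.hY _) (D.hY _) E T (Z5 i) hT hET
      (fun f => (D.w f i : K)) (fun f => (D.y f j : K)) 1 (D.Q' j) (fun v _ => map_one v)
      (fun v hv => hEQ j v hv) (fun f _ a a' => D.w_lin f a a' i)
      (fun f _ a => by rw [D.w_upd_ne f _ a i (Fin.succ_ne_zero i)])
      (fun f _ a a' => D.y_lin f a a' j)
      (S7 (i, j)) (by rw [hS7]; exact Finset.filter_subset _ _) (by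
        intro f hf
        rw [hS7] at hf
        obtain ⟨hfO, v, hv1, hv2, hv3⟩ := Finset.mem_filter.1 hf
        exact ⟨v, hv1, hrange f hfO i v hv2, hv2, hv3⟩)
    rw [← hO] at this
    exact this.trans (mul_le_mul_of_nonneg_right (h5 i _ (Fin.succ_ne_zero i).symm) hOp.le)
  have c8 : ∀ a : Fin r × Fin r, ((S8 a).card : ℝ) ≤ δ1 * O := by
    rintro ⟨j, j'⟩
    by_cases hjj : j = j'
    · have : S8 (j, j') = ∅ := by
        rw [hS8]
        exact Finset.filter_false_of_mem fun f _ h => h.1 hjj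
      rw [this]
      simpa using hδO
    have := pair_dens D.hW0 D.hW D.Y D.i0.succ 0 (D.hY _) (D.hY _) E T Z6 hT hET
      (fun f => (D.g j j' f : K)) (fun f => (D.y f j : K)) _ (D.Q' j)
      (fun v hv => hgq j j' hjj v (hEG v hv) (hEb _ v hv))
      (fun v hv => hEQ j v hv) (fun f _ a a' => D.g_lin j j' f a a')
      (fun f _ a => by rw [D.g_zero]) (fun f _ a a' => D.y_lin f a a' j)
      (S8 (j, j')) (by rw [hS8]; exact Finset.filter_subset _ _) (by
        intro f hf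
        rw [hS8] at hf
        exact (Finset.mem_filter.1 hf).2.2)
    rw [← hO] at this
    exact this.trans (mul_le_mul_of_nonneg_right h6 hOp.le)
  have hgn : ∀ j j', ∀ f ∈ Om K D.Y, nm (D.g j j' f : K) ≤ G := by
    intro j j' f hf
    refine le_trans (nm_le fun w => ?_) hG
    have k1 := D.t_size hM1 hB hB' hA0 f hf j w
    have k2 := D.t_size hM1 hB hB' hA0 f hf j' w
    have e : (D.g j j' f : K) = (D.t f j : K) + -(D.t f j' : K) := by
      unfold g
      push_cast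
      ring
    rw [e]
    have k3 := wadd w (D.t f j : K) (-(D.t f j' : K))
    rw [wneg] at k3
    linarith
  have c9 : ∀ a : Fin r × Fin r, ((S9 a).card : ℝ) ≤ δ1 * O := by
    rintro ⟨j, j'⟩
    have := far_pair D.hW0 D.hW D.Y 0 (D.hY _) E Z6 hZ6 (D.g j j')
      (fun f => (D.y f j : K)) (D.Q' j) (fun v hv => hEQ j v hv) hG1
      (fun f _ a => by rw [D.g_zero]) (hgn j j') (fun f _ a a' => D.y_lin f a a' j)
      (S9 (j, j')) (by rw [hS9]; exact Finset.filter_subset _ _) (by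
        intro f hf
        rw [hS9] at hf
        exact (Finset.mem_filter.1 hf).2.2)
    rw [← hO] at this
    exact this.trans (mul_le_mul_of_nonneg_right h7 hOp.le)
  have c10 : ∀ a : Fin r × Fin r, ((S10 a).card : ℝ) ≤ δ1 * O := by
    rintro ⟨j, j'⟩
    by_cases hjj : j = j'
    · have : S10 (j, j') = ∅ := by
        rw [hS10]
        exact Finset.filter_false_of_mem fun f _ h => h.1 hjj
      rw [this]
      simpa using hδO
    have hγ0 : ((D.γ j D.i0 - D.γ j' D.i0 : 𝓞 K) : K) ≠ 0 := by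
      intro h
      have h0 : D.γ j D.i0 - D.γ j' D.i0 = 0 := by exact_mod_cast h
      have h1 := D.hγ j j' hjj
      rw [h0, zero_dvd_iff] at h1
      exact D.hG0.ne' (by exact_mod_cast h1)
    have hb0 : (D.b D.i0 : K) ≠ 0 := by exact_mod_cast (D.hb _).ne_zero
    have := zero_dens D.Y D.i0.succ (D.hY _) (fun f => (D.g j j' f : K)) _
      (mul_ne_zero hγ0 (pow_ne_zero _ hb0)) (fun f _ a a' => D.g_lin j j' f a a')
      (S10 (j, j')) (by rw [hS10]; exact Finset.filter_subset _ _) (by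
        intro f hf
        rw [hS10] at hf
        have k := (Finset.mem_filter.1 hf).2.2
        simp only at k ⊢
        rw [k]
        simp)
    rw [← hO] at this
    exact this.trans (mul_le_mul_of_nonneg_right h8 hOp.le)
  have c11 : (S11.card : ℝ) ≤ δ1 * O := by
    have := hDg D.Y D.hY (fun i a => (D.b i : K) ^ D.s i * (((D.M1 * D.Y i.succ : ℕ) : K) + (el a : K)))
      (by
        intro i a a' h
        have hb0 : (D.b i : K) ^ D.s i ≠ 0 := pow_ne_zero _ (by exact_mod_cast (D.hb _).ne_zero)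
        have h1 := mul_left_cancel₀ hb0 h
        apply el_inj
        have h2 := add_left_cancel h1
        exact_mod_cast h2)
      (fun f => (D.x0 f : K)) (by
        intro f a a' h
        have h1 := D.x0_lin f a a'
        simp only at h
        rw [h, sub_self] at h1
        have hQ0 : (D.Qd : K) ≠ 0 := by exact_mod_cast D.Qd_pos.ne'
        rcases mul_eq_zero.1 h1.symm with h2 | h2
        · exact absurd h2 hQ0
        · apply el_inj
          exact_mod_cast sub_eq_zero.1 h2)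
      S11 (by rw [hS11]; exact Finset.filter_subset _ _) (by
        intro f hf
        rw [hS11] at hf
        have h1 := (Finset.mem_filter.1 hf).2
        have e : (fun i => (D.z f i : K)) = fun i => (D.b i : K) ^ D.s i *
            (((D.M1 * D.Y i.succ : ℕ) : K) + (el (f i.succ) : K)) := by
          funext i
          unfold z w
          push_cast
          ring
        rw [e] at h1
        exact h1)
    rw [← hO] at this
    exact this.trans (mul_le_mul_of_nonneg_right h9 hOp.le)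
  -- the union
  obtain ⟨U, hU⟩ : ∃ U : Finset (Fin (n + 1) → Ix K → ℤ), U =
      (((((((((Finset.univ.biUnion S1 ∪ (Finset.univ ×ˢ E).biUnion S2) ∪ Finset.univ.biUnion S3) ∪
      Finset.univ.biUnion S4) ∪ (Finset.univ ×ˢ E).biUnion S5) ∪ Finset.univ.biUnion S6) ∪
      Finset.univ.biUnion S7) ∪ Finset.univ.biUnion S8) ∪ Finset.univ.biUnion S9) ∪
      Finset.univ.biUnion S10) ∪ S11 := ⟨_, rfl⟩
  have u1 := ub Finset.univ S1 δ1 O fun i _ => c1 i
  have u2 := ub (Finset.univ ×ˢ E) S2 δ2 O fun a _ => c2 a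
  have u3 := ub Finset.univ S3 δ1 O fun i _ => c3 i
  have u4 := ub Finset.univ S4 δ1 O fun i _ => c4 i
  have u5 := ub (Finset.univ ×ˢ E) S5 δ2 O fun a ha => c5 a (Finset.mem_product.1 ha).2
  have u6 := ub Finset.univ S6 δ1 O fun i _ => c6 i
  have u7 := ub Finset.univ S7 δ1 O fun i _ => c7 i
  have u8 := ub Finset.univ S8 δ1 O fun i _ => c8 i
  have u9 := ub Finset.univ S9 δ1 O fun i _ => c9 i
  have u10 := ub Finset.univ S10 δ1 O fun i _ => c10 i
  simp only [Finset.card_univ, Fintype.card_fin, Fintype.card_prod, Finset.card_product,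
    Nat.cast_mul] at u1 u2 u3 u4 u5 u6 u7 u8 u9 u10
  have hUc : (U.card : ℝ) < (Om K D.Y).card := by
    rw [← hO, hU]
    have e1 : ∀ A B : Finset (Fin (n + 1) → Ix K → ℤ), ((A ∪ B).card : ℝ) ≤ A.card + B.card := by
      intro A B
      exact_mod_cast Finset.card_union_le A B
    refine lt_of_le_of_lt (e1 _ _) ?_
    refine lt_of_le_of_lt (add_le_add_left (e1 _ _) _) ?_
    refine lt_of_le_of_lt (add_le_add_left (add_le_add_left (e1 _ _) _) _) ?_
    refine lt_of_le_of_lt (add_le_add_left (add_le_add_left (add_le_add_left (e1 _ _) _) _) _) ?_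
    refine lt_of_le_of_lt (add_le_add_left (add_le_add_left (add_le_add_left
      (add_le_add_left (e1 _ _) _) _) _) _) ?_
    refine lt_of_le_of_lt (add_le_add_left (add_le_add_left (add_le_add_left
      (add_le_add_left (add_le_add_left (e1 _ _) _) _) _) _) _) ?_
    refine lt_of_le_of_lt (add_le_add_left (add_le_add_left (add_le_add_left
      (add_le_add_left (add_le_add_left (add_le_add_left (e1 _ _) _) _) _) _) _) _) ?_
    refine lt_of_le_of_lt (add_le_add_left (add_le_add_left (add_le_add_left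
      (add_le_add_left (add_le_add_left (add_le_add_left (add_le_add_left (e1 _ _) _) _) _) _) _)
      _) _) ?_
    refine lt_of_le_of_lt (add_le_add_left (add_le_add_left (add_le_add_left
      (add_le_add_left (add_le_add_left (add_le_add_left (add_le_add_left
      (add_le_add_left (e1 _ _) _) _) _) _) _) _) _) _) ?_
    refine lt_of_le_of_lt (add_le_add_left (add_le_add_left (add_le_add_left
      (add_le_add_left (add_le_add_left (add_le_add_left (add_le_add_left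
      (add_le_add_left (add_le_add_left (e1 _ _) _) _) _) _) _) _) _) _) _) ?_
    have hn := mul_lt_mul_of_pos_right hnum hOp
    rw [one_mul] at hn
    linarith
  obtain ⟨f, hfO, hfU⟩ := Finset.exists_mem_notMem_of_card_lt_card
    (by exact_mod_cast hUc : U.card < (Om K D.Y).card)
  rw [hU] at hfU
  simp only [Finset.mem_union, Finset.mem_biUnion, Finset.mem_univ, true_and,
    Finset.mem_product, not_or, not_exists, not_and] at hfU
  obtain ⟨⟨⟨⟨⟨⟨⟨⟨⟨⟨n1, n2⟩, n3⟩, n4⟩, n5⟩, n6⟩, n7⟩, n8⟩, n9⟩, n10⟩, n11⟩ := hfU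
  have hyE : ∀ j, ∀ v ∉ E, (N v)⁻¹ ≤ v (D.y f j : K) := by
    intro j v hv
    by_contra hc
    push Not at hc
    rcases le_or_gt (Nn v) (Za j) with h | h
    · exact n3 j (by rw [hS3]; exact Finset.mem_filter.2 ⟨hfO, v, hv, h, hc⟩)
    · exact n4 j (by rw [hS4]; exact Finset.mem_filter.2 ⟨hfO, v, h, hc⟩)
  refine ⟨f, hfO, fun i => ⟨fun v hv => ?_, fun v hv => ?_⟩, fun j => ⟨hyE j, fun v hv => ?_⟩,
    fun i i' hii v hv h => ?_, fun i j v hv h => ?_, fun j j' hjj v hv h => ?_, ?_⟩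
  · by_contra hc
    push Not at hc
    exact n1 i (by rw [hS1]; exact Finset.mem_filter.2 ⟨hfO, v, hv, hc⟩)
  · by_contra hc
    push Not at hc
    exact n2 (i, v) hv (by rw [hS2]; exact Finset.mem_filter.2 ⟨hfO, hc⟩)
  · by_contra hc
    push Not at hc
    exact n5 (j, v) hv (by rw [hS5]; exact Finset.mem_filter.2 ⟨hfO, hc⟩)
  · exact n6 (i, i') (by rw [hS6]; exact Finset.mem_filter.2 ⟨hfO, hii, v, hv, h⟩)
  · exact n7 (i, j) (by rw [hS7]; exact Finset.mem_filter.2 ⟨hfO, v, hv, h⟩)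
  · have hg0 : D.g j j' f ≠ 0 := by
      intro h0
      exact n10 (j, j') (by rw [hS10]; exact Finset.mem_filter.2 ⟨hfO, hjj, h0⟩)
    have hvg : v (D.g j j' f : K) < 1 := by
      have k2 : (D.g j j' f : K) = (D.p j' : K) ^ D.k j' * (D.y f j' : K) -
          (D.p j : K) ^ D.k j * (D.y f j : K) := by
        rw [← D.x0_subK, ← D.x0_subK]
        unfold g
        push_cast
        ring
      have k3 := fsub v ((D.p j' : K) ^ D.k j' * (D.y f j' : K))
        ((D.p j : K) ^ D.k j * (D.y f j : K))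
      rw [← k2, map_mul, map_mul, map_pow, map_pow, hEp j v hv, hEp j' v hv, one_pow, one_pow,
        one_mul, one_mul] at k3
      exact lt_of_le_of_lt k3 (max_lt h.2 h.1)
    rcases le_or_gt (Nn v) Z6 with h' | h'
    · exact n8 (j, j') (by rw [hS8]; exact Finset.mem_filter.2 ⟨hfO, hjj, v, hv, h', hvg, h.1⟩)
    · exact n9 (j, j') (by rw [hS9]; exact Finset.mem_filter.2 ⟨hfO, hjj, hg0, v, hv, h', hvg, h.1⟩)
  · intro h
    exact n11 (by rw [hS11]; exact Finset.mem_filter.2 ⟨hfO, h⟩)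

end Dat

end Pool.Agent.Q272.GL
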