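import Pool.Agent.Q272.GL.E

/-! # The points and their heights -/

set_option autoImplicit false

open NumberField Height Function

namespace Pool.Agent.Q272.GL

open Q241.AK Q265.NF Q265.BM LP H57R3.VJ

variable {K : Type*} [Field K] [NumberField K]

/-- the linear algebra data -/
structure LDat {n r : ℕ} (D : Dat K n r) where
  L : Fin n → Fin (n + 1) → K
  M : Fin r → Fin (n + 1) → K
  P : Fin (n + 1) → Fin (n + 1) → K
  A : Fin (n + 1) → Fin (n + 1) → K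
  l : Fin r → K
  b : 𝓞 K
  hb0 : b ≠ 0
  hl : ∀ j, l j ≠ 0
  hL : ∀ x i, lin (L i) (fun c => lin (P c) x) = x i.succ
  hM : ∀ x j, lin (M j) (fun c => lin (P c) x) =
    l j * (x 0 - ∑ i, ((D.γ j i : K) / (b : K)) * x i.succ)
  hPA : ∀ x k, lin (A k) (fun c => lin (P c) x) = x k

variable {n r : ℕ} {D : Dat K n r} (Λ : LDat D)

namespace LDat

/-- the new coordinates -/
noncomputable def xx (f : Fin (n + 1) → Ix K → ℤ) : Fin (n + 1) → K :=
  Fin.cons (D.x0 f : K) fun i => (Λ.b : K) * (D.z f i : K)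

/-- the point -/
noncomputable def pt (f : Fin (n + 1) → Ix K → ℤ) : Fin (n + 1) → K :=
  fun c => lin (Λ.P c) (Λ.xx f)

lemma lin_L (f : Fin (n + 1) → Ix K → ℤ) (i : Fin n) :
    lin (Λ.L i) (Λ.pt f) = (Λ.b : K) * ((D.b i : K) ^ D.s i * (D.w f i : K)) := by
  unfold pt
  rw [Λ.hL]
  unfold xx Dat.z
  rw [Fin.cons_succ]
  push_cast
  rfl

lemma lin_M (f : Fin (n + 1) → Ix K → ℤ) (j : Fin r) :
    lin (Λ.M j) (Λ.pt f) = Λ.l j * ((D.p j : K) ^ D.k j * (D.y f j : K)) := by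
  unfold pt
  rw [Λ.hM, ← D.x0_subK]
  congr 1
  unfold xx
  rw [Fin.cons_zero]
  congr 1
  unfold Dat.t
  push_cast
  refine Finset.sum_congr rfl fun i _ => ?_
  rw [Fin.cons_succ]
  have hb : (Λ.b : K) ≠ 0 := by exact_mod_cast Λ.hb0
  field_simp

lemma lin_A (f : Fin (n + 1) → Ix K → ℤ) (k : Fin (n + 1)) :
    lin (Λ.A k) (Λ.pt f) = Λ.xx f k := by
  unfold pt
  exact Λ.hPA _ k

lemma xx_int (f : Fin (n + 1) → Ix K → ℤ) (v : FinitePlace K) (k : Fin (n + 1)) :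
    v (Λ.xx f k) ≤ 1 := by
  unfold xx
  refine Fin.cases ?_ (fun i => ?_) k
  · rw [Fin.cons_zero]
    exact int_le_one v _
  · rw [Fin.cons_succ, map_mul]
    exact mul_le_one₀ (int_le_one v _) (by positivity) (int_le_one v _)

/-- properties of a good sample outside `E` -/
structure Good (D : Dat K n r) (E : Finset (FinitePlace K)) (κ : ℝ)
    (f : Fin (n + 1) → Ix K → ℤ) : Prop where
  w1 : ∀ i, ∀ v ∉ E, (N v)⁻¹ ≤ v (D.w f i : K)
  w2 : ∀ i, ∀ v ∈ E, κ ≤ v (D.w f i : K)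
  y1 : ∀ j, ∀ v ∉ E, (N v)⁻¹ ≤ v (D.y f j : K)
  y2 : ∀ j, ∀ v ∈ E, κ ≤ v (D.y f j : K)
  ww : ∀ i i', i ≠ i' → ∀ v ∉ E, ¬ (v (D.w f i : K) < 1 ∧ v (D.w f i' : K) < 1)
  wy : ∀ i j, ∀ v ∉ E, ¬ (v (D.w f i : K) < 1 ∧ v (D.y f j : K) < 1)
  yy : ∀ j j', j ≠ j' → ∀ v ∉ E, ¬ (v (D.y f j : K) < 1 ∧ v (D.y f j' : K) < 1)

/-- properties of the exceptional set -/
structure Exc (D : Dat K n r) (Λ : LDat D) (E S : Finset (FinitePlace K)) : Prop where
  S : S ⊆ E
  p : ∀ j, ∀ v ∉ E, v (D.p j : K) = 1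
  b : ∀ i, ∀ v ∉ E, v (D.b i : K) = 1
  bb : ∀ v ∉ E, v (Λ.b : K) = 1
  l : ∀ j, ∀ v ∉ E, v (Λ.l j) = 1
  L : ∀ i, ∀ v ∉ E, sv v (Λ.L i) = 1
  M : ∀ j, ∀ v ∉ E, sv v (Λ.M j) = 1
  P : ∀ c k, ∀ v ∉ E, v (Λ.P c k) ≤ 1
  A : ∀ c k, ∀ v ∉ E, v (Λ.A c k) ≤ 1

variable {Λ}

lemma t_lt {f : Fin (n + 1) → Ix K → ℤ} {v : FinitePlace K} {ρ : ℝ} (hρ : 0 < ρ)
    (h : ∀ i, v (D.z f i : K) < ρ) (j : Fin r) : v (D.t f j : K) < ρ := by
  unfold Dat.t
  push_cast
  refine sum_lt_v v _ _ hρ fun i _ => ?_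
  rw [map_mul]
  exact lt_of_le_of_lt (mul_le_of_le_one_left (by positivity) (int_le_one v _)) (h i)

lemma sv_xx {E S : Finset (FinitePlace K)} (hE : Exc D Λ E S) {κ : ℝ}
    {f : Fin (n + 1) → Ix K → ℤ} (hf : Good D E κ f) (j : Fin r) (v : FinitePlace K) (hv : v ∉ E) :
    sv v (Λ.xx f) = 1 := by
  refine le_antisymm ?_ ?_
  · obtain ⟨k, hk⟩ := sv_att v (Λ.xx f)
    rw [hk]
    exact Λ.xx_int f v k
  · by_contra hc
    push Not at hc
    have h0 : v (D.x0 f : K) < 1 := by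
      have := le_sv v (Λ.xx f) 0
      unfold xx at this
      rw [Fin.cons_zero] at this
      exact lt_of_le_of_lt this hc
    have h1 : ∀ i, v (D.z f i : K) < 1 := by
      intro i
      have := le_sv v (Λ.xx f) i.succ
      unfold xx at this
      rw [Fin.cons_succ, map_mul, hE.bb v hv, one_mul] at this
      exact lt_of_le_of_lt this hc
    have h2 := t_lt one_pos h1 j
    have h3 := fsub v (D.x0 f : K) (D.t f j : K)
    rw [D.x0_subK, map_mul, map_pow, hE.p j v hv, one_pow, one_mul] at h3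
    have h4 : v (D.y f j : K) < 1 := lt_of_le_of_lt h3 (max_lt h0 h2)
    have h5 := h1 D.i0
    unfold Dat.z at h5
    push_cast at h5
    rw [map_mul, map_pow, hE.b _ v hv, one_pow, one_mul] at h5
    exact hf.wy D.i0 j v hv ⟨h5, h4⟩

lemma sv_pt {E S : Finset (FinitePlace K)} (hE : Exc D Λ E S) {κ : ℝ}
    {f : Fin (n + 1) → Ix K → ℤ} (hf : Good D E κ f) (j : Fin r) (v : FinitePlace K) (hv : v ∉ E) :
    sv v (Λ.pt f) = 1 := by
  have hxx := sv_xx hE hf j v hv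
  refine le_antisymm ?_ ?_
  · obtain ⟨k, hk⟩ := sv_att v (Λ.pt f)
    rw [hk]
    refine (lin_le v (Λ.P k) (Λ.xx f)).trans ?_
    rw [hxx, mul_one]
    obtain ⟨c, hc⟩ := sv_att v (Λ.P k)
    rw [hc]
    exact hE.P k c v hv
  · obtain ⟨k, hk⟩ := sv_att v (Λ.xx f)
    rw [← hxx, hk, ← Λ.lin_A f k]
    refine (lin_le v (Λ.A k) (Λ.pt f)).trans ?_
    obtain ⟨c, hc⟩ := sv_att v (Λ.A k)
    rw [hc]
    exact mul_le_of_le_one_left (sv_nonneg _ _) (hE.A k c v hv)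

lemma meets_L {E S : Finset (FinitePlace K)} (hE : Exc D Λ E S) {κ : ℝ}
    {f : Fin (n + 1) → Ix K → ℤ} (hf : Good D E κ f) (j : Fin r) (v : FinitePlace K) (hv : v ∉ E)
    (i : Fin n) : H57R3.VJ.Meets (Λ.L i) (Λ.pt f) v ↔ v (D.w f i : K) < 1 := by
  unfold H57R3.VJ.Meets
  rw [hE.L i v hv, sv_pt hE hf j v hv, mul_one, Λ.lin_L, map_mul, map_mul, map_pow,
    hE.bb v hv, hE.b i v hv, one_pow, one_mul, one_mul]

lemma meets_M {E S : Finset (FinitePlace K)} (hE : Exc D Λ E S) {κ : ℝ}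
    {f : Fin (n + 1) → Ix K → ℤ} (hf : Good D E κ f) (v : FinitePlace K) (hv : v ∉ E)
    (j : Fin r) : H57R3.VJ.Meets (Λ.M j) (Λ.pt f) v ↔ v (D.y f j : K) < 1 := by
  unfold H57R3.VJ.Meets
  rw [hE.M j v hv, sv_pt hE hf j v hv, mul_one, Λ.lin_M, map_mul, map_mul, map_pow,
    hE.l j v hv, hE.p j v hv, one_pow, one_mul, one_mul]

lemma sv_low {E S : Finset (FinitePlace K)} (hE : Exc D Λ E S) {κ κ' : ℝ}
    (hκ0 : 0 < κ) (hκ' : ∀ v ∈ E, κ' ≤ κ * v (Λ.b : K))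
    {f : Fin (n + 1) → Ix K → ℤ} (hf : Good D E κ f) (j : Fin r) (v : FinitePlace K) (hv : v ∈ E) :
    κ' ≤ sv v (Λ.xx f) := by
  have hb : v (Λ.b : K) ≤ 1 := int_le_one v _
  have hb0 : 0 ≤ v (Λ.b : K) := apply_nonneg _ _
  refine (hκ' v hv).trans ?_
  by_contra hc
  push Not at hc
  have h0 : v (D.x0 f : K) < κ := by
    have := le_sv v (Λ.xx f) 0
    unfold xx at this
    rw [Fin.cons_zero] at this
    exact lt_of_le_of_lt this (lt_of_lt_of_le hc (mul_le_of_le_one_right hκ0.le hb))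
  have h1 : ∀ i, v (D.z f i : K) < κ := by
    intro i
    have := le_sv v (Λ.xx f) i.succ
    unfold xx at this
    rw [Fin.cons_succ, map_mul] at this
    have h2 := lt_of_le_of_lt this hc
    rw [mul_comm κ] at h2
    exact lt_of_mul_lt_mul_left h2 hb0
  by_cases hp : v (D.p j : K) < 1
  · have hvb : v (D.b D.i0 : K) = 1 := by
      refine le_antisymm (v_nat_le v _) (not_lt.1 fun hc => ?_)
      exact coprime_places v ((Nat.coprime_primes (D.hp j) (D.hb _)).2 (D.hpb j _)) ⟨hp, hc⟩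
    have h5 := h1 D.i0
    unfold Dat.z at h5
    push_cast at h5
    rw [map_mul, map_pow, hvb, one_pow, one_mul] at h5
    exact absurd (hf.w2 D.i0 v hv) (not_le.2 h5)
  · have hp1 : v (D.p j : K) = 1 := le_antisymm (v_nat_le v _) (not_lt.1 hp)
    have h2 := t_lt hκ0 h1 j
    have h3 := fsub v (D.x0 f : K) (D.t f j : K)
    rw [D.x0_subK, map_mul, map_pow, hp1, one_pow, one_mul] at h3
    exact absurd (hf.y2 j v hv) (not_le.2 (lt_of_le_of_lt h3 (max_lt h0 h2)))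

lemma xx_ne {E S : Finset (FinitePlace K)} {κ : ℝ} (hκ0 : 0 < κ)
    {f : Fin (n + 1) → Ix K → ℤ} (hf : Good D E κ f) (v : FinitePlace K) (Λ : LDat D) :
    Λ.xx f ≠ 0 := by
  intro h
  have h1 := congrFun h D.i0.succ
  unfold xx at h1
  rw [Fin.cons_succ] at h1
  have hb : (Λ.b : K) ≠ 0 := by exact_mod_cast Λ.hb0
  have h2 : (D.z f D.i0 : K) = 0 := by
    rcases mul_eq_zero.1 h1 with h | h
    · exact absurd h hb
    · exact h
  unfold Dat.z at h2
  push_cast at h2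
  have h3 : (D.w f D.i0 : K) = 0 := by
    rcases mul_eq_zero.1 h2 with h | h
    · exact absurd h (pow_ne_zero _ (by exact_mod_cast (D.hb _).ne_zero))
    · exact h
  have h4 : 0 < v (D.w f D.i0 : K) := by
    by_cases hv : v ∈ E
    · exact lt_of_lt_of_le hκ0 (hf.w2 _ v hv)
    · exact lt_of_lt_of_le (inv_pos.2 (lt_trans one_pos (one_lt_N v))) (hf.w1 _ v hv)
  rw [h3, map_zero] at h4
  exact lt_irrefl _ h4

/-- the height in the new coordinates -/
lemma height_xx {E S : Finset (FinitePlace K)} (hE : Exc D Λ E S) {κ κ' : ℝ}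
    (hκ0 : 0 < κ) (hκ'0 : 0 < κ') (hκ' : ∀ v ∈ E, κ' ≤ κ * v (Λ.b : K))
    {f : Fin (n + 1) → Ix K → ℤ} (hf : Good D E κ f) (j : Fin r) (hx : Λ.xx f ≠ 0) {B C c : ℝ}
    (hB : 0 < B) (hC : 0 < C) (hc : 0 < c)
    (h1 : ∀ (w : InfinitePlace K) k, w (Λ.xx f k) ≤ C * B)
    (h2 : ∀ (w : InfinitePlace K), ∃ k, c * B ≤ w (Λ.xx f k)) :
    Module.finrank ℚ K * Real.log (c * B) - E.card * Real.log κ'⁻¹ ≤ logHeight (Λ.xx f) ∧
      logHeight (Λ.xx f) ≤ Module.finrank ℚ K * Real.log (C * B) := by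
  classical
  rw [logHeight_eq_log_mulHeight, NumberField.mulHeight_eq hx]
  have hA1 : ∏ w : InfinitePlace K, (⨆ i, w (Λ.xx f i)) ^ w.mult ≤
      (C * B) ^ Module.finrank ℚ K := by
    rw [← InfinitePlace.sum_mult_eq, ← Finset.prod_pow_eq_pow_sum]
    refine Finset.prod_le_prod (fun w _ => ?_) fun w _ => ?_
    · exact pow_nonneg (Real.iSup_nonneg fun i => apply_nonneg _ _) _
    · exact pow_le_pow_left₀ (Real.iSup_nonneg fun i => apply_nonneg _ _)
        (ciSup_le fun i => h1 w i) _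
  have hA2 : (c * B) ^ Module.finrank ℚ K ≤
      ∏ w : InfinitePlace K, (⨆ i, w (Λ.xx f i)) ^ w.mult := by
    rw [← InfinitePlace.sum_mult_eq, ← Finset.prod_pow_eq_pow_sum]
    refine Finset.prod_le_prod (fun w _ => by positivity) fun w _ => ?_
    obtain ⟨k, hk⟩ := h2 w
    exact pow_le_pow_left₀ (by positivity) (hk.trans (Finite.le_ciSup_of_le k le_rfl)) _
  have hF : HasFiniteMulSupport fun v : FinitePlace K => sv v (Λ.xx f) := sv_fin hx
  have hB1 : ∏ᶠ v : FinitePlace K, sv v (Λ.xx f) ≤ 1 := by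
    have := finprod_le_finprod hF (fun v => sv_nonneg v _) (g := fun _ : FinitePlace K => (1 : ℝ)) (by
        refine Set.finite_empty.subset fun v hv => ?_
        rw [mem_mulSupport] at hv
        exact hv rfl) (fun v => by
      obtain ⟨k, hk⟩ := sv_att v (Λ.xx f)
      rw [hk]
      exact Λ.xx_int f v k)
    rwa [finprod_one] at this
  have hB2 : κ' ^ E.card ≤ ∏ᶠ v : FinitePlace K, sv v (Λ.xx f) := by
    have e : κ' ^ E.card = ∏ᶠ v : FinitePlace K, if v ∈ E then κ' else 1 := by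
      rw [← Finset.prod_const]
      convert (finprod_fin E (fun _ => κ')).symm
    have hs : HasFiniteMulSupport fun v : FinitePlace K => if v ∈ E then κ' else 1 := by
      convert supp_fin E (fun _ => κ')
    rw [e]
    refine finprod_le_finprod hs (fun v => ?_) hF fun v => ?_
    · show (0 : ℝ) ≤ if v ∈ E then κ' else 1
      split_ifs
      · exact hκ'0.le
      · exact zero_le_one
    · show (if v ∈ E then κ' else 1) ≤ sv v (Λ.xx f)
      split_ifs with h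
      · exact sv_low hE hκ0 hκ' hf j v h
      · rw [sv_xx hE hf j v h]
  have hF0 : 0 < ∏ᶠ v : FinitePlace K, sv v (Λ.xx f) := lt_of_lt_of_le (by positivity) hB2
  have hI0 : 0 < ∏ w : InfinitePlace K, (⨆ i, w (Λ.xx f i)) ^ w.mult :=
    lt_of_lt_of_le (by positivity) hA2
  have e : (∏ᶠ v : FinitePlace K, ⨆ i, v (Λ.xx f i)) = ∏ᶠ v : FinitePlace K, sv v (Λ.xx f) := rfl
  rw [e]
  constructor
  · have k1 := mul_le_mul hA2 hB2 (by positivity) hI0.le
    have k2 := Real.log_le_log (by positivity) k1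
    rw [Real.log_mul (by positivity) (by positivity), Real.log_pow, Real.log_pow] at k2
    rw [Real.log_inv]
    linarith
  · have k1 := mul_le_mul hA1 hB1 hF0.le (by positivity)
    rw [mul_one] at k1
    have k2 := Real.log_le_log (mul_pos hI0 hF0) k1
    rwa [Real.log_pow] at k2

end LDat

end Pool.Agent.Q272.GL
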