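import Pool.Agent.Q272.GL.F

/-! # Numerical estimates -/

set_option autoImplicit false

open NumberField Height Function Filter

namespace Pool.Agent.Q272.GL

open Q241.AK Q265.NF Q265.BM LP

lemma rho_ev {e ε : ℝ} (he : 0 < e) (hε : 0 < ε) :
    ∀ᶠ B : ℝ in atTop, (1 + Real.log B) * B ^ (-e) ≤ ε := by
  have h1 := (tendsto_rpow_neg_atTop (half_pos he)).const_mul (1 + 2 / e)
  rw [mul_zero] at h1
  have h2 := h1.eventually (ge_mem_nhds hε)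
  filter_upwards [h2, eventually_ge_atTop (1 : ℝ)] with B h2 hB
  have hB0 : 0 < B := by linarith
  have h3 := Real.log_le_rpow_div hB0.le (half_pos he)
  have h4 : (1 : ℝ) ≤ B ^ (e / 2) := Real.one_le_rpow hB (by linarith)
  have h5 : B ^ (-e) = B ^ (-(e / 2)) * B ^ (-(e / 2)) := by
    rw [← Real.rpow_add hB0]
    congr 1
    ring
  have h6 : B ^ (e / 2) * B ^ (-(e / 2)) = 1 := by
    rw [← Real.rpow_add hB0, add_neg_cancel, Real.rpow_zero]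
  have h7 : 1 + Real.log B ≤ (1 + 2 / e) * B ^ (e / 2) := by
    have : B ^ (e / 2) / (e / 2) = 2 / e * B ^ (e / 2) := by field_simp
    rw [this] at h3
    linarith
  have h8 : 0 < B ^ (-(e / 2)) := by positivity
  calc (1 + Real.log B) * B ^ (-e) ≤ ((1 + 2 / e) * B ^ (e / 2)) * B ^ (-e) := by gcongr
    _ = (1 + 2 / e) * B ^ (-(e / 2)) * (B ^ (e / 2) * B ^ (-(e / 2))) := by rw [h5]; ring
    _ = (1 + 2 / e) * B ^ (-(e / 2)) := by rw [h6, mul_one]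
    _ ≤ ε := h2

lemma expo {b : ℕ} (hb : b.Prime) {η B : ℝ} (hη : 0 < η) (hB : 1 < B) :
    ∃ s : ℕ, (b : ℝ) ^ s ≤ B ^ η ∧ B ^ η ≤ (b : ℝ) ^ s * b := by
  have hb1 : (1 : ℝ) < b := by exact_mod_cast hb.one_lt
  have hB0 : 0 < B := by linarith
  have hlq := Real.log_pos hb1
  have hlB := Real.log_pos hB
  refine ⟨⌊η * Real.log B / Real.log b⌋₊, ?_, ?_⟩
  · have h1 : ((⌊η * Real.log B / Real.log b⌋₊ : ℕ) : ℝ) ≤ η * Real.log B / Real.log b :=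
      Nat.floor_le (by positivity)
    rw [le_div_iff₀ hlq] at h1
    rw [← Real.log_le_log_iff (by positivity) (by positivity), Real.log_pow, Real.log_rpow hB0]
    exact h1
  · have h1 := (Nat.lt_floor_add_one (η * Real.log B / Real.log b)).le
    rw [div_le_iff₀ hlq] at h1
    rw [← pow_succ, ← Real.log_le_log_iff (by positivity) (by positivity), Real.log_pow,
      Real.log_rpow hB0]
    push_cast
    exact h1

lemma floorY {Q : ℕ} (hQ : 0 < Q) {η B : ℝ} (hB : 0 < B) (h1 : (Q : ℝ) ≤ B ^ (1 - η))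
    (h2 : 2 ≤ B ^ η) : ∃ Y : ℕ, 1 ≤ Y ∧ (Q : ℝ) * Y ≤ B ∧ B / 2 ≤ (Q : ℝ) * Y ∧
      B ^ η / 2 ≤ Y ∧ (Y : ℝ) ≤ B / Q := by
  have hQr : (0 : ℝ) < Q := by exact_mod_cast hQ
  have hBB : B ^ (1 - η) * B ^ η = B := by
    rw [← Real.rpow_add hB, sub_add_cancel, Real.rpow_one]
  have hBQ : B ^ η ≤ B / Q := by
    rw [le_div_iff₀ hQr]
    calc B ^ η * Q ≤ B ^ η * B ^ (1 - η) := by gcongr
      _ = B := by rw [mul_comm]; exact hBB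
  have hY1 : ((⌊B / Q⌋₊ : ℕ) : ℝ) ≤ B / Q := Nat.floor_le (by positivity)
  have hY2 : B / Q - 1 < (⌊B / Q⌋₊ : ℕ) := by linarith [Nat.lt_floor_add_one (B / Q)]
  refine ⟨⌊B / Q⌋₊, ?_, ?_, ?_, ?_, hY1⟩
  · have : (1 : ℝ) ≤ (⌊B / Q⌋₊ : ℕ) := by linarith
    exact_mod_cast this
  · rw [le_div_iff₀ hQr] at hY1
    linarith
  · have h3 : B - Q < Q * (⌊B / Q⌋₊ : ℕ) := by
      have := mul_lt_mul_of_pos_left hY2 hQr
      rwa [mul_sub, mul_one, mul_div_cancel₀ _ hQr.ne'] at this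
    have h4 : 2 * (Q : ℝ) ≤ B := by
      calc 2 * (Q : ℝ) ≤ B ^ η * B ^ (1 - η) := by gcongr
        _ = B := by rw [mul_comm]; exact hBB
    linarith
  · linarith

variable {K : Type*} [Field K] [NumberField K] {n r : ℕ}

/-- the numerical conditions -/
theorem nums (D : Dat K n r) (V : ℝ) (hV0 : 1 ≤ V) (d : ℕ) (hd : d = Module.finrank ℚ K)
    (T : ℕ) (κ B A0 C1 e Dg X1 : ℝ) (hκ : 0 < κ)
    (hA0 : 0 ≤ A0) (hC1 : 1 ≤ C1) (he : 0 < e) (hDg : 0 ≤ Dg) (hX1 : 1 ≤ X1) (θ : Fin n → ℝ)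
    (φ : Fin r → ℝ) (σ ε0 : ℝ) (he0 : e = d * ε0) (hε0 : 0 < ε0) (hB1 : 1 ≤ B)
    (hθε : ∀ i, 2 * ε0 ≤ θ i) (hσε : 2 * ε0 ≤ σ)
    (hφε : ∀ j, φ j - θ D.i0 + ε0 ≤ 2 * σ - ε0)
    (hYi : ∀ i, B ^ θ i / 2 ≤ D.Y i.succ) (hY0 : B ^ σ / 2 ≤ D.Y 0)
    (hYu : ∀ i, (D.Y i.succ : ℝ) ≤ D.b i * B ^ θ i) (hYB : ∀ c, (D.Y c : ℝ) ≤ B)
    (hQj : ∀ j, (D.Q' j : ℝ) ≤ B ^ (φ j - σ))
    (hQ2 : ∀ j, B / (D.p j : ℝ) ^ D.k j ≤ 2 * (D.Q' j * D.Y 0)) (δ1 : ℝ) (hδ1 : 0 < δ1)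
    (hT : ((4 * D.W) ^ d) ^ 2 * (d * (1 / T)) ≤ δ1 / 2)
    (hρ : ((4 * D.W) ^ d * (d * (((∑ i, (X1 * D.b i) ^ d) + 1) * 2 ^ d)) +
      (4 * D.W) ^ d * (d * (2 * 2 ^ d)) +
      2 ^ d * (2 * (4 * D.W) ^ d * (5 * V) ^ d * d) * (2 * C1) ^ d * (1 + 2 ^ d) +
      ((4 * D.W) ^ d) ^ 2 * (d * ((X1 ^ d + 1) * 2 ^ d +
        2 * 2 ^ d * (1 + Real.log (X1 ^ d + 1) + d))) +
      (4 * D.W) ^ d * (d * (Real.log (2 * A0 * X1 + 1) + 1) / Real.log 2 * (2 * 2 ^ d)) +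
      2 ^ d + Dg * ((n + 1) * 2 ^ d)) * ((1 + Real.log B) * B ^ (-e)) ≤ min (δ1 / 2) κ) :
    ∃ (Z1 Z5 : Fin n → ℕ) (Za : Fin r → ℕ) (Z6 : ℕ), 1 ≤ Z6 ∧ (∀ j, 1 ≤ Za j) ∧
    (∀ i, (X1 * (D.Y i.succ : ℝ)) ^ d ≤ (Z1 i : ℝ) ^ 2) ∧
    (∀ i, (X1 * (D.Y i.succ : ℝ)) ^ d ≤ (Z5 i : ℝ)) ∧
    (∀ i, (4 * D.W) ^ d * (d * (Z1 i / (D.Y i.succ : ℝ) ^ d + 1 / T)) ≤ δ1) ∧
    (∀ c, (4 * D.W) ^ d * (1 / (D.Y c : ℝ) ^ d + κ) ≤ 2 * (4 * D.W) ^ d * κ) ∧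
    (∀ j, (4 * D.W) ^ d * (d * (Za j / (D.Y 0 : ℝ) ^ d + 1 / T)) ≤ δ1) ∧
    (∀ j, ((D.Y D.i0.succ : ℝ) / D.Q' j + 1) ^ d *
        (2 * (4 * D.W) ^ d * (5 * V) ^ d * d * ((C1 * (B / (D.p j : ℝ) ^ D.k j)) ^ d / Za j)) ≤
        δ1 * ((D.Y 0 : ℝ) ^ d * (D.Y D.i0.succ : ℝ) ^ d)) ∧
    (∀ i c, c ≠ i.succ → ((4 * D.W) ^ d) ^ 2 * (d *
      (Z5 i / ((D.Y i.succ : ℝ) ^ d * (D.Y c : ℝ) ^ d) +
        (1 / (D.Y i.succ : ℝ) ^ d + 1 / (D.Y c : ℝ) ^ d) * (1 + Real.log (Z5 i)) + 1 / T)) ≤ δ1) ∧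
    (((4 * D.W) ^ d) ^ 2 * (d * (Z6 / ((D.Y D.i0.succ : ℝ) ^ d * (D.Y 0 : ℝ) ^ d) +
        (1 / (D.Y D.i0.succ : ℝ) ^ d + 1 / (D.Y 0 : ℝ) ^ d) * (1 + Real.log Z6) + 1 / T)) ≤ δ1) ∧
    ((4 * D.W) ^ d * (Real.log (((2 * A0 * X1 + 1) * B) ^ d) / Real.log 2 *
      (1 / (D.Y 0 : ℝ) ^ d + 1 / Z6)) ≤ δ1) ∧
    1 / (D.Y D.i0.succ : ℝ) ^ d ≤ δ1 ∧ Dg * (∑ c, 1 / (D.Y c : ℝ) ^ d) ≤ δ1 := by
  have hd1 : 1 ≤ d := by rw [hd]; exact Module.finrank_pos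
  have hd0 : (1 : ℝ) ≤ d := by exact_mod_cast hd1
  have hW := D.hW0
  have hB0 : 0 < B := by linarith
  have hlB : 0 ≤ Real.log B := Real.log_nonneg hB1
  obtain ⟨C0, hC0⟩ : ∃ C0 : ℝ, C0 = (4 * D.W) ^ d := ⟨_, rfl⟩
  have hC01 : 1 ≤ C0 := by rw [hC0]; exact one_le_pow₀ (by linarith)
  have hC02 : C0 ≤ C0 ^ 2 := by
    rw [sq]
    exact le_mul_of_one_le_left (by linarith only [hC01]) hC01
  rw [← hC0] at hT hρ ⊢
  obtain ⟨m, hm⟩ : ∃ m : ℝ, m = B ^ (-e) := ⟨_, rfl⟩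
  have hm0 : 0 < m := by rw [hm]; positivity
  obtain ⟨ρ, hρd⟩ : ∃ ρ : ℝ, ρ = (1 + Real.log B) * B ^ (-e) := ⟨_, rfl⟩
  have hmρ : m ≤ ρ := by
    rw [hρd, ← hm]
    exact le_mul_of_one_le_left hm0.le (by linarith)
  have hρ0 : 0 < ρ := lt_of_lt_of_le hm0 hmρ
  have h2d : (1 : ℝ) ≤ 2 ^ d := one_le_pow₀ (by norm_num)
  -- the pieces of the constant
  obtain ⟨a1, ha1⟩ : ∃ a1 : ℝ, a1 = C0 * (d * (((∑ i, (X1 * D.b i) ^ d) + 1) * 2 ^ d)) := ⟨_, rfl⟩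
  obtain ⟨a2, ha2⟩ : ∃ a2 : ℝ, a2 = C0 * (d * (2 * 2 ^ d)) := ⟨_, rfl⟩
  obtain ⟨a3, ha3⟩ : ∃ a3 : ℝ, a3 =
      2 ^ d * (2 * C0 * (5 * V) ^ d * d) * (2 * C1) ^ d * (1 + 2 ^ d) := ⟨_, rfl⟩
  obtain ⟨a4, ha4⟩ : ∃ a4 : ℝ, a4 = C0 ^ 2 * (d * ((X1 ^ d + 1) * 2 ^ d +
        2 * 2 ^ d * (1 + Real.log (X1 ^ d + 1) + d))) := ⟨_, rfl⟩
  obtain ⟨a5, ha5⟩ : ∃ a5 : ℝ, a5 =
      C0 * (d * (Real.log (2 * A0 * X1 + 1) + 1) / Real.log 2 * (2 * 2 ^ d)) := ⟨_, rfl⟩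
  obtain ⟨a6, ha6⟩ : ∃ a6 : ℝ, a6 = 2 ^ d := ⟨_, rfl⟩
  obtain ⟨a7, ha7⟩ : ∃ a7 : ℝ, a7 = Dg * ((n + 1) * 2 ^ d) := ⟨_, rfl⟩
  rw [← ha1, ← ha2, ← ha3, ← ha4, ← ha5, ← ha7, ← ha6, ← hρd] at hρ
  have hlog2 : 0 < Real.log 2 := Real.log_pos (by norm_num)
  have hX1d : (1 : ℝ) ≤ X1 ^ d := one_le_pow₀ hX1
  have hlX : 0 ≤ Real.log (X1 ^ d + 1) := Real.log_nonneg (by linarith)
  have hlA : 0 ≤ Real.log (2 * A0 * X1 + 1) := Real.log_nonneg (by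
    have : 0 ≤ 2 * A0 * X1 := by positivity
    linarith)
  have p1 : 0 ≤ a1 := by rw [ha1]; positivity
  have p2 : 0 ≤ a2 := by rw [ha2]; positivity
  have p3 : 0 ≤ a3 := by rw [ha3]; positivity
  have p4 : 0 ≤ a4 := by rw [ha4]; positivity
  have p5 : 0 ≤ a5 := by rw [ha5]; positivity
  have p6 : 0 ≤ a6 := by rw [ha6]; positivity
  have p7 : 0 ≤ a7 := by rw [ha7]; positivity
  obtain ⟨hρ1, hρ2⟩ := le_min_iff.1 hρ
  have s1 : a1 * ρ ≤ δ1 / 2 := le_trans (mul_le_mul_of_nonneg_right (by linarith) hρ0.le) hρ1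
  have s2 : a2 * ρ ≤ δ1 / 2 := le_trans (mul_le_mul_of_nonneg_right (by linarith) hρ0.le) hρ1
  have s3 : a3 * ρ ≤ δ1 / 2 := le_trans (mul_le_mul_of_nonneg_right (by linarith) hρ0.le) hρ1
  have s4 : a4 * ρ ≤ δ1 / 2 := le_trans (mul_le_mul_of_nonneg_right (by linarith) hρ0.le) hρ1
  have s5 : a5 * ρ ≤ δ1 / 2 := le_trans (mul_le_mul_of_nonneg_right (by linarith) hρ0.le) hρ1
  have s6 : a6 * ρ ≤ δ1 / 2 := le_trans (mul_le_mul_of_nonneg_right (by linarith) hρ0.le) hρ1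
  have s6' : a6 * ρ ≤ κ := le_trans (mul_le_mul_of_nonneg_right (by linarith) hρ0.le) hρ2
  have s7 : a7 * ρ ≤ δ1 / 2 := le_trans (mul_le_mul_of_nonneg_right (by linarith) hρ0.le) hρ1
  clear hρ
  -- the boxes
  have hDc : ∀ c, 1 / (D.Y c : ℝ) ^ d ≤ 2 ^ d * m := by
    intro c
    have key : ∀ (η : ℝ), ε0 ≤ η → ∀ Y : ℕ, B ^ η / 2 ≤ Y → 1 / (Y : ℝ) ^ d ≤ 2 ^ d * m := by
      intro η hη Y hY
      have h1 : (B ^ η / 2) ^ d ≤ (Y : ℝ) ^ d := pow_le_pow_left₀ (by positivity) hY d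
      have h2 : 1 / (Y : ℝ) ^ d ≤ 1 / (B ^ η / 2) ^ d := one_div_le_one_div_of_le (by positivity) h1
      refine h2.trans ?_
      have h3 : 1 / (B ^ η / 2) ^ d = 2 ^ d * B ^ (-(d * η)) := by
        rw [div_pow, ← Real.rpow_natCast (B ^ η), ← Real.rpow_mul hB0.le, Real.rpow_neg hB0.le,
          mul_comm η]
        field_simp
      rw [h3, hm]
      refine mul_le_mul_of_nonneg_left ?_ (by positivity)
      refine Real.rpow_le_rpow_of_exponent_le hB1 ?_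
      rw [he0]
      have : (d : ℝ) * ε0 ≤ d * η := mul_le_mul_of_nonneg_left hη (by linarith)
      linarith
    refine Fin.cases ?_ (fun i => ?_) c
    · exact key σ (by linarith) _ hY0
    · exact key (θ i) (by linarith [hθε i]) _ (hYi i)
  have hDpos : ∀ c, (0 : ℝ) < (D.Y c : ℝ) ^ d := by
    intro c
    have : (0 : ℝ) < D.Y c := by exact_mod_cast D.hY c
    positivity
  have hTd : C0 * (d * (1 / T)) ≤ δ1 / 2 := by
    refine le_trans ?_ hT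
    exact mul_le_mul_of_nonneg_right hC02 (by positivity)
  refine ⟨fun i => ⌈(X1 * D.b i) ^ d * B ^ (d * θ i / 2)⌉₊, fun i => ⌈(X1 * D.Y i.succ) ^ d⌉₊,
    fun j => ⌈B ^ (d * (σ - ε0))⌉₊, D.Y 0 ^ d, Nat.one_le_pow _ _ (D.hY 0), ?_, ?_, ?_, ?_, ?_, ?_,
    ?_, ?_, ?_, ?_, ?_, ?_⟩
  · intro j
    exact Nat.ceil_pos.2 (by positivity)
  · intro i
    have hb1 : (1 : ℝ) ≤ X1 * D.b i := one_le_mul_of_one_le_of_one_le hX1
      (by exact_mod_cast (D.hb i).one_lt.le)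
    have h1 : (X1 * (D.Y i.succ : ℝ)) ^ d ≤ ((X1 * D.b i) * B ^ θ i) ^ d := by
      refine pow_le_pow_left₀ (by positivity) ?_ d
      rw [mul_assoc]
      exact mul_le_mul_of_nonneg_left (hYu i) (by linarith)
    refine h1.trans ?_
    have h2 : (X1 * D.b i) ^ d * B ^ (d * θ i / 2) ≤
        (⌈(X1 * D.b i) ^ d * B ^ (d * θ i / 2)⌉₊ : ℕ) := Nat.le_ceil _
    have h3 : ((X1 * D.b i) * B ^ θ i) ^ d ≤ ((X1 * D.b i) ^ d * B ^ (d * θ i / 2)) ^ 2 := by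
      have h4 : (B ^ (d * θ i / 2)) ^ 2 = (B ^ θ i) ^ d := by
        rw [← Real.rpow_natCast (B ^ (d * θ i / 2)), ← Real.rpow_natCast (B ^ θ i),
          ← Real.rpow_mul hB0.le, ← Real.rpow_mul hB0.le]
        congr 1
        push_cast
        ring
      rw [mul_pow (X1 * (D.b i : ℝ)) (B ^ θ i) d,
        mul_pow ((X1 * (D.b i : ℝ)) ^ d) (B ^ (d * θ i / 2)) 2, h4]
      refine mul_le_mul_of_nonneg_right ?_ (by positivity)
      rw [sq]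
      exact le_mul_of_one_le_left (by positivity) (one_le_pow₀ hb1)
    refine h3.trans ?_
    gcongr
  · intro i
    exact Nat.le_ceil _
  · intro i
    have hb1 : (1 : ℝ) ≤ X1 * D.b i := one_le_mul_of_one_le_of_one_le hX1
      (by exact_mod_cast (D.hb i).one_lt.le)
    have hs : (X1 * D.b i) ^ d ≤ ∑ i, (X1 * D.b i) ^ d :=
      Finset.single_le_sum (f := fun i => (X1 * (D.b i : ℝ)) ^ d) (fun i _ => by positivity)
        (Finset.mem_univ i)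
    have hBe : (1 : ℝ) ≤ B ^ (d * θ i / 2) := Real.one_le_rpow hB1 (by
      have h0 : 0 < θ i := by linarith [hθε i]
      positivity)
    have h1 : ((⌈(X1 * D.b i) ^ d * B ^ (d * θ i / 2)⌉₊ : ℕ) : ℝ) ≤
        ((∑ i, (X1 * D.b i) ^ d) + 1) * B ^ (d * θ i / 2) := by
      have := (Nat.ceil_lt_add_one (a := (X1 * D.b i) ^ d * B ^ (d * θ i / 2)) (by positivity)).le
      refine this.trans ?_
      rw [add_mul, one_mul]
      gcongr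
    have h2 : (1 : ℝ) / (D.Y i.succ : ℝ) ^ d ≤ 2 ^ d * B ^ (-(d * θ i)) := by
      have k1 : (B ^ θ i / 2) ^ d ≤ (D.Y i.succ : ℝ) ^ d :=
        pow_le_pow_left₀ (by positivity) (hYi i) d
      have k2 : 1 / (D.Y i.succ : ℝ) ^ d ≤ 1 / (B ^ θ i / 2) ^ d :=
        one_div_le_one_div_of_le (by positivity) k1
      refine k2.trans (le_of_eq ?_)
      rw [div_pow, ← Real.rpow_natCast (B ^ θ i), ← Real.rpow_mul hB0.le, Real.rpow_neg hB0.le,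
        mul_comm (θ i)]
      field_simp
    have h3 : ((⌈(X1 * D.b i) ^ d * B ^ (d * θ i / 2)⌉₊ : ℕ) : ℝ) / (D.Y i.succ : ℝ) ^ d ≤
        ((∑ i, (X1 * D.b i) ^ d) + 1) * 2 ^ d * m := by
      have k0 : B ^ (d * θ i / 2) * B ^ (-(d * θ i)) ≤ m := by
        rw [← Real.rpow_add hB0, hm]
        refine Real.rpow_le_rpow_of_exponent_le hB1 ?_
        rw [he0]
        have := mul_le_mul_of_nonneg_left (hθε i) (by linarith : (0 : ℝ) ≤ d)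
        linarith
      calc ((⌈(X1 * D.b i) ^ d * B ^ (d * θ i / 2)⌉₊ : ℕ) : ℝ) / (D.Y i.succ : ℝ) ^ d =
          ((⌈(X1 * D.b i) ^ d * B ^ (d * θ i / 2)⌉₊ : ℕ) : ℝ) * (1 / (D.Y i.succ : ℝ) ^ d) := by ring
        _ ≤ (((∑ i, (X1 * D.b i) ^ d) + 1) * B ^ (d * θ i / 2)) * (2 ^ d * B ^ (-(d * θ i))) := by
            refine mul_le_mul h1 h2 (by positivity) (by positivity)
        _ = ((∑ i, (X1 * D.b i) ^ d) + 1) * 2 ^ d * (B ^ (d * θ i / 2) * B ^ (-(d * θ i))) := by ring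
        _ ≤ _ := by gcongr
    have h4 : C0 * (d * (((⌈(X1 * D.b i) ^ d * B ^ (d * θ i / 2)⌉₊ : ℕ) : ℝ) /
        (D.Y i.succ : ℝ) ^ d)) ≤ a1 * ρ := by
      calc C0 * (d * (((⌈(X1 * D.b i) ^ d * B ^ (d * θ i / 2)⌉₊ : ℕ) : ℝ) /
          (D.Y i.succ : ℝ) ^ d)) ≤ C0 * (d * (((∑ i, (X1 * D.b i) ^ d) + 1) * 2 ^ d * m)) := by
            gcongr
        _ = a1 * m := by rw [ha1]; ring
        _ ≤ a1 * ρ := by gcongr
    have e2 : C0 * (d * (((⌈(X1 * D.b i) ^ d * B ^ (d * θ i / 2)⌉₊ : ℕ) : ℝ) /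
        (D.Y i.succ : ℝ) ^ d + 1 / T)) = C0 * (d * (((⌈(X1 * D.b i) ^ d *
        B ^ (d * θ i / 2)⌉₊ : ℕ) : ℝ) / (D.Y i.succ : ℝ) ^ d)) + C0 * (d * (1 / T)) := by ring
    rw [e2]
    linarith
  · intro c
    have h1 : 1 / (D.Y c : ℝ) ^ d ≤ κ := by
      refine (hDc c).trans (le_trans ?_ s6')
      rw [ha6]
      gcongr
    calc C0 * (1 / (D.Y c : ℝ) ^ d + κ) ≤ C0 * (κ + κ) := by gcongr
      _ = 2 * C0 * κ := by ring
  · intro j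
    have hBe : (1 : ℝ) ≤ B ^ (d * (σ - ε0)) := Real.one_le_rpow hB1 (by
      have : 0 ≤ σ - ε0 := by linarith
      positivity)
    have h1 : ((⌈B ^ (d * (σ - ε0))⌉₊ : ℕ) : ℝ) ≤ 2 * B ^ (d * (σ - ε0)) := by
      have := (Nat.ceil_lt_add_one (a := B ^ (d * (σ - ε0))) (by positivity)).le
      linarith
    have h2 : (1 : ℝ) / (D.Y 0 : ℝ) ^ d ≤ 2 ^ d * B ^ (-(d * σ)) := by
      have k1 : (B ^ σ / 2) ^ d ≤ (D.Y 0 : ℝ) ^ d := pow_le_pow_left₀ (by positivity) hY0 d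
      have k2 : 1 / (D.Y 0 : ℝ) ^ d ≤ 1 / (B ^ σ / 2) ^ d :=
        one_div_le_one_div_of_le (by positivity) k1
      refine k2.trans (le_of_eq ?_)
      rw [div_pow, ← Real.rpow_natCast (B ^ σ), ← Real.rpow_mul hB0.le, Real.rpow_neg hB0.le,
        mul_comm σ]
      field_simp
    have h3 : ((⌈B ^ (d * (σ - ε0))⌉₊ : ℕ) : ℝ) / (D.Y 0 : ℝ) ^ d ≤ 2 * 2 ^ d * m := by
      have k0 : B ^ (d * (σ - ε0)) * B ^ (-(d * σ)) = m := by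
        rw [← Real.rpow_add hB0, hm, he0]
        congr 1
        ring
      calc ((⌈B ^ (d * (σ - ε0))⌉₊ : ℕ) : ℝ) / (D.Y 0 : ℝ) ^ d =
          ((⌈B ^ (d * (σ - ε0))⌉₊ : ℕ) : ℝ) * (1 / (D.Y 0 : ℝ) ^ d) := by ring
        _ ≤ (2 * B ^ (d * (σ - ε0))) * (2 ^ d * B ^ (-(d * σ))) := by
            refine mul_le_mul h1 h2 (by positivity) (by positivity)
        _ = 2 * 2 ^ d * (B ^ (d * (σ - ε0)) * B ^ (-(d * σ))) := by ring
        _ = _ := by rw [k0]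
    have h4 : C0 * (d * (((⌈B ^ (d * (σ - ε0))⌉₊ : ℕ) : ℝ) / (D.Y 0 : ℝ) ^ d)) ≤ a2 * ρ := by
      calc C0 * (d * (((⌈B ^ (d * (σ - ε0))⌉₊ : ℕ) : ℝ) / (D.Y 0 : ℝ) ^ d)) ≤
          C0 * (d * (2 * 2 ^ d * m)) := by gcongr
        _ = a2 * m := by rw [ha2]; ring
        _ ≤ a2 * ρ := by gcongr
    have e2 : C0 * (d * (((⌈B ^ (d * (σ - ε0))⌉₊ : ℕ) : ℝ) / (D.Y 0 : ℝ) ^ d + 1 / T)) =
        C0 * (d * (((⌈B ^ (d * (σ - ε0))⌉₊ : ℕ) : ℝ) / (D.Y 0 : ℝ) ^ d)) +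
        C0 * (d * (1 / T)) := by ring
    rw [e2]
    linarith
  · intro j
    obtain ⟨Zr, hZr⟩ : ∃ Zr : ℝ, Zr = ((⌈B ^ (d * (σ - ε0))⌉₊ : ℕ) : ℝ) := ⟨_, rfl⟩
    have hBe : (1 : ℝ) ≤ B ^ (d * (σ - ε0)) := Real.one_le_rpow hB1 (by
      have : 0 ≤ σ - ε0 := by linarith
      positivity)
    have hZr1 : B ^ (d * (σ - ε0)) ≤ Zr := by rw [hZr]; exact Nat.le_ceil _
    have hZr0 : 0 < Zr := by linarith
    rw [← hZr]
    obtain ⟨q, hq⟩ : ∃ q : ℝ, q = (D.Q' j : ℝ) := ⟨_, rfl⟩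
    have hq0 : 0 < q := by rw [hq]; exact_mod_cast D.Q'_pos j
    have hqj := hQj j
    have hq2 := hQ2 j
    rw [← hq] at hqj hq2 ⊢
    obtain ⟨y1, hy1⟩ : ∃ y1 : ℝ, y1 = (D.Y D.i0.succ : ℝ) := ⟨_, rfl⟩
    have hy10 : 0 < y1 := by rw [hy1]; exact_mod_cast D.hY _
    obtain ⟨y0, hy0⟩ : ∃ y0 : ℝ, y0 = (D.Y 0 : ℝ) := ⟨_, rfl⟩
    have hy00 : 0 < y0 := by rw [hy0]; exact_mod_cast D.hY _
    have hyi := hYi D.i0
    rw [← hy1] at hyi ⊢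
    rw [← hy0] at hq2 ⊢
    have hppos : (0 : ℝ) < (D.p j : ℝ) ^ D.k j := by
      have : (0 : ℝ) < D.p j := by exact_mod_cast (D.hp j).pos
      positivity
    have g1 : (y1 / q + 1) ^ d ≤ 2 ^ d * ((y1 / q) ^ d + 1) := by
      rcases le_total (y1 / q) 1 with h6 | h6
      · calc (y1 / q + 1) ^ d ≤ 2 ^ d := by gcongr; linarith
          _ ≤ 2 ^ d * ((y1 / q) ^ d + 1) := le_mul_of_one_le_right (by positivity)
              (by linarith [pow_nonneg (div_nonneg hy10.le hq0.le) d])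
      · calc (y1 / q + 1) ^ d ≤ (2 * (y1 / q)) ^ d := by gcongr; linarith
          _ = 2 ^ d * (y1 / q) ^ d := mul_pow _ _ _
          _ ≤ 2 ^ d * ((y1 / q) ^ d + 1) := by gcongr; linarith
    have g2 : (C1 * (B / (D.p j : ℝ) ^ D.k j)) ^ d ≤ (2 * C1) ^ d * (q ^ d * y0 ^ d) := by
      rw [← mul_pow, ← mul_pow]
      refine pow_le_pow_left₀ (by positivity) ?_ d
      calc C1 * (B / (D.p j : ℝ) ^ D.k j) ≤ C1 * (2 * (q * y0)) := by gcongr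
        _ = _ := by ring
    have g3 : (y1 / q + 1) ^ d * (2 * C0 * (5 * V) ^ d * d *
        ((C1 * (B / (D.p j : ℝ) ^ D.k j)) ^ d / Zr)) ≤
        (2 ^ d * (2 * C0 * (5 * V) ^ d * d) * (2 * C1) ^ d) * y0 ^ d *
          ((y1 ^ d + q ^ d) / Zr) := by
      calc (y1 / q + 1) ^ d * (2 * C0 * (5 * V) ^ d * d *
          ((C1 * (B / (D.p j : ℝ) ^ D.k j)) ^ d / Zr)) ≤
          (2 ^ d * ((y1 / q) ^ d + 1)) * (2 * C0 * (5 * V) ^ d * d *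
            (((2 * C1) ^ d * (q ^ d * y0 ^ d)) / Zr)) := by gcongr
        _ = _ := by
          rw [div_pow]
          field_simp
    refine g3.trans ?_
    have g4 : (y1 ^ d + q ^ d) / Zr ≤ (1 + 2 ^ d) * m * y1 ^ d := by
      have k1 : 1 / Zr ≤ m := by
        refine (one_div_le_one_div_of_le (by positivity) hZr1).trans ?_
        rw [one_div, ← Real.rpow_neg hB0.le, hm]
        refine Real.rpow_le_rpow_of_exponent_le hB1 ?_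
        rw [he0]
        have := mul_le_mul_of_nonneg_left (by linarith : ε0 ≤ σ - ε0) (by linarith : (0 : ℝ) ≤ d)
        linarith
      have k2 : q ^ d / Zr ≤ 2 ^ d * m * y1 ^ d := by
        have j1 : q ^ d ≤ B ^ (d * (φ j - σ)) := by
          have := pow_le_pow_left₀ hq0.le hqj d
          rwa [← Real.rpow_natCast (B ^ (φ j - σ)), ← Real.rpow_mul hB0.le, mul_comm (φ j - σ)]
            at this
        have j2 : (B ^ θ D.i0) ^ d ≤ 2 ^ d * y1 ^ d := by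
          rw [← mul_pow]
          refine pow_le_pow_left₀ (by positivity) ?_ d
          linarith
        have j3 : (B ^ θ D.i0) ^ d = B ^ (d * θ D.i0) := by
          rw [← Real.rpow_natCast (B ^ θ D.i0), ← Real.rpow_mul hB0.le, mul_comm (θ D.i0)]
        rw [j3] at j2
        calc q ^ d / Zr ≤ B ^ (d * (φ j - σ)) / B ^ (d * (σ - ε0)) := by gcongr
          _ = B ^ (d * (φ j - σ) - d * (σ - ε0)) := by rw [← Real.rpow_sub hB0]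
          _ ≤ B ^ (-e + d * θ D.i0) := by
              refine Real.rpow_le_rpow_of_exponent_le hB1 ?_
              rw [he0]
              have := mul_le_mul_of_nonneg_left (hφε j) (by linarith : (0 : ℝ) ≤ d)
              linarith
          _ = m * B ^ (d * θ D.i0) := by rw [Real.rpow_add hB0, hm]
          _ ≤ m * (2 ^ d * y1 ^ d) := by gcongr
          _ = _ := by ring
      have k3 : y1 ^ d / Zr ≤ m * y1 ^ d := by
        calc y1 ^ d / Zr = y1 ^ d * (1 / Zr) := by ring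
          _ ≤ y1 ^ d * m := by gcongr
          _ = _ := by ring
      rw [add_div]
      linarith
    calc (2 ^ d * (2 * C0 * (5 * V) ^ d * d) * (2 * C1) ^ d) * y0 ^ d *
          ((y1 ^ d + q ^ d) / Zr) ≤ (2 ^ d * (2 * C0 * (5 * V) ^ d * d) * (2 * C1) ^ d) * y0 ^ d *
          ((1 + 2 ^ d) * m * y1 ^ d) := by gcongr
      _ = (a3 * m) * (y0 ^ d * y1 ^ d) := by rw [ha3]; ring
      _ ≤ (a3 * ρ) * (y0 ^ d * y1 ^ d) := by gcongr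
      _ ≤ δ1 * (y0 ^ d * y1 ^ d) := by
          refine mul_le_mul_of_nonneg_right ?_ (by positivity)
          linarith
  · intro i c _
    obtain ⟨Z, hZ⟩ : ∃ Z : ℝ, Z = ((⌈(X1 * (D.Y i.succ : ℝ)) ^ d⌉₊ : ℕ) : ℝ) := ⟨_, rfl⟩
    rw [← hZ]
    have hD1 : (1 : ℝ) ≤ (D.Y i.succ : ℝ) ^ d := one_le_pow₀ (by exact_mod_cast D.hY _)
    have hZ1 : Z ≤ (X1 ^ d + 1) * (D.Y i.succ : ℝ) ^ d := by
      have h0 := (Nat.ceil_lt_add_one (a := (X1 * (D.Y i.succ : ℝ)) ^ d) (by positivity)).le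
      rw [← hZ] at h0
      have h1 : (X1 * (D.Y i.succ : ℝ)) ^ d = X1 ^ d * (D.Y i.succ : ℝ) ^ d := mul_pow _ _ _
      rw [h1] at h0
      have h2 : (X1 ^ d + 1) * (D.Y i.succ : ℝ) ^ d =
          X1 ^ d * (D.Y i.succ : ℝ) ^ d + (D.Y i.succ : ℝ) ^ d := by ring
      rw [h2]
      linarith only [h0, hD1]
    have hZ0 : 1 ≤ Z := by
      rw [hZ]
      have : 0 < ⌈(X1 * (D.Y i.succ : ℝ)) ^ d⌉₊ := Nat.ceil_pos.2 (by
        have := hDpos i.succ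
        rw [mul_pow]
        positivity)
      exact_mod_cast this
    have hlZ : Real.log Z ≤ Real.log (X1 ^ d + 1) + d * Real.log B := by
      have h1 : Z ≤ (X1 ^ d + 1) * B ^ d := by
        refine hZ1.trans ?_
        have := hYB i.succ
        gcongr
      have h2 := Real.log_le_log (by linarith) h1
      rwa [Real.log_mul (by positivity) (by positivity), Real.log_pow] at h2
    have h1 : Z / ((D.Y i.succ : ℝ) ^ d * (D.Y c : ℝ) ^ d) ≤ (X1 ^ d + 1) * 2 ^ d * ρ := by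
      have k1 := hDpos i.succ
      have k2 := hDpos c
      calc Z / ((D.Y i.succ : ℝ) ^ d * (D.Y c : ℝ) ^ d) ≤
          ((X1 ^ d + 1) * (D.Y i.succ : ℝ) ^ d) / ((D.Y i.succ : ℝ) ^ d * (D.Y c : ℝ) ^ d) := by
            gcongr
        _ = (X1 ^ d + 1) * (1 / (D.Y c : ℝ) ^ d) := by field_simp
        _ ≤ (X1 ^ d + 1) * (2 ^ d * m) := by
            have := hDc c
            gcongr
        _ ≤ (X1 ^ d + 1) * (2 ^ d * ρ) := by gcongr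
        _ = _ := by ring
    have h2 : (1 / (D.Y i.succ : ℝ) ^ d + 1 / (D.Y c : ℝ) ^ d) * (1 + Real.log Z) ≤
        2 * 2 ^ d * (1 + Real.log (X1 ^ d + 1) + d) * ρ := by
      have k1 := hDc i.succ
      have k2 := hDc c
      have k3 : 0 ≤ Real.log Z := Real.log_nonneg hZ0
      have k4 : 1 + Real.log Z ≤ (1 + Real.log (X1 ^ d + 1) + d) * (1 + Real.log B) := by
        have k5 := mul_nonneg hlX hlB
        have k6 : (1 + Real.log (X1 ^ d + 1) + d) * (1 + Real.log B) = 1 + Real.log (X1 ^ d + 1) +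
            d + Real.log B + Real.log (X1 ^ d + 1) * Real.log B + d * Real.log B := by ring
        rw [k6]
        linarith only [k5, hlZ, hd0, hlB]
      calc (1 / (D.Y i.succ : ℝ) ^ d + 1 / (D.Y c : ℝ) ^ d) * (1 + Real.log Z) ≤
          (2 ^ d * m + 2 ^ d * m) * ((1 + Real.log (X1 ^ d + 1) + d) * (1 + Real.log B)) := by
            gcongr
        _ = 2 * 2 ^ d * (1 + Real.log (X1 ^ d + 1) + d) * ((1 + Real.log B) * m) := by ring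
        _ = _ := by rw [hρd, hm]
    have h3 : C0 ^ 2 * (d * (Z / ((D.Y i.succ : ℝ) ^ d * (D.Y c : ℝ) ^ d) +
        (1 / (D.Y i.succ : ℝ) ^ d + 1 / (D.Y c : ℝ) ^ d) * (1 + Real.log Z))) ≤ a4 * ρ := by
      calc _ ≤ C0 ^ 2 * (d * ((X1 ^ d + 1) * 2 ^ d * ρ +
          2 * 2 ^ d * (1 + Real.log (X1 ^ d + 1) + d) * ρ)) := by gcongr
        _ = a4 * ρ := by rw [ha4]; ring
    have e2 : C0 ^ 2 * (d * (Z / ((D.Y i.succ : ℝ) ^ d * (D.Y c : ℝ) ^ d) +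
        (1 / (D.Y i.succ : ℝ) ^ d + 1 / (D.Y c : ℝ) ^ d) * (1 + Real.log Z) + 1 / T)) =
        C0 ^ 2 * (d * (Z / ((D.Y i.succ : ℝ) ^ d * (D.Y c : ℝ) ^ d) +
        (1 / (D.Y i.succ : ℝ) ^ d + 1 / (D.Y c : ℝ) ^ d) * (1 + Real.log Z))) +
        C0 ^ 2 * (d * (1 / T)) := by ring
    rw [e2]
    linarith
  · have hD0 := hDpos 0
    have hD1 := hDpos D.i0.succ
    have hlZ : Real.log ((D.Y 0 ^ d : ℕ) : ℝ) ≤ d * Real.log B := by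
      push_cast
      rw [Real.log_pow]
      have := Real.log_le_log (by exact_mod_cast D.hY 0) (hYB 0)
      gcongr
    have hlZ0 : 0 ≤ Real.log ((D.Y 0 ^ d : ℕ) : ℝ) := Real.log_nonneg (by
      exact_mod_cast Nat.one_le_pow _ _ (D.hY 0))
    have h1 : ((D.Y 0 ^ d : ℕ) : ℝ) / ((D.Y D.i0.succ : ℝ) ^ d * (D.Y 0 : ℝ) ^ d) ≤
        (X1 ^ d + 1) * 2 ^ d * ρ := by
      have k1 := hDc D.i0.succ
      calc ((D.Y 0 ^ d : ℕ) : ℝ) / ((D.Y D.i0.succ : ℝ) ^ d * (D.Y 0 : ℝ) ^ d) =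
          1 / (D.Y D.i0.succ : ℝ) ^ d := by push_cast; field_simp
        _ ≤ 2 ^ d * m := k1
        _ ≤ 2 ^ d * ρ := by gcongr
        _ ≤ (X1 ^ d + 1) * (2 ^ d * ρ) := le_mul_of_one_le_left (by positivity) (by linarith)
        _ = _ := by ring
    have h2 : (1 / (D.Y D.i0.succ : ℝ) ^ d + 1 / (D.Y 0 : ℝ) ^ d) *
        (1 + Real.log ((D.Y 0 ^ d : ℕ) : ℝ)) ≤ 2 * 2 ^ d * (1 + Real.log (X1 ^ d + 1) + d) * ρ := by
      have k1 := hDc D.i0.succ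
      have k2 := hDc 0
      have k4 : 1 + Real.log ((D.Y 0 ^ d : ℕ) : ℝ) ≤
          (1 + Real.log (X1 ^ d + 1) + d) * (1 + Real.log B) := by
        have k5 := mul_nonneg hlX hlB
        have k6 : (1 + Real.log (X1 ^ d + 1) + d) * (1 + Real.log B) = 1 + Real.log (X1 ^ d + 1) +
            d + Real.log B + Real.log (X1 ^ d + 1) * Real.log B + d * Real.log B := by ring
        rw [k6]
        linarith only [k5, hlZ, hd0, hlB, hlX]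
      calc (1 / (D.Y D.i0.succ : ℝ) ^ d + 1 / (D.Y 0 : ℝ) ^ d) *
          (1 + Real.log ((D.Y 0 ^ d : ℕ) : ℝ)) ≤
          (2 ^ d * m + 2 ^ d * m) * ((1 + Real.log (X1 ^ d + 1) + d) * (1 + Real.log B)) := by
            gcongr
        _ = 2 * 2 ^ d * (1 + Real.log (X1 ^ d + 1) + d) * ((1 + Real.log B) * m) := by ring
        _ = _ := by rw [hρd, hm]
    have h3 : C0 ^ 2 * (d * (((D.Y 0 ^ d : ℕ) : ℝ) / ((D.Y D.i0.succ : ℝ) ^ d * (D.Y 0 : ℝ) ^ d) +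
        (1 / (D.Y D.i0.succ : ℝ) ^ d + 1 / (D.Y 0 : ℝ) ^ d) *
        (1 + Real.log ((D.Y 0 ^ d : ℕ) : ℝ)))) ≤ a4 * ρ := by
      calc _ ≤ C0 ^ 2 * (d * ((X1 ^ d + 1) * 2 ^ d * ρ +
          2 * 2 ^ d * (1 + Real.log (X1 ^ d + 1) + d) * ρ)) := by gcongr
        _ = a4 * ρ := by rw [ha4]; ring
    have e2 : C0 ^ 2 * (d * (((D.Y 0 ^ d : ℕ) : ℝ) / ((D.Y D.i0.succ : ℝ) ^ d * (D.Y 0 : ℝ) ^ d) +
        (1 / (D.Y D.i0.succ : ℝ) ^ d + 1 / (D.Y 0 : ℝ) ^ d) *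
        (1 + Real.log ((D.Y 0 ^ d : ℕ) : ℝ)) + 1 / T)) =
        C0 ^ 2 * (d * (((D.Y 0 ^ d : ℕ) : ℝ) / ((D.Y D.i0.succ : ℝ) ^ d * (D.Y 0 : ℝ) ^ d) +
        (1 / (D.Y D.i0.succ : ℝ) ^ d + 1 / (D.Y 0 : ℝ) ^ d) *
        (1 + Real.log ((D.Y 0 ^ d : ℕ) : ℝ)))) + C0 ^ 2 * (d * (1 / T)) := by ring
    rw [e2]
    linarith
  · have hA : 1 ≤ 2 * A0 * X1 + 1 := by
      have : 0 ≤ 2 * A0 * X1 := by positivity
      linarith
    have e1 : Real.log (((2 * A0 * X1 + 1) * B) ^ d) =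
        d * (Real.log (2 * A0 * X1 + 1) + Real.log B) := by
      rw [Real.log_pow, Real.log_mul (by linarith) hB0.ne']
    have k1 : Real.log (((2 * A0 * X1 + 1) * B) ^ d) ≤
        d * (Real.log (2 * A0 * X1 + 1) + 1) * (1 + Real.log B) := by
      rw [e1, mul_assoc (d : ℝ) (Real.log (2 * A0 * X1 + 1) + 1) (1 + Real.log B)]
      refine mul_le_mul_of_nonneg_left ?_ (by linarith only [hd0])
      have k5 := mul_nonneg hlA hlB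
      have k6 : (Real.log (2 * A0 * X1 + 1) + 1) * (1 + Real.log B) = Real.log (2 * A0 * X1 + 1) +
          Real.log (2 * A0 * X1 + 1) * Real.log B + 1 + Real.log B := by ring
      rw [k6]
      linarith only [k5]
    have k2 : 1 / (D.Y 0 : ℝ) ^ d + 1 / ((D.Y 0 ^ d : ℕ) : ℝ) ≤ 2 * 2 ^ d * m := by
      push_cast
      have := hDc 0
      linarith
    have k3 : 0 ≤ Real.log (((2 * A0 * X1 + 1) * B) ^ d) := by rw [e1]; positivity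
    calc C0 * (Real.log (((2 * A0 * X1 + 1) * B) ^ d) / Real.log 2 *
        (1 / (D.Y 0 : ℝ) ^ d + 1 / ((D.Y 0 ^ d : ℕ) : ℝ))) ≤
        C0 * (d * (Real.log (2 * A0 * X1 + 1) + 1) * (1 + Real.log B) / Real.log 2 *
          (2 * 2 ^ d * m)) := by gcongr
      _ = C0 * (d * (Real.log (2 * A0 * X1 + 1) + 1) / Real.log 2 * (2 * 2 ^ d)) *
          ((1 + Real.log B) * m) := by ring
      _ = a5 * ρ := by rw [ha5, hρd, hm]
      _ ≤ δ1 := by linarith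
  · refine (hDc _).trans ?_
    have : 2 ^ d * m ≤ a6 * ρ := by rw [ha6]; gcongr
    linarith
  · have h1 : ∑ c, 1 / (D.Y c : ℝ) ^ d ≤ (n + 1) * (2 ^ d * m) := by
      refine (Finset.sum_le_sum fun c _ => hDc c).trans ?_
      rw [Finset.sum_const, Finset.card_univ, Fintype.card_fin, nsmul_eq_mul]
      push_cast
      exact le_rfl
    calc Dg * (∑ c, 1 / (D.Y c : ℝ) ^ d) ≤ Dg * ((n + 1) * (2 ^ d * m)) := by gcongr
      _ = a7 * m := by rw [ha7]; ring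
      _ ≤ a7 * ρ := by gcongr
      _ ≤ δ1 := by linarith

end Pool.Agent.Q272.GL
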