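import Pool.Agent.Q272.GL.G

/-! # Auxiliary estimates for the construction -/

set_option autoImplicit false

open NumberField Height Function Filter

namespace Pool.Agent.Q272.GL

open Q241.AK Q265.NF Q265.BM LP

variable {K : Type*} [Field K] [NumberField K]

lemma fin_est {x : K} (hx : x ≠ 0) (h1 : ∀ v : FinitePlace K, v x ≤ 1)
    (E : Finset (FinitePlace K)) {κ : ℝ} (hκ : 0 < κ) (hκ1 : κ ≤ 1)
    (hE : ∀ v ∉ E, (N v)⁻¹ ≤ v x) (hE' : ∀ v ∈ E, κ ≤ v x) {B η c1 c2 : ℝ} (hB : 0 < B)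
    (hc1 : 1 ≤ c1) (hc2 : 1 ≤ c2) (hlow : ∀ w : InfinitePlace K, B ^ η / c1 ≤ w x)
    (hup : ∀ w : InfinitePlace K, w x ≤ c2 * B ^ η) {A : Set (FinitePlace K)} (hA : A.Finite)
    (hAE : ∀ v ∉ E, (v ∈ A ↔ v x < 1)) :
    |Real.log (PP A) - Module.finrank ℚ K * (η * Real.log B)| ≤
      Module.finrank ℚ K * Real.log c1 + Module.finrank ℚ K * Real.log c2 +
        E.card * Real.log κ⁻¹ + Real.log (PP (E : Set (FinitePlace K))) := by
  obtain ⟨d, hd⟩ : ∃ d, d = Module.finrank ℚ K := ⟨_, rfl⟩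
  have hBη : 0 < B ^ η := Real.rpow_pos_of_pos hB η
  have hBf : {v : FinitePlace K | v ∉ E ∧ v x < 1}.Finite := by
    refine (FinitePlace.hasFiniteMulSupport hx).subset fun v hv => ?_
    rw [mem_mulSupport]
    exact hv.2.ne
  have hcl := PP_close2 hA hBf E (by
    intro v hv
    rw [hAE v hv]
    exact ⟨fun h => ⟨hv, h⟩, fun h => h.2⟩)
  have hre := rad_est hx h1 E hκ hκ1 hE hE'
  have h2 : (B ^ η / c1) ^ d ≤ nm x := by
    rw [hd]
    exact le_nm (by positivity) hlow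
  have h3 : nm x ≤ (c2 * B ^ η) ^ d := by
    rw [hd]
    exact nm_le hup
  have p := nm_pos hx
  have g1 := Real.log_le_log (by positivity) h2
  have g2 := Real.log_le_log p h3
  rw [Real.log_pow, Real.log_div hBη.ne' (by positivity), Real.log_rpow hB] at g1
  rw [Real.log_pow, Real.log_mul (by positivity) hBη.ne', Real.log_rpow hB] at g2
  have q1 : 0 ≤ Real.log c1 := Real.log_nonneg hc1
  have q2 : 0 ≤ Real.log c2 := Real.log_nonneg hc2
  have q3 : 0 ≤ (E.card : ℝ) * Real.log κ⁻¹ :=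
    mul_nonneg (Nat.cast_nonneg _) (Real.log_nonneg ((one_le_inv₀ hκ).2 hκ1))
  have q4 : 0 ≤ (d : ℝ) * Real.log c1 := by positivity
  have q5 : 0 ≤ (d : ℝ) * Real.log c2 := by positivity
  rw [abs_le] at hcl
  rw [← hd, abs_le]
  constructor
  · have := hcl.1
    have := hre.1
    linarith
  · have := hcl.2
    have := hre.2
    linarith

/-- disjoint unions of two families -/
lemma PP_two {n r : ℕ} (f : Fin n → Set (FinitePlace K)) (g : Fin r → Set (FinitePlace K))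
    (hf : ∀ i, (f i).Finite) (hg : ∀ j, (g j).Finite)
    (hff : ∀ i i', i ≠ i' → Disjoint (f i) (f i')) (hgg : ∀ j j', j ≠ j' → Disjoint (g j) (g j'))
    (hfg : ∀ i j, Disjoint (f i) (g j)) :
    Real.log (PP ((⋃ i, f i) ∪ ⋃ j, g j)) =
      (∑ i, Real.log (PP (f i))) + ∑ j, Real.log (PP (g j)) := by
  have h1 := PP_disjU f hf hff
  have h2 := PP_disjU g hg hgg
  have h3 := PP_biUnion f hf
  have h4 := PP_biUnion g hg
  have h5 := PP_disj (Set.finite_iUnion hf) (Set.finite_iUnion hg) (by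
    rw [Set.disjoint_iUnion_left]
    intro i
    rw [Set.disjoint_iUnion_right]
    exact fun j => hfg i j)
  linarith

lemma dvd_norm {x : 𝓞 K} : x ∣ ((Ideal.absNorm (Ideal.span {x}) : ℕ) : 𝓞 K) :=
  Ideal.mem_span_singleton.1 (Ideal.absNorm_mem _)

lemma ex_G0 {ι : Type*} (s : Finset ι) (x : ι → 𝓞 K) (hx : ∀ i ∈ s, x i ≠ 0) :
    ∃ G0 : ℕ, 0 < G0 ∧ ∀ i ∈ s, x i ∣ (G0 : 𝓞 K) := by
  refine ⟨∏ i ∈ s, Ideal.absNorm (Ideal.span {x i}), ?_, fun i hi => ?_⟩
  · refine Finset.prod_pos fun i hi => Nat.pos_of_ne_zero ?_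
    rw [Ne, Ideal.absNorm_eq_zero_iff, Ideal.span_singleton_eq_bot]
    exact hx i hi
  · refine dvd_norm.trans ?_
    exact Nat.cast_dvd_cast (Finset.dvd_prod_of_mem _ hi)

end Pool.Agent.Q272.GL
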