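import Pool.Agent.Q272.GL.H

/-! # The construction of the points -/

set_option autoImplicit false

open NumberField Height Function Filter

namespace Pool.Agent.Q272.GL

open Q241.AK Q265.NF Q265.BM LP H57R3.VJ

/-- linear algebra data: `n` forms, `r` more forms, and coordinates -/
structure Base (K : Type*) [Field K] [NumberField K] (n r : ℕ) where
  L : Fin n → Fin (n + 1) → K
  M : Fin r → Fin (n + 1) → K
  P : Fin (n + 1) → Fin (n + 1) → K
  A : Fin (n + 1) → Fin (n + 1) → K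
  l : Fin r → K
  c : Fin r → Fin n → K
  i0 : Fin n
  hl : ∀ j, l j ≠ 0
  hc : ∀ j j', j ≠ j' → c j i0 ≠ c j' i0
  hL0 : ∀ i, L i ≠ 0
  hM0 : ∀ j, M j ≠ 0
  hL : ∀ x i, lin (L i) (fun c => lin (P c) x) = x i.succ
  hM : ∀ x j, lin (M j) (fun c => lin (P c) x) = l j * (x 0 - ∑ i, c j i * x i.succ)
  hPA : ∀ x k, lin (A k) (fun c => lin (P c) x) = x k

variable {K : Type*} [Field K] [NumberField K] {n r : ℕ}

lemma le_prod1 {m : ℕ} (f : Fin m → ℝ) (hf : ∀ i, 1 ≤ f i) (i : Fin m) : f i ≤ ∏ i, f i := by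
  rw [← Finset.mul_prod_erase Finset.univ f (Finset.mem_univ i)]
  refine le_mul_of_one_le_right (by linarith [hf i]) ?_
  have h1 : ∏ _j ∈ Finset.univ.erase i, (1 : ℝ) ≤ ∏ j ∈ Finset.univ.erase i, f j :=
    Finset.prod_le_prod (fun _ _ => zero_le_one) fun i _ => hf i
  rwa [Finset.prod_const_one] at h1

omit [NumberField K] in
lemma eval_bind (y : Fin (n + 1) → K) (f : Fin (n + 1) → MvPolynomial (Fin (n + 1)) K)
    (F : MvPolynomial (Fin (n + 1)) K) : MvPolynomial.eval y (MvPolynomial.bind₁ f F) =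
      MvPolynomial.eval (fun c => MvPolynomial.eval y (f c)) F := by
  rw [MvPolynomial.eval, MvPolynomial.eval₂Hom_bind₁]
  rfl

/-- the substitution -/
lemma subst_ne (Bs : Base K n r) (b : K) (hb : b ≠ 0) (F : MvPolynomial (Fin (n + 1)) K)
    (hF : F ≠ 0) : ∃ F' : MvPolynomial (Fin (n + 1)) K, F' ≠ 0 ∧
      ∀ (x0 : K) (z : Fin n → K), MvPolynomial.eval (Fin.cons x0 z : Fin (n + 1) → K) F' =
        MvPolynomial.eval (fun c => lin (Bs.P c) (Fin.cons x0 fun i => b * z i)) F := by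
  obtain ⟨e, he⟩ : ∃ e : Fin (n + 1) → K, e = Fin.cons 1 fun _ => b := ⟨_, rfl⟩
  have hcons : ∀ (x0 : K) (z : Fin n → K) k,
      e k * (Fin.cons x0 z : Fin (n + 1) → K) k = (Fin.cons x0 fun i => b * z i : Fin (n + 1) → K) k := by
    intro x0 z k
    rw [he]
    refine Fin.cases ?_ (fun i => ?_) k
    · simp
    · simp
  obtain ⟨F', hF'⟩ : ∃ F' : MvPolynomial (Fin (n + 1)) K, F' = MvPolynomial.bind₁
      (fun c => ∑ k, MvPolynomial.C (Bs.P c k * e k) * MvPolynomial.X k) F := ⟨_, rfl⟩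
  have hev : ∀ y : Fin (n + 1) → K, MvPolynomial.eval y F' =
      MvPolynomial.eval (fun c => ∑ k, Bs.P c k * e k * y k) F := by
    intro y
    have h1 : (fun c => ∑ k, Bs.P c k * e k * y k) = fun c => MvPolynomial.eval y
        (∑ k, MvPolynomial.C (Bs.P c k * e k) * MvPolynomial.X k) := by
      funext c
      rw [map_sum]
      refine Finset.sum_congr rfl fun k _ => ?_
      rw [map_mul, MvPolynomial.eval_C, MvPolynomial.eval_X]
    rw [h1, hF', eval_bind]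
  have hev2 : ∀ (x0 : K) (z : Fin n → K), MvPolynomial.eval (Fin.cons x0 z : Fin (n + 1) → K) F' =
        MvPolynomial.eval (fun c => lin (Bs.P c) (Fin.cons x0 fun i => b * z i)) F := by
    intro x0 z
    rw [hev]
    congr 2
    funext c
    unfold lin
    refine Finset.sum_congr rfl fun k _ => ?_
    rw [← hcons x0 z k]
    ring
  refine ⟨F', ?_, hev2⟩
  intro h0
  apply hF
  -- surjectivity of the linear map
  obtain ⟨T, hT⟩ : ∃ T : (Fin (n + 1) → K) →ₗ[K] (Fin (n + 1) → K),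
      T = Matrix.mulVecLin (Matrix.of Bs.P) := ⟨_, rfl⟩
  have hTx : ∀ x c, T x c = lin (Bs.P c) x := by
    intro x c
    rw [hT, Matrix.mulVecLin_apply]
    rfl
  have hinj : Injective T := by
    intro x y hxy
    funext k
    rw [← Bs.hPA x k, ← Bs.hPA y k]
    congr 1
    funext c
    rw [← hTx, ← hTx, hxy]
  have hsurj : Surjective T := LinearMap.injective_iff_surjective.1 hinj
  refine MvPolynomial.funext fun X => ?_
  obtain ⟨x, rfl⟩ := hsurj X
  rw [map_zero]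
  have h1 := hev2 (x 0) (fun i => x i.succ / b)
  rw [h0, map_zero] at h1
  have h2 : (Fin.cons (x 0) (fun i => b * (x i.succ / b)) : Fin (n + 1) → K) = x := by
    funext k
    refine Fin.cases ?_ (fun i => ?_) k
    · rw [Fin.cons_zero]
    · rw [Fin.cons_succ]
      field_simp
  rw [h2] at h1
  rw [h1]
  congr 2
  funext c
  exact hTx x c

theorem build (hr : 0 < r) (Bs : Base K n r) (S : Finset (FinitePlace K)) (θ : Fin n → ℝ)
    (φ : Fin r → ℝ) (hθ : ∀ i, 0 < θ i ∧ θ i < 1) (hφ : ∀ j, 0 < φ j ∧ φ j < 1) (σ : ℝ)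
    (hσ : σ = (∑ j, φ j) - (r - 1)) (hσ0 : 0 < σ) (hσ2 : ∀ j, φ j - θ Bs.i0 < 2 * σ)
    (F : MvPolynomial (Fin (n + 1)) K) (hF : F ≠ 0) :
    ∃ C : ℝ, ∀ᶠ B : ℝ in atTop, ∃ X : Fin (n + 1) → K, MvPolynomial.eval X F ≠ 0 ∧ X ≠ 0 ∧
      (∀ i, lin (Bs.L i) X ≠ 0) ∧ (∀ j, lin (Bs.M j) X ≠ 0) ∧
      |logHeight X - Module.finrank ℚ K * Real.log B| ≤ C ∧
      (∀ i, |Real.log (PP {v | v ∉ S ∧ H57R3.VJ.Meets (Bs.L i) X v}) -
        Module.finrank ℚ K * (θ i * Real.log B)| ≤ C) ∧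
      (∀ j, |Real.log (PP {v | v ∉ S ∧ H57R3.VJ.Meets (Bs.M j) X v}) -
        Module.finrank ℚ K * (φ j * Real.log B)| ≤ C) ∧
      |Real.log (PP {v | v ∉ S ∧ ((∃ i, H57R3.VJ.Meets (Bs.L i) X v) ∨
        ∃ j, H57R3.VJ.Meets (Bs.M j) X v)}) -
        Module.finrank ℚ K * (((∑ i, θ i) + ∑ j, φ j) * Real.log B)| ≤ C := by
  classical
  obtain ⟨d, hd⟩ : ∃ d, d = Module.finrank ℚ K := ⟨_, rfl⟩
  have hd1 : 1 ≤ d := by rw [hd]; exact Module.finrank_pos
  have hd0 : (0 : ℝ) < d := by exact_mod_cast hd1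
  obtain ⟨W, hW0, hW⟩ := exists_W K
  obtain ⟨V, hV0, hV⟩ := exists_V K
  -- common denominator
  obtain ⟨b', hb'⟩ := IsLocalization.exist_integer_multiples_of_finset (nonZeroDivisors (𝓞 K))
    (Finset.univ.image fun p : Fin r × Fin n => Bs.c p.1 p.2)
  obtain ⟨b, hbdef⟩ : ∃ b : 𝓞 K, b = b' := ⟨_, rfl⟩
  have hb : b ≠ 0 := by rw [hbdef]; exact nonZeroDivisors.ne_zero b'.2
  have hbK : (b : K) ≠ 0 := by exact_mod_cast hb
  have hγ' : ∀ j i, ∃ γ : 𝓞 K, (γ : K) = b * Bs.c j i := by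
    intro j i
    obtain ⟨γ, hγ⟩ := hb' (Bs.c j i)
      (Finset.mem_image_of_mem (fun p : Fin r × Fin n => Bs.c p.1 p.2) (Finset.mem_univ (j, i)))
    refine ⟨γ, ?_⟩
    rw [hbdef]
    exact hγ.trans (Algebra.smul_def _ _)
  choose γ hγ using hγ'
  have hγc : ∀ j i, (γ j i : K) / b = Bs.c j i := by
    intro j i
    rw [hγ]
    field_simp
  have hγne : ∀ j j', j ≠ j' → γ j Bs.i0 - γ j' Bs.i0 ≠ 0 := by
    intro j j' hjj h
    have h1 : (γ j Bs.i0 : K) = γ j' Bs.i0 := by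
      have := congrArg (fun t : 𝓞 K => (t : K)) h
      push_cast at this
      exact sub_eq_zero.1 this
    rw [hγ, hγ] at h1
    exact Bs.hc j j' hjj (mul_left_cancel₀ hbK h1)
  obtain ⟨G0, hG00, hG0⟩ := ex_G0
    ((Finset.univ : Finset (Fin r × Fin r)).filter fun a => a.1 ≠ a.2)
    (fun a => γ a.1 Bs.i0 - γ a.2 Bs.i0) (fun a ha => hγne _ _ (Finset.mem_filter.1 ha).2)
  -- primes
  obtain ⟨p, hpdef⟩ : ∃ p : Fin r → ℕ, p = fun j : Fin r => Nat.nth Nat.Prime (G0 + j) := ⟨_, rfl⟩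
  obtain ⟨q, hqdef⟩ : ∃ q : Fin n → ℕ, q = fun i : Fin n => Nat.nth Nat.Prime (G0 + r + i) :=
    ⟨_, rfl⟩
  have hp : ∀ j, (p j).Prime := fun j => by rw [hpdef]; exact Nat.prime_nth_prime _
  have hq : ∀ i, (q i).Prime := fun i => by rw [hqdef]; exact Nat.prime_nth_prime _
  have hpi : Injective p := by
    intro j j' h
    rw [hpdef] at h
    have := Nat.nth_injective Nat.infinite_setOfPred_prime h
    exact Fin.ext (by omega)
  have hpq : ∀ j i, p j ≠ q i := by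
    intro j i h
    rw [hpdef, hqdef] at h
    have := Nat.nth_injective Nat.infinite_setOfPred_prime h
    have := j.2
    omega
  have hpG : ∀ j, ¬ p j ∣ G0 := by
    intro j h
    have h1 := Nat.le_of_dvd hG00 h
    have h2 : G0 + j + 2 ≤ p j := by rw [hpdef]; exact Nat.add_two_le_nth_prime _
    omega
  have hqG : ∀ i, ¬ q i ∣ G0 := by
    intro i h
    have h1 := Nat.le_of_dvd hG00 h
    have h2 : G0 + r + i + 2 ≤ q i := by rw [hqdef]; exact Nat.add_two_le_nth_prime _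
    omega
  -- the constants
  obtain ⟨M1, hM1⟩ : ∃ M1 : ℕ, W + 1 ≤ M1 := exists_nat_ge _
  obtain ⟨X1, hX1⟩ : ∃ X1 : ℝ, X1 = M1 + W := ⟨_, rfl⟩
  have hX1p : 1 ≤ X1 := by rw [hX1]; linarith [(Nat.cast_nonneg M1 : (0 : ℝ) ≤ M1)]
  obtain ⟨A0, hA0⟩ : ∃ A0 : ℝ, A0 = ∑ w : InfinitePlace K, (w (b : K) +
      ∑ j, ∑ i, w (γ j i : K)) := ⟨_, rfl⟩
  have hA0w : ∀ w : InfinitePlace K, w (b : K) ≤ A0 ∧ ∀ j, ∑ i, w (γ j i : K) ≤ A0 := by
    intro w
    have h1 : w (b : K) + ∑ j, ∑ i, w (γ j i : K) ≤ A0 := by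
      rw [hA0]
      exact Finset.single_le_sum (f := fun w : InfinitePlace K => w (b : K) +
        ∑ j, ∑ i, w (γ j i : K)) (fun w _ => by positivity) (Finset.mem_univ w)
    have h2 : 0 ≤ w (b : K) := apply_nonneg _ _
    have h3 : 0 ≤ ∑ j, ∑ i, w (γ j i : K) := by positivity
    refine ⟨by linarith, fun j => ?_⟩
    have h4 : ∑ i, w (γ j i : K) ≤ ∑ j, ∑ i, w (γ j i : K) :=
      Finset.single_le_sum (f := fun j => ∑ i, w (γ j i : K)) (fun j _ => by positivity)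
        (Finset.mem_univ j)
    linarith
  have hA00 : 0 ≤ A0 := by rw [hA0]; positivity
  obtain ⟨M2, hM2⟩ : ∃ M2 : ℕ, 2 * W + 2 * (A0 * (M1 + W) + 1) ≤ M2 := exists_nat_ge _
  obtain ⟨C1, hC1⟩ : ∃ C1 : ℝ, C1 = M2 + 2 * W + A0 * (M1 + W) := ⟨_, rfl⟩
  have hC1p : 1 ≤ C1 := by
    have h1 : 0 ≤ A0 * (M1 + W) := by positivity
    rw [hC1]
    linarith [(Nat.cast_nonneg M2 : (0 : ℝ) ≤ M2)]
  obtain ⟨F', hF'0, hF'⟩ := subst_ne Bs (b : K) hbK F hF
  obtain ⟨Dg, hDg0, hDg⟩ := poly_dens F' hF'0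
  -- epsilon
  obtain ⟨ε1, hε10, hε1⟩ := pos_lower (Finset.univ : Finset (Fin n)) (fun i => θ i / 2)
    (fun i _ => by linarith [(hθ i).1])
  obtain ⟨ε2, hε20, hε2⟩ := pos_lower (Finset.univ : Finset (Fin r))
    (fun j => (2 * σ - (φ j - θ Bs.i0)) / 2) (fun j _ => by linarith [hσ2 j])
  obtain ⟨ε0, hε0d⟩ : ∃ ε0 : ℝ, ε0 = min (min ε1 ε2) (σ / 2) := ⟨_, rfl⟩
  have hε0 : 0 < ε0 := by rw [hε0d]; exact lt_min (lt_min hε10 hε20) (by linarith)
  have hε0a : ε0 ≤ ε1 := by rw [hε0d]; exact (min_le_left _ _).trans (min_le_left _ _)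
  have hε0b : ε0 ≤ ε2 := by rw [hε0d]; exact (min_le_left _ _).trans (min_le_right _ _)
  have hε0c : ε0 ≤ σ / 2 := by rw [hε0d]; exact min_le_right _ _
  obtain ⟨e, he⟩ : ∃ e : ℝ, e = d * ε0 := ⟨_, rfl⟩
  have he0 : 0 < e := by rw [he]; positivity
  obtain ⟨C0, hC0⟩ : ∃ C0 : ℝ, C0 = (4 * W) ^ d := ⟨_, rfl⟩
  have hC0p : 0 < C0 := by rw [hC0]; positivity
  obtain ⟨Nev, hNev⟩ : ∃ Nev : ℝ, Nev = n + 2 * r + n * n + n * r + 3 * (r * r) + 1 := ⟨_, rfl⟩
  have hNev1 : 1 ≤ Nev := by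
    rw [hNev]
    have : (0 : ℝ) ≤ n + 2 * r + n * n + n * r + 3 * (r * r) := by positivity
    linarith
  obtain ⟨δ1, hδ1⟩ : ∃ δ1 : ℝ, δ1 = 1 / (4 * Nev) := ⟨_, rfl⟩
  have hδ10 : 0 < δ1 := by rw [hδ1]; positivity
  obtain ⟨T, hT⟩ : ∃ T : ℕ, 2 * C0 ^ 2 * d / δ1 + 1 ≤ T := exists_nat_ge _
  have hT1 : 1 ≤ T := by
    have h1 : 0 ≤ 2 * C0 ^ 2 * d / δ1 := by positivity
    have : (1 : ℝ) ≤ T := by linarith
    exact_mod_cast this
  have hT0 : (0 : ℝ) < T := by exact_mod_cast hT1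
  have hTδ : C0 ^ 2 * (d * (1 / T)) ≤ δ1 / 2 := by
    have h1 : 2 * C0 ^ 2 * d / δ1 ≤ T := by linarith
    rw [div_le_iff₀ hδ10] at h1
    have h2 : C0 ^ 2 * (d * (1 / T)) = C0 ^ 2 * d / T := by ring
    rw [h2, div_le_iff₀ hT0]
    linarith
  -- the exceptional set
  have hG0K : (G0 : K) ≠ 0 := by exact_mod_cast hG00.ne'
  have hex : ∃ E : Finset (FinitePlace K), ∀ v ∉ E, (¬ Nn v ≤ T) ∧ v ∉ S ∧ v (b : K) = 1 ∧
      (∀ j, v (p j : K) = 1) ∧ (∀ i, v (q i : K) = 1) ∧ v (G0 : K) = 1 ∧ (∀ j, v (Bs.l j) = 1) ∧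
      (∀ i, sv v (Bs.L i) = 1) ∧ (∀ j, sv v (Bs.M j) = 1) ∧ (∀ c k, v (Bs.P c k) ≤ 1) ∧
      ∀ c k, v (Bs.A c k) ≤ 1 := by
    have one : ∀ x : K, x ≠ 0 → ∀ᶠ v : FinitePlace K in cofinite, v x = 1 := fun x hx =>
      eventually_cofinite.2 (FinitePlace.hasFiniteMulSupport hx)
    have le : ∀ x : K, ∀ᶠ v : FinitePlace K in cofinite, v x ≤ 1 := fun x => by
      refine eventually_cofinite.2 ((gt_one_fin x).subset fun v hv => ?_)
      exact not_le.1 hv
    have e1 : ∀ᶠ v : FinitePlace K in cofinite, ¬ Nn v ≤ T := by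
      refine eventually_cofinite.2 ((finite_norm_le (K := K) T).subset fun v hv => ?_)
      exact not_not.1 hv
    have e2 : ∀ᶠ v : FinitePlace K in cofinite, v ∉ S := by
      refine eventually_cofinite.2 (S.finite_toSet.subset fun v hv => ?_)
      exact not_not.1 hv
    have hall := ((((((((((e1.and e2).and (one _ hbK)).and
      (eventually_all.2 fun j => one (p j : K) (by exact_mod_cast (hp j).ne_zero))).and
      (eventually_all.2 fun i => one (q i : K) (by exact_mod_cast (hq i).ne_zero))).and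
      (one _ hG0K)).and (eventually_all.2 fun j => one _ (Bs.hl j))).and
      (eventually_all.2 fun i => eventually_cofinite.2 (sv_fin (Bs.hL0 i)))).and
      (eventually_all.2 fun j => eventually_cofinite.2 (sv_fin (Bs.hM0 j)))).and
      (eventually_all.2 fun c => eventually_all.2 fun k => le (Bs.P c k))).and
      (eventually_all.2 fun c => eventually_all.2 fun k => le (Bs.A c k)))
    rw [eventually_cofinite] at hall
    refine ⟨hall.toFinset, fun v hv => ?_⟩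
    rw [Set.Finite.mem_toFinset] at hv
    have h := not_not.1 hv
    obtain ⟨⟨⟨⟨⟨⟨⟨⟨⟨⟨h1, h2⟩, h3⟩, h4⟩, h5⟩, h6⟩, h7⟩, h8⟩, h9⟩, h10⟩, h11⟩ := h
    exact ⟨h1, h2, h3, h4, h5, h6, h7, h8, h9, h10, h11⟩
  obtain ⟨E, hE⟩ := hex
  have hET : ∀ v : FinitePlace K, Nn v ≤ T → v ∈ E := fun v hv => by
    by_contra h
    exact (hE v h).1 hv
  -- kappa
  obtain ⟨κ, hκd⟩ : ∃ κ : ℝ, κ = min 1 (1 / (8 * C0 * ((n + r + 1) * (E.card + 1)))) := ⟨_, rfl⟩
  have hκ0 : 0 < κ := by rw [hκd]; exact lt_min one_pos (by positivity)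
  have hκ1 : κ ≤ 1 := by rw [hκd]; exact min_le_left _ _
  have hκE : ((n : ℝ) + r) * E.card * (2 * C0 * κ) ≤ 1 / 4 := by
    have h1 : κ ≤ 1 / (8 * C0 * ((n + r + 1) * (E.card + 1))) := by rw [hκd]; exact min_le_right _ _
    rw [le_div_iff₀ (by positivity)] at h1
    have h2 : ((n : ℝ) + r) * E.card ≤ (n + r + 1) * (E.card + 1) :=
      mul_le_mul (by linarith) (by linarith) (Nat.cast_nonneg _) (by positivity)
    have h3 : ((n : ℝ) + r) * E.card * (2 * C0 * κ) ≤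
        ((n + r + 1) * (E.card + 1)) * (2 * C0 * κ) := by gcongr
    linarith
  obtain ⟨ks, hks⟩ : ∃ ks : ℕ, (1 / 2 : ℝ) ^ ks < κ := exists_pow_lt_of_lt_one hκ0 (by norm_num)
  obtain ⟨κ', hκ'0, hκ'⟩ := pos_lower E (fun v => κ * v (b : K))
    (fun v _ => mul_pos hκ0 (FinitePlace.pos_iff.2 hbK))
  obtain ⟨cb, hcb0, hcb⟩ := pos_lower (Finset.univ : Finset (InfinitePlace K)) (fun w => w (b : K))
    (fun w _ => InfinitePlace.pos_iff.2 hbK)
  obtain ⟨cp, hcp⟩ : ∃ cp : ℝ, cp = (∏ j, (p j : ℝ)) * ∏ i, (q i : ℝ) := ⟨_, rfl⟩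
  have hp1 : ∀ j, (1 : ℝ) < p j := fun j => by exact_mod_cast (hp j).one_lt
  have hq1 : ∀ i, (1 : ℝ) < q i := fun i => by exact_mod_cast (hq i).one_lt
  have hPp : (1 : ℝ) ≤ ∏ j, (p j : ℝ) := Finset.one_le_prod fun j _ => (hp1 j).le
  have hPq : (1 : ℝ) ≤ ∏ i, (q i : ℝ) := Finset.one_le_prod fun i _ => (hq1 i).le
  have hcp1 : 1 ≤ cp := by rw [hcp]; exact one_le_mul_of_one_le_of_one_le hPp hPq
  have hpcp : ∀ j, (p j : ℝ) ≤ cp := by
    intro j
    have h1 : (p j : ℝ) ≤ ∏ j, (p j : ℝ) := le_prod1 (fun j => (p j : ℝ)) (fun j => (hp1 j).le) j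
    rw [hcp]
    exact h1.trans (le_mul_of_one_le_right (by linarith) hPq)
  have hqcp : ∀ i, (q i : ℝ) ≤ cp := by
    intro i
    have h1 : (q i : ℝ) ≤ ∏ i, (q i : ℝ) := le_prod1 (fun i => (q i : ℝ)) (fun i => (hq1 i).le) i
    rw [hcp]
    exact h1.trans (le_mul_of_one_le_left (by linarith) hPp)
  obtain ⟨BC, hBC⟩ : ∃ BC : ℝ, BC = ((4 * W) ^ d * (d * (((∑ i, (X1 * q i) ^ d) + 1) * 2 ^ d)) +
      (4 * W) ^ d * (d * (2 * 2 ^ d)) +
      2 ^ d * (2 * (4 * W) ^ d * (5 * V) ^ d * d) * (2 * C1) ^ d * (1 + 2 ^ d) +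
      ((4 * W) ^ d) ^ 2 * (d * ((X1 ^ d + 1) * 2 ^ d +
        2 * 2 ^ d * (1 + Real.log (X1 ^ d + 1) + d))) +
      (4 * W) ^ d * (d * (Real.log (2 * A0 * X1 + 1) + 1) / Real.log 2 * (2 * 2 ^ d)) +
      2 ^ d + Dg * ((n + 1) * 2 ^ d)) := ⟨_, rfl⟩
  have hBC0 : 0 < BC := by
    have h1 : 0 ≤ Real.log (X1 ^ d + 1) := Real.log_nonneg (by
      have : 0 ≤ X1 ^ d := by positivity
      linarith)
    have h2 : 0 ≤ Real.log (2 * A0 * X1 + 1) := Real.log_nonneg (by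
      have : 0 ≤ 2 * A0 * X1 := by positivity
      linarith)
    have h3 : 0 < Real.log 2 := Real.log_pos (by norm_num)
    rw [hBC]
    positivity
  -- the constant
  obtain ⟨CP, hCP⟩ : ∃ CP : ℝ, CP = totalWeight K * Real.log (Nat.card (Fin (n + 1))) +
      logHeight (fun p : Fin (n + 1) × Fin (n + 1) => Bs.P p.1 p.2) := ⟨_, rfl⟩
  obtain ⟨CA, hCA⟩ : ∃ CA : ℝ, CA = totalWeight K * Real.log (Nat.card (Fin (n + 1))) +
      logHeight (fun p : Fin (n + 1) × Fin (n + 1) => Bs.A p.1 p.2) := ⟨_, rfl⟩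
  obtain ⟨Cx, hCx⟩ : ∃ Cx : ℝ, Cx = C1 + A0 * X1 := ⟨_, rfl⟩
  have hCx0 : 1 ≤ Cx := by
    rw [hCx]
    have : 0 ≤ A0 * X1 := by positivity
    linarith
  obtain ⟨c2, hc2⟩ : ∃ c2 : ℝ, c2 = (X1 + C1) * cp := ⟨_, rfl⟩
  have hc21 : 1 ≤ c2 := by rw [hc2]; exact one_le_mul_of_one_le_of_one_le (by linarith) hcp1
  obtain ⟨Cf, hCf⟩ : ∃ Cf : ℝ, Cf = d * Real.log 2 + d * Real.log c2 + E.card * Real.log κ⁻¹ +
      Real.log (PP (E : Set (FinitePlace K))) := ⟨_, rfl⟩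
  have hlκ : 0 ≤ Real.log κ⁻¹ := Real.log_nonneg ((one_le_inv₀ hκ0).2 hκ1)
  have hlPE := log_PP_nonneg (E : Set (FinitePlace K))
  have hlc2 : 0 ≤ Real.log c2 := Real.log_nonneg hc21
  have hl2 : 0 ≤ Real.log 2 := Real.log_nonneg (by norm_num)
  have hCf0 : 0 ≤ Cf := by rw [hCf]; positivity
  have hCfE : Real.log (PP (E : Set (FinitePlace K))) ≤ Cf := by
    rw [hCf]
    have : 0 ≤ d * Real.log 2 + d * Real.log c2 + E.card * Real.log κ⁻¹ := by positivity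
    linarith
  refine ⟨|CP| + |CA| + d * |Real.log Cx| + d * |Real.log (cb / 2)| +
    E.card * |Real.log κ'⁻¹| + (n + r + 1) * Cf, ?_⟩
  -- eventual conditions
  have ev1 : ∀ᶠ B : ℝ in atTop, ∀ i, 2 ≤ B ^ θ i := eventually_all.2 fun i =>
    (tendsto_rpow_atTop (hθ i).1).eventually (eventually_ge_atTop (2 : ℝ))
  have ev2 := (tendsto_rpow_atTop hσ0).eventually (eventually_ge_atTop (2 : ℝ))
  have ev3 : ∀ᶠ B : ℝ in atTop, ∀ j, (p j : ℝ) ^ (ks + 1) ≤ B ^ (1 - φ j) :=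
    eventually_all.2 fun j => (tendsto_rpow_atTop (by linarith [(hφ j).2] :
      (0 : ℝ) < 1 - φ j)).eventually (eventually_ge_atTop _)
  have ev4 := rho_ev he0 (div_pos (lt_min (half_pos hδ10) hκ0) hBC0)
  filter_upwards [eventually_gt_atTop (1 : ℝ), ev1, ev2, ev3, ev4] with B hB1 ev1 ev2 ev3 ev4
  have hB0 : 0 < B := by linarith
  rw [le_div_iff₀ hBC0, mul_comm] at ev4
  choose k hk1 hk2 using fun j => expo (hp j) (by linarith [(hφ j).2] : (0 : ℝ) < 1 - φ j) hB1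
  choose s hs1 hs2 using fun i => expo (hq i) (by linarith [(hθ i).2] : (0 : ℝ) < 1 - θ i) hB1
  choose Yi hYi1 hYi2 hYi3 hYi4 hYi5 using fun i => floorY (Q := q i ^ s i)
    (pow_pos (hq i).pos _) (η := θ i) hB0 (by push_cast; exact hs1 i) (ev1 i)
  have hksk : ∀ j, ks ≤ k j := by
    intro j
    have h1 := (ev3 j).trans (hk2 j)
    rw [← pow_succ] at h1
    have h2 := (pow_le_pow_iff_right₀ (hp1 j)).1 h1
    omega
  have hsumφ : ∑ j, (1 - φ j) = 1 - σ := by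
    rw [Finset.sum_sub_distrib, Finset.sum_const, Finset.card_univ, Fintype.card_fin, hσ]
    simp
    ring
  have hQdB : ((∏ j, p j ^ k j : ℕ) : ℝ) ≤ B ^ (1 - σ) := by
    rw [← hsumφ, Real.rpow_sum_of_pos hB0]
    push_cast
    exact Finset.prod_le_prod (fun j _ => by positivity) fun j _ => hk1 j
  obtain ⟨Y0, hY01, hY02, hY03, hY04, hY05⟩ := floorY (Q := ∏ j, p j ^ k j)
    (Finset.prod_pos fun j _ => pow_pos (hp j).pos _) hB0 hQdB ev2
  obtain ⟨D, hDγ, hDp, hDk, hDb, hDs, hDY0, hDYi, hDM1, hDM2, hDi0, hDG0, hDW⟩ :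
      ∃ D : Dat K n r, D.γ = γ ∧ D.p = p ∧ D.k = k ∧ D.b = q ∧ D.s = s ∧ D.Y 0 = Y0 ∧
        (∀ i, D.Y i.succ = Yi i) ∧ D.M1 = M1 ∧ D.M2 = M2 ∧ D.i0 = Bs.i0 ∧ D.G0 = G0 ∧ D.W = W :=
    ⟨{ γ := γ, p := p, k := k, b := q, s := s, Y := Fin.cons Y0 Yi, M1 := M1, M2 := M2,
       i0 := Bs.i0, G0 := G0, W := W, hp := hp, hpi := hpi, hb := hq, hpb := hpq,
       hY := fun c => by
        refine Fin.cases ?_ (fun i => ?_) c
        · rw [Fin.cons_zero]; exact hY01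
        · rw [Fin.cons_succ]; exact hYi1 i
       hG0 := hG00
       hγ := fun j j' hjj => hG0 (j, j') (Finset.mem_filter.2 ⟨Finset.mem_univ _, hjj⟩)
       hpG := hpG, hbG := hqG, hW0 := hW0, hW := hW },
     rfl, rfl, rfl, rfl, rfl, rfl, fun _ => rfl, rfl, rfl, rfl, rfl, rfl⟩
  have hDQd : D.Qd = ∏ j, p j ^ k j := by unfold Dat.Qd; rw [hDp, hDk]
  have hY0B : (Y0 : ℝ) ≤ B := by
    refine hY05.trans (div_le_self hB0.le ?_)
    have : 0 < ∏ j, p j ^ k j := Finset.prod_pos fun j _ => pow_pos (hp j).pos _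
    exact_mod_cast this
  have hYiB : ∀ i, (Yi i : ℝ) ≤ B := by
    intro i
    refine (hYi5 i).trans (div_le_self hB0.le ?_)
    have : 0 < q i ^ s i := pow_pos (hq i).pos _
    exact_mod_cast this
  have hYiu : ∀ i, (Yi i : ℝ) ≤ q i * B ^ θ i := by
    intro i
    refine (hYi5 i).trans ?_
    have h0 : (0 : ℝ) < ((q i ^ s i : ℕ) : ℝ) := by exact_mod_cast pow_pos (hq i).pos _
    rw [div_le_iff₀ h0]
    have h1 : B ^ θ i * B ^ (1 - θ i) = B := by
      rw [← Real.rpow_add hB0]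
      simp
    push_cast
    calc B = B ^ θ i * B ^ (1 - θ i) := h1.symm
      _ ≤ B ^ θ i * ((q i : ℝ) ^ s i * q i) := by
          have := hs2 i
          gcongr
      _ = _ := by ring
  have hsize1 : ∀ i, (D.b i : ℝ) ^ D.s i * D.Y i.succ ≤ B := by
    intro i
    rw [hDb, hDs, hDYi]
    have := hYi2 i
    push_cast at this
    exact this
  have hsize2 : ∀ i, B / 2 ≤ (D.b i : ℝ) ^ D.s i * D.Y i.succ := by
    intro i
    rw [hDb, hDs, hDYi]
    have := hYi3 i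
    push_cast at this
    exact this
  have hsize3 : (D.Qd : ℝ) * D.Y 0 ≤ B := by rw [hDQd, hDY0]; exact hY02
  have hsize4 : B / 2 ≤ (D.Qd : ℝ) * D.Y 0 := by rw [hDQd, hDY0]; exact hY03
  have hA0D : ∀ (w : InfinitePlace K) (j : Fin r), ∑ i, w (D.γ j i : K) ≤ A0 := by
    intro w j
    rw [hDγ]
    exact (hA0w w).2 j
  have hM1D : D.W + 1 ≤ D.M1 := by rw [hDW, hDM1]; exact hM1
  have hM2D : 2 * D.W + 2 * (A0 * (D.M1 + D.W) + 1) ≤ D.M2 := by
    rw [hDW, hDM1, hDM2]; exact hM2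
  have hC1D : C1 = D.M2 + 2 * D.W + A0 * (D.M1 + D.W) := by rw [hDW, hDM1, hDM2]; exact hC1
  have hX1D : X1 = D.M1 + D.W := by rw [hDW, hDM1]; exact hX1
  have hppos : ∀ j, (0 : ℝ) < (D.p j : ℝ) ^ D.k j := by
    intro j
    have : (0 : ℝ) < D.p j := by exact_mod_cast (D.hp j).pos
    positivity
  have hQj : ∀ j, (D.Q' j : ℝ) ≤ B ^ (φ j - σ) := by
    intro j
    have h1 : ∑ i ∈ Finset.univ.erase j, (1 - φ i) = φ j - σ := by
      have := Finset.add_sum_erase Finset.univ (fun i => 1 - φ i) (Finset.mem_univ j)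
      rw [hsumφ] at this
      linarith
    rw [← h1, Real.rpow_sum_of_pos hB0]
    unfold Dat.Q'
    rw [hDp, hDk]
    push_cast
    exact Finset.prod_le_prod (fun j _ => by positivity) fun j _ => hk1 j
  have hQ2 : ∀ j, B / (D.p j : ℝ) ^ D.k j ≤ 2 * (D.Q' j * D.Y 0) := by
    intro j
    rw [div_le_iff₀ (hppos j)]
    have h1 : (D.Qd : ℝ) = (D.p j : ℝ) ^ D.k j * D.Q' j := by
      rw [D.Qd_eq j]
      push_cast
      rfl
    have h2 := hsize4
    rw [h1] at h2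
    linarith
  obtain ⟨Z1, Z5, Za, Z6, hZ6, hZa, hZ1, hZ5, g1, g2, g3, g4, g5, g6, g7, g8, g9⟩ :=
    nums D V hV0 d hd T κ B A0 C1 e Dg X1 hκ0 hA00 hC1p he0 hDg0 hX1p θ φ σ ε0 he hε0 hB1.le
      (fun i => by have := hε1 i (Finset.mem_univ i); linarith)
      (by linarith)
      (fun j => by
        have := hε2 j (Finset.mem_univ j)
        rw [hDi0]
        linarith)
      (fun i => by rw [hDYi]; exact hYi4 i) (by rw [hDY0]; exact hY04)
      (fun i => by rw [hDYi, hDb]; exact hYiu i)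
      (fun c => by
        refine Fin.cases ?_ (fun i => ?_) c
        · rw [hDY0]; exact hY0B
        · rw [hDYi]; exact hYiB i)
      hQj hQ2 δ1 hδ10 (by rw [hDW, ← hC0]; exact hTδ) (by
        rw [hDW, hDb, ← hBC]
        exact ev4)
  have hAX : 2 * (A0 * ((D.M1 + D.W) * B)) ≤ (2 * A0 * X1 + 1) * B := by
    rw [← hX1D]
    have : 2 * (A0 * (X1 * B)) = 2 * A0 * X1 * B := by ring
    rw [this, add_mul]
    linarith
  have hAX1 : 1 ≤ (2 * A0 * X1 + 1) * B := by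
    have h1 : 0 ≤ 2 * A0 * X1 := by positivity
    exact one_le_mul_of_one_le_of_one_le (by linarith) hB1.le
  obtain ⟨f, hfO, t1, t2, t3, t4, t5, t6⟩ := D.good V hV0 hV F' Dg hDg E T hT1 hET
    (fun j v hv => by rw [hDp]; exact (hE v hv).2.2.2.1 j)
    (fun i v hv => by rw [hDb]; exact (hE v hv).2.2.2.2.1 i)
    (fun v hv => by rw [hDG0]; exact (hE v hv).2.2.2.2.2.1) κ hκ0
    (by
      intro v _ j hvj
      rw [hDp] at hvj
      rw [hDp, hDk]
      have hne : (p j : K) ≠ 0 := by exact_mod_cast (hp j).ne_zero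
      have h1 := v_le_inv v hne hvj
      have h2 : (N v)⁻¹ ≤ 1 / 2 := by
        have h3 : (2 : ℝ) ≤ N v := by
          rw [N_eq]
          exact_mod_cast Nn_pos v
        rw [one_div]
        exact inv_anti₀ (by norm_num) h3
      calc v (p j : K) ^ k j ≤ (1 / 2 : ℝ) ^ k j :=
            pow_le_pow_left₀ (by positivity) (h1.trans h2) _
        _ ≤ (1 / 2 : ℝ) ^ ks := pow_le_pow_of_le_one (by norm_num) (by norm_num) (hksk j)
        _ < κ := hks)
    hM1D hsize1 hsize2 hA0D hA00 hsize3 hsize4 hM2D hC1D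
    (by
      intro j
      have h1 : 1 ≤ B / (D.p j : ℝ) ^ D.k j := by
        rw [one_le_div (hppos j), hDp, hDk]
        refine (hk1 j).trans ?_
        calc B ^ (1 - φ j) ≤ B ^ (1 : ℝ) :=
              Real.rpow_le_rpow_of_exponent_le hB1.le (by linarith [(hφ j).1])
          _ = B := Real.rpow_one B
      exact one_le_mul_of_one_le_of_one_le hC1p h1)
    Z1 Z5 Za Z6 (((2 * A0 * X1 + 1) * B) ^ d) δ1 (2 * (4 * D.W) ^ d * κ)
    (one_le_pow₀ hAX1) hZ6 hZa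
    (by rw [← hX1D, ← hd]; exact hZ1) (by rw [← hX1D, ← hd]; exact hZ5)
    (by
      rw [← hd]
      have hDW0 : 0 < D.W := by linarith [D.hW0]
      exact pow_le_pow_left₀ (by positivity) hAX d)
    (by rw [← hd]; exact g1) (by rw [← hd]; exact g2) (by rw [← hd]; exact g3)
    (by rw [← hd]; exact g4) (by rw [← hd]; exact g5) (by rw [← hd]; exact g6)
    (by rw [← hd]; exact g7) (by rw [← hd]; exact g8) (by rw [← hd]; exact g9)
    (by
      rw [hDW, ← hC0, ← hNev]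
      have h1 : Nev * δ1 = 1 / 4 := by
        rw [hδ1]
        field_simp
      rw [h1]
      have h2 : ((n : ℝ) + r) * E.card * (2 * C0 * κ) ≤ 1 / 4 := hκE
      linarith)
  have hgood : LDat.Good D E κ f := ⟨fun i => (t1 i).1, fun i => (t1 i).2, fun j => (t2 j).1,
    fun j => (t2 j).2, t3, t4, t5⟩
  obtain ⟨Λ, hΛL, hΛM, hΛP, hΛA, hΛl, hΛb⟩ : ∃ Λ : LDat D, Λ.L = Bs.L ∧ Λ.M = Bs.M ∧
      Λ.P = Bs.P ∧ Λ.A = Bs.A ∧ Λ.l = Bs.l ∧ Λ.b = b :=
    ⟨{ L := Bs.L, M := Bs.M, P := Bs.P, A := Bs.A, l := Bs.l, b := b, hb0 := hb, hl := Bs.hl,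
       hL := Bs.hL
       hM := fun x j => by
        rw [Bs.hM]
        congr 2
        refine Finset.sum_congr rfl fun i _ => ?_
        rw [hDγ, hγc]
       hPA := Bs.hPA }, rfl, rfl, rfl, rfl, rfl, rfl⟩
  have hExc : LDat.Exc D Λ E S :=
    { S := fun v hv => by
        by_contra h
        exact (hE v h).2.1 hv
      p := fun j v hv => by rw [hDp]; exact (hE v hv).2.2.2.1 j
      b := fun i v hv => by rw [hDb]; exact (hE v hv).2.2.2.2.1 i
      bb := fun v hv => by rw [hΛb]; exact (hE v hv).2.2.1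
      l := fun j v hv => by rw [hΛl]; exact (hE v hv).2.2.2.2.2.2.1 j
      L := fun i v hv => by rw [hΛL]; exact (hE v hv).2.2.2.2.2.2.2.1 i
      M := fun j v hv => by rw [hΛM]; exact (hE v hv).2.2.2.2.2.2.2.2.1 j
      P := fun c k v hv => by rw [hΛP]; exact (hE v hv).2.2.2.2.2.2.2.2.2.1 c k
      A := fun c k v hv => by rw [hΛA]; exact (hE v hv).2.2.2.2.2.2.2.2.2.2 c k }
  obtain ⟨j1, -⟩ : ∃ j1 : Fin r, j1 = ⟨0, hr⟩ := ⟨_, rfl⟩
  obtain ⟨w0⟩ : Nonempty (InfinitePlace K) := inferInstance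
  have hws := D.w_size hM1D f hfO
  have hzs := D.z_size hM1D hsize1 hsize2 f hfO
  have hys := D.y_size hM1D hsize1 hsize2 hA0D hA00 hsize3 hsize4 hM2D f hfO
  rw [← hC1D] at hys
  have hxs := D.x0_size hM1D hsize1 hsize2 hA0D hA00 hsize3 hsize4 hM2D f hfO
  rw [← hC1D] at hxs
  rw [← hX1D] at hws hzs
  have hwne : ∀ i, (D.w f i : K) ≠ 0 := by
    intro i h
    have h1 := (hws i w0).1
    rw [h, map_zero] at h1
    have : (1 : ℝ) ≤ D.Y i.succ := by exact_mod_cast D.hY i.succ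
    linarith
  have hyne : ∀ j, (D.y f j : K) ≠ 0 := by
    intro j h
    have h1 := (hys w0 j).1
    rw [h, map_zero] at h1
    have := div_pos hB0 (hppos j)
    linarith
  have hLX : ∀ i, lin (Bs.L i) (Λ.pt f) ≠ 0 := by
    intro i
    rw [← hΛL, Λ.lin_L, hΛb]
    have h1 : (D.b i : K) ≠ 0 := by exact_mod_cast (D.hb i).ne_zero
    exact mul_ne_zero hbK (mul_ne_zero (pow_ne_zero _ h1) (hwne i))
  have hMX : ∀ j, lin (Bs.M j) (Λ.pt f) ≠ 0 := by
    intro j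
    rw [← hΛM, Λ.lin_M, hΛl]
    have h1 : (D.p j : K) ≠ 0 := by exact_mod_cast (D.hp j).ne_zero
    exact mul_ne_zero (Bs.hl j) (mul_ne_zero (pow_ne_zero _ h1) (hyne j))
  have hX0 : Λ.pt f ≠ 0 := by
    intro h
    apply hLX Bs.i0
    rw [h]
    unfold lin
    simp
  have hxx0 : Λ.xx f ≠ 0 := by
    intro h
    apply hX0
    unfold LDat.pt
    rw [h]
    funext c
    unfold lin
    simp
  have hAX2 : A0 * X1 * B ≤ Cx * B := by
    rw [hCx]
    exact mul_le_mul_of_nonneg_right (by linarith) hB0.le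
  have hC1X : C1 * B ≤ Cx * B := by
    have : 0 ≤ A0 * X1 := by positivity
    rw [hCx]
    exact mul_le_mul_of_nonneg_right (by linarith) hB0.le
  have hhx := LDat.height_xx hExc hκ0 hκ'0 (by rw [hΛb]; exact hκ') hgood j1 hxx0 hB0
    (by linarith : 0 < Cx) (half_pos hcb0) (by
      intro w k
      unfold LDat.xx
      refine Fin.cases ?_ (fun i => ?_) k
      · rw [Fin.cons_zero]
        exact (hxs w).1.trans hC1X
      · rw [Fin.cons_succ, map_mul, hΛb]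
        refine le_trans (mul_le_mul (hA0w w).1 (hzs i w).2 (apply_nonneg _ _) hA00) ?_
        rw [← mul_assoc]
        exact hAX2)
    (by
      intro w
      refine ⟨D.i0.succ, ?_⟩
      unfold LDat.xx
      rw [Fin.cons_succ, map_mul, hΛb]
      have h1 := mul_le_mul (hcb w (Finset.mem_univ w)) (hzs D.i0 w).1 (by positivity)
        (apply_nonneg w _)
      refine le_trans (le_of_eq ?_) h1
      ring)
  have hPX : logHeight (Λ.pt f) ≤ CP + logHeight (Λ.xx f) := by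
    have h1 := logHeight_linearMap_apply_le
      (fun p : Fin (n + 1) × Fin (n + 1) => Bs.P p.1 p.2) (Λ.xx f)
    rw [← hCP] at h1
    have h2 : (fun j => ∑ i, (fun p : Fin (n + 1) × Fin (n + 1) => Bs.P p.1 p.2) (j, i) *
        Λ.xx f i) = Λ.pt f := by
      unfold LDat.pt lin
      rw [hΛP]
    rwa [h2] at h1
  have hAXl : logHeight (Λ.xx f) ≤ CA + logHeight (Λ.pt f) := by
    have h1 := logHeight_linearMap_apply_le
      (fun p : Fin (n + 1) × Fin (n + 1) => Bs.A p.1 p.2) (Λ.pt f)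
    rw [← hCA] at h1
    have h2 : (fun j => ∑ i, (fun p : Fin (n + 1) × Fin (n + 1) => Bs.A p.1 p.2) (j, i) *
        Λ.pt f i) = Λ.xx f := by
      funext k
      rw [← Λ.lin_A f k, hΛA]
      rfl
    rwa [h2] at h1
  rw [← hd, Real.log_mul (by positivity) hB0.ne', Real.log_mul (by positivity) hB0.ne'] at hhx
  -- the counting functions
  have hp1k : ∀ j, (1 : ℝ) ≤ (p j : ℝ) ^ k j := fun j => one_le_pow₀ (hp1 j).le
  have hBφ1 : ∀ j, B ^ φ j ≤ B / (D.p j : ℝ) ^ D.k j := by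
    intro j
    rw [le_div_iff₀ (hppos j), hDp, hDk]
    have h1 : B ^ φ j * B ^ (1 - φ j) = B := by
      rw [← Real.rpow_add hB0]
      simp
    calc B ^ φ j * (p j : ℝ) ^ k j ≤ B ^ φ j * B ^ (1 - φ j) := by
          have := hk1 j
          gcongr
      _ = B := h1
  have hBφ2 : ∀ j, B / (D.p j : ℝ) ^ D.k j ≤ cp * B ^ φ j := by
    intro j
    rw [div_le_iff₀ (hppos j), hDp, hDk]
    have h1 : B ^ φ j * B ^ (1 - φ j) = B := by
      rw [← Real.rpow_add hB0]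
      simp
    calc B = B ^ φ j * B ^ (1 - φ j) := h1.symm
      _ ≤ B ^ φ j * ((p j : ℝ) ^ k j * p j) := by
          have := hk2 j
          gcongr
      _ ≤ B ^ φ j * ((p j : ℝ) ^ k j * cp) := by
          have := hpcp j
          gcongr
      _ = _ := by ring
  have hc2X : X1 * cp ≤ c2 := by
    rw [hc2]
    exact mul_le_mul_of_nonneg_right (by linarith) (by linarith)
  have hc2C : C1 * cp ≤ c2 := by
    rw [hc2]
    exact mul_le_mul_of_nonneg_right (by linarith) (by linarith)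
  have estw : ∀ (i : Fin n) (A : Set (FinitePlace K)), A.Finite →
      (∀ v ∉ E, (v ∈ A ↔ v (D.w f i : K) < 1)) →
      |Real.log (PP A) - d * (θ i * Real.log B)| ≤ Cf := by
    intro i A hAf hAE
    have := fin_est (hwne i) (fun v => int_le_one v _) E hκ0 hκ1 (hgood.w1 i) (hgood.w2 i)
      (B := B) (η := θ i) (c1 := 2) (c2 := c2) hB0 (by norm_num) hc21
      (fun w => by
        refine le_trans ?_ (hws i w).1
        rw [hDYi]
        exact hYi4 i)
      (fun w => by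
        refine (hws i w).2.trans ?_
        have h1 := hYiu i
        rw [hDYi]
        have hBθ : 0 < B ^ θ i := by positivity
        calc X1 * (Yi i : ℝ) ≤ X1 * (q i * B ^ θ i) := by gcongr
          _ ≤ X1 * (cp * B ^ θ i) := by
              have := hqcp i
              gcongr
          _ = X1 * cp * B ^ θ i := by ring
          _ ≤ c2 * B ^ θ i := by gcongr)
      hAf hAE
    rwa [← hd, ← hCf] at this
  have esty : ∀ (j : Fin r) (A : Set (FinitePlace K)), A.Finite →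
      (∀ v ∉ E, (v ∈ A ↔ v (D.y f j : K) < 1)) →
      |Real.log (PP A) - d * (φ j * Real.log B)| ≤ Cf := by
    intro j A hAf hAE
    have hBφ : 0 < B ^ φ j := by positivity
    have := fin_est (hyne j) (fun v => int_le_one v _) E hκ0 hκ1 (hgood.y1 j) (hgood.y2 j)
      (B := B) (η := φ j) (c1 := 2) (c2 := c2) hB0 (by norm_num) hc21
      (fun w => by
        refine le_trans ?_ (hys w j).1
        refine le_trans ?_ (hBφ1 j)
        linarith)
      (fun w => by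
        refine (hys w j).2.trans ?_
        have h1 := hBφ2 j
        calc C1 * (B / (D.p j : ℝ) ^ D.k j) ≤ C1 * (cp * B ^ φ j) := by gcongr
          _ = C1 * cp * B ^ φ j := by ring
          _ ≤ c2 * B ^ φ j := by gcongr)
      hAf hAE
    rwa [← hd, ← hCf] at this
  have hfinL : ∀ i, {v : FinitePlace K | H57R3.VJ.Meets (Bs.L i) (Λ.pt f) v}.Finite := fun i =>
    meets_fin (Bs.hL0 i) hX0 (hLX i)
  have hfinM : ∀ j, {v : FinitePlace K | H57R3.VJ.Meets (Bs.M j) (Λ.pt f) v}.Finite := fun j =>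
    meets_fin (Bs.hM0 j) hX0 (hMX j)
  have hmL : ∀ i, ∀ v ∉ E, (H57R3.VJ.Meets (Bs.L i) (Λ.pt f) v ↔ v (D.w f i : K) < 1) := by
    intro i v hv
    rw [← hΛL]
    exact LDat.meets_L hExc hgood j1 v hv i
  have hmM : ∀ j, ∀ v ∉ E, (H57R3.VJ.Meets (Bs.M j) (Λ.pt f) v ↔ v (D.y f j : K) < 1) := by
    intro j v hv
    rw [← hΛM]
    exact LDat.meets_M hExc hgood v hv j
  have hSE : ∀ v ∉ E, v ∉ S := fun v hv h => hv (hExc.S h)
  have hwf : ∀ i, {v : FinitePlace K | v ∉ E ∧ v (D.w f i : K) < 1}.Finite := by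
    intro i
    refine (FinitePlace.hasFiniteMulSupport (hwne i)).subset fun v hv => ?_
    rw [mem_mulSupport]
    exact hv.2.ne
  have hyf : ∀ j, {v : FinitePlace K | v ∉ E ∧ v (D.y f j : K) < 1}.Finite := by
    intro j
    refine (FinitePlace.hasFiniteMulSupport (hyne j)).subset fun v hv => ?_
    rw [mem_mulSupport]
    exact hv.2.ne
  have hCfn : Cf ≤ (n + r + 1) * Cf := by
    refine le_mul_of_one_le_left hCf0 ?_
    have : (0 : ℝ) ≤ n + r := by positivity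
    linarith
  have nn1 : 0 ≤ |CP| := abs_nonneg _
  have nn2 : 0 ≤ |CA| := abs_nonneg _
  have nn3 : 0 ≤ (d : ℝ) * |Real.log Cx| := by positivity
  have nn4 : 0 ≤ (d : ℝ) * |Real.log (cb / 2)| := by positivity
  have nn5 : 0 ≤ (E.card : ℝ) * |Real.log κ'⁻¹| := by positivity
  have nn6 : 0 ≤ (n + r + 1 : ℝ) * Cf := by positivity
  refine ⟨Λ.pt f, ?_, hX0, hLX, hMX, ?_, fun i => ?_, fun j => ?_, ?_⟩
  · rw [hF'] at t6
    have h1 : Λ.pt f = fun c => lin (Bs.P c) (Fin.cons (D.x0 f : K)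
        fun i => (b : K) * (D.z f i : K)) := by
      unfold LDat.pt LDat.xx
      rw [hΛP, hΛb]
    rw [h1]
    exact t6
  · rw [← hd]
    have k1 := le_abs_self CP
    have k2 := le_abs_self CA
    have k3 := mul_le_mul_of_nonneg_left (le_abs_self (Real.log Cx)) hd0.le
    have k4 := mul_le_mul_of_nonneg_left (neg_abs_le (Real.log (cb / 2))) hd0.le
    have k5 := mul_le_mul_of_nonneg_left (le_abs_self (Real.log κ'⁻¹)) (Nat.cast_nonneg (α := ℝ) E.card)
    rw [mul_add, mul_add] at hhx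
    rw [abs_le]
    constructor
    · linarith only [hhx.1, hAXl, k2, k4, k5, nn1, nn3, nn6]
    · linarith only [hhx.2, hPX, k1, k3, nn2, nn4, nn5, nn6]
  · rw [← hd]
    refine (estw i _ ((hfinL i).subset fun v hv => hv.2) fun v hv => ?_).trans ?_
    · rw [Set.mem_setOf_eq, hmL i v hv]
      exact ⟨fun h => h.2, fun h => ⟨hSE v hv, h⟩⟩
    · linarith only [hCfn, nn1, nn2, nn3, nn4, nn5]
  · rw [← hd]
    refine (esty j _ ((hfinM j).subset fun v hv => hv.2) fun v hv => ?_).trans ?_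
    · rw [Set.mem_setOf_eq, hmM j v hv]
      exact ⟨fun h => h.2, fun h => ⟨hSE v hv, h⟩⟩
    · linarith only [hCfn, nn1, nn2, nn3, nn4, nn5]
  · rw [← hd]
    have hU := PP_two (fun i => {v : FinitePlace K | v ∉ E ∧ v (D.w f i : K) < 1})
      (fun j => {v : FinitePlace K | v ∉ E ∧ v (D.y f j : K) < 1}) hwf hyf
      (fun i i' hii => by
        rw [Set.disjoint_left]
        rintro v ⟨hv, h1⟩ ⟨-, h2⟩
        exact hgood.ww i i' hii v hv ⟨h1, h2⟩)
      (fun j j' hjj => by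
        rw [Set.disjoint_left]
        rintro v ⟨hv, h1⟩ ⟨-, h2⟩
        exact hgood.yy j j' hjj v hv ⟨h1, h2⟩)
      (fun i j => by
        rw [Set.disjoint_left]
        rintro v ⟨hv, h1⟩ ⟨-, h2⟩
        exact hgood.wy i j v hv ⟨h1, h2⟩)
    have hcl := PP_close2 (K := K) (A := {v | v ∉ S ∧ ((∃ i, H57R3.VJ.Meets (Bs.L i) (Λ.pt f) v) ∨
        ∃ j, H57R3.VJ.Meets (Bs.M j) (Λ.pt f) v)})
      (B := (⋃ i, {v : FinitePlace K | v ∉ E ∧ v (D.w f i : K) < 1}) ∪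
        ⋃ j, {v : FinitePlace K | v ∉ E ∧ v (D.y f j : K) < 1})
      (by
        refine ((Set.finite_iUnion hfinL).union (Set.finite_iUnion hfinM)).subset ?_
        rintro v ⟨-, ⟨i, h⟩ | ⟨j, h⟩⟩
        · exact Or.inl (Set.mem_iUnion.2 ⟨i, h⟩)
        · exact Or.inr (Set.mem_iUnion.2 ⟨j, h⟩))
      ((Set.finite_iUnion hwf).union (Set.finite_iUnion hyf)) E (by
        intro v hv
        simp only [Set.mem_setOf_eq, Set.mem_union, Set.mem_iUnion]
        constructor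
        · rintro ⟨-, ⟨i, h⟩ | ⟨j, h⟩⟩
          · exact Or.inl ⟨i, hv, (hmL i v hv).1 h⟩
          · exact Or.inr ⟨j, hv, (hmM j v hv).1 h⟩
        · rintro (⟨i, -, h⟩ | ⟨j, -, h⟩)
          · exact ⟨hSE v hv, Or.inl ⟨i, (hmL i v hv).2 h⟩⟩
          · exact ⟨hSE v hv, Or.inr ⟨j, (hmM j v hv).2 h⟩⟩)
    rw [hU] at hcl
    have h1 : |(∑ i, Real.log (PP {v : FinitePlace K | v ∉ E ∧ v (D.w f i : K) < 1})) -
        d * ((∑ i, θ i) * Real.log B)| ≤ n * Cf := by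
      have e : (∑ i, Real.log (PP {v : FinitePlace K | v ∉ E ∧ v (D.w f i : K) < 1})) -
          d * ((∑ i, θ i) * Real.log B) = ∑ i, (Real.log (PP {v : FinitePlace K | v ∉ E ∧
          v (D.w f i : K) < 1}) - d * (θ i * Real.log B)) := by
        rw [Finset.sum_sub_distrib, ← Finset.mul_sum, ← Finset.sum_mul]
      rw [e]
      refine (Finset.abs_sum_le_sum_abs _ _).trans ?_
      have := Finset.sum_le_sum (s := Finset.univ) fun i (_ : i ∈ Finset.univ) =>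
        estw i {v : FinitePlace K | v ∉ E ∧ v (D.w f i : K) < 1} (hwf i)
          (fun v hv => ⟨fun h => h.2, fun h => ⟨hv, h⟩⟩)
      rw [Finset.sum_const, Finset.card_univ, Fintype.card_fin, nsmul_eq_mul] at this
      exact this
    have h2 : |(∑ j, Real.log (PP {v : FinitePlace K | v ∉ E ∧ v (D.y f j : K) < 1})) -
        d * ((∑ j, φ j) * Real.log B)| ≤ r * Cf := by
      have e : (∑ j, Real.log (PP {v : FinitePlace K | v ∉ E ∧ v (D.y f j : K) < 1})) -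
          d * ((∑ j, φ j) * Real.log B) = ∑ j, (Real.log (PP {v : FinitePlace K | v ∉ E ∧
          v (D.y f j : K) < 1}) - d * (φ j * Real.log B)) := by
        rw [Finset.sum_sub_distrib, ← Finset.mul_sum, ← Finset.sum_mul]
      rw [e]
      refine (Finset.abs_sum_le_sum_abs _ _).trans ?_
      have := Finset.sum_le_sum (s := Finset.univ) fun j (_ : j ∈ Finset.univ) =>
        esty j {v : FinitePlace K | v ∉ E ∧ v (D.y f j : K) < 1} (hyf j)
          (fun v hv => ⟨fun h => h.2, fun h => ⟨hv, h⟩⟩)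
      rw [Finset.sum_const, Finset.card_univ, Fintype.card_fin, nsmul_eq_mul] at this
      exact this
    have e3 : (d : ℝ) * (((∑ i, θ i) + ∑ j, φ j) * Real.log B) =
        d * ((∑ i, θ i) * Real.log B) + d * ((∑ j, φ j) * Real.log B) := by ring
    have e4 : (n + r + 1 : ℝ) * Cf = n * Cf + r * Cf + Cf := by ring
    rw [e3, e4]
    rw [abs_le] at hcl h1 h2 ⊢
    constructor
    · linarith only [hcl.1, h1.1, h2.1, nn1, nn2, nn3, nn4, nn5, hCfE]
    · linarith only [hcl.2, h1.2, h2.2, nn1, nn2, nn3, nn4, nn5, hCfE]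

end Pool.Agent.Q272.GL
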