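import Pool.Agent.Q272.GL.I

/-! # Linear algebra: the data attached to hyperplanes in general position -/

set_option autoImplicit false

open NumberField Height Function Filter

namespace Pool.Agent.Q272.GL

open Q241.AK Q265.NF Q265.BM LP H57R3.VJ

variable {K : Type*} [Field K] [NumberField K] {n r q : ℕ}

lemma zero_of {a : Fin q → Fin (n + 1) → K} (ha : GenPos a) (I : Finset (Fin q))
    (hI : I.card = n + 1) (x : Fin (n + 1) → K) (hx : ∀ i ∈ I, lin (a i) x = 0) : x = 0 := by
  obtain ⟨c, hc⟩ := inv_coeff hI (ha I hI)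
  funext j
  rw [hc x j]
  exact Finset.sum_eq_zero fun i _ => by rw [hx i i.2, mul_zero]

/-- the data -/
theorem exists_base {a : Fin q → Fin (n + 1) → K} (ha : GenPos a) (s : Fin n → Fin q)
    (hs : Injective s) (u : Fin r → Fin q) (hu : Injective u) (hsu : ∀ i j, s i ≠ u j)
    (hr : 0 < r) (i0 : Fin n) :
    ∃ Bs : Base K n r, Bs.i0 = i0 ∧ (∀ i, Bs.L i = a (s i)) ∧ ∀ j, Bs.M j = a (u j) := by
  classical
  obtain ⟨j0, hj0⟩ : ∃ j0 : Fin r, j0 = ⟨0, hr⟩ := ⟨_, rfl⟩
  have hq : n + 1 ≤ q := by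
    have h1 : Injective (Fin.cons (u j0) s : Fin (n + 1) → Fin q) := by
      rw [Fin.cons_injective_iff]
      refine ⟨?_, hs⟩
      rintro ⟨i, hi⟩
      exact hsu i j0 hi
    simpa using Fintype.card_le_of_injective _ h1
  have ha0 := GenPos.ne_zero ha hq
  obtain ⟨e, he⟩ : ∃ e : Fin (n + 1) → Fin q, e = Fin.cons (u j0) s := ⟨_, rfl⟩
  have he0 : e 0 = u j0 := by rw [he, Fin.cons_zero]
  have hes : ∀ i, e i.succ = s i := fun i => by rw [he, Fin.cons_succ]
  have heinj : Injective e := by
    rw [he, Fin.cons_injective_iff]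
    refine ⟨?_, hs⟩
    rintro ⟨i, hi⟩
    exact hsu i j0 hi
  obtain ⟨A, hA⟩ : ∃ A : Matrix (Fin (n + 1)) (Fin (n + 1)) K, A = Matrix.of fun k => a (e k) :=
    ⟨_, rfl⟩
  have hli : LinearIndependent K A.row := by
    have h1 := ha (Finset.univ.image e) (by
      rw [Finset.card_image_of_injective _ heinj, Finset.card_univ, Fintype.card_fin])
    have h2 := h1.comp (fun k : Fin (n + 1) =>
      (⟨e k, Finset.mem_image_of_mem e (Finset.mem_univ k)⟩ : (Finset.univ.image e : Finset _)))
      (fun k k' h => heinj (congrArg Subtype.val h))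
    rw [hA]
    exact h2
  have hu1 : IsUnit A := Matrix.linearIndependent_rows_iff_isUnit.1 hli
  have hdet : IsUnit A.det := (Matrix.isUnit_iff_isUnit_det A).1 hu1
  have hAP : A * A⁻¹ = 1 := Matrix.mul_nonsing_inv A hdet
  obtain ⟨P, hP⟩ : ∃ P : Matrix (Fin (n + 1)) (Fin (n + 1)) K, P = A⁻¹ := ⟨_, rfl⟩
  rw [← hP] at hAP
  have hlinP : ∀ x c, lin (P c) x = (Matrix.mulVec P x) c := fun x c => rfl
  have hlinA : ∀ x k, lin (A k) x = (Matrix.mulVec A x) k := fun x c => rfl
  have hPx : ∀ x, (fun c => lin (P c) x) = Matrix.mulVec P x := fun x => rfl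
  have hPA : ∀ x k, lin (A k) (fun c => lin (P c) x) = x k := by
    intro x k
    rw [hPx, hlinA, Matrix.mulVec_mulVec, hAP, Matrix.one_mulVec]
  have hAk : ∀ k, A k = a (e k) := fun k => by rw [hA]; rfl
  -- the coefficients
  obtain ⟨Λ, hΛ⟩ : ∃ Λ : Fin r → Fin (n + 1) → K, Λ = fun j k => ∑ c, a (u j) c * P c k := ⟨_, rfl⟩
  have hMlin : ∀ x j, lin (a (u j)) (fun c => lin (P c) x) = lin (Λ j) x := by
    intro x j
    unfold lin
    rw [hΛ]
    simp only [Finset.mul_sum, Finset.sum_mul]
    rw [Finset.sum_comm]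
    refine Finset.sum_congr rfl fun k _ => Finset.sum_congr rfl fun c _ => ?_
    ring
  have hl : ∀ j, Λ j 0 ≠ 0 := by
    intro j h0
    obtain ⟨x, hx⟩ : ∃ x : Fin (n + 1) → K, x = Fin.cons 1 fun _ => 0 := ⟨_, rfl⟩
    have hx0 : x 0 = 1 := by rw [hx, Fin.cons_zero]
    have hxs : ∀ i : Fin n, x i.succ = 0 := fun i => by rw [hx, Fin.cons_succ]
    have h1 := zero_of ha (insert (u j) (Finset.univ.image s)) (by
      rw [Finset.card_insert_of_notMem (fun h => by
        obtain ⟨i, -, hi⟩ := Finset.mem_image.1 h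
        exact hsu i j hi), Finset.card_image_of_injective _ hs, Finset.card_univ,
        Fintype.card_fin]) (fun c => lin (P c) x) (by
      intro i hi
      rcases Finset.mem_insert.1 hi with rfl | hi
      · rw [hMlin]
        unfold lin
        rw [Fin.sum_univ_succ, h0, zero_mul, zero_add]
        exact Finset.sum_eq_zero fun i _ => by rw [hxs, mul_zero]
      · obtain ⟨k, -, rfl⟩ := Finset.mem_image.1 hi
        rw [← hes, ← hAk, hPA, hxs])
    have h2 := hPA x 0
    rw [h1, hx0] at h2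
    unfold lin at h2
    simp at h2
  have hM : ∀ x j, lin (a (u j)) (fun c => lin (P c) x) =
      Λ j 0 * (x 0 - ∑ i : Fin n, (-(Λ j i.succ) / Λ j 0) * x i.succ) := by
    intro x j
    rw [hMlin]
    unfold lin
    rw [Fin.sum_univ_succ, mul_sub, Finset.mul_sum, sub_eq_add_neg, ← Finset.sum_neg_distrib]
    congr 1
    refine Finset.sum_congr rfl fun i _ => ?_
    have := hl j
    field_simp
    try ring
  have hc : ∀ j j', j ≠ j' → -(Λ j i0.succ) / Λ j 0 ≠ -(Λ j' i0.succ) / Λ j' 0 := by
    intro j j' hjj heq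
    obtain ⟨g, hg⟩ : ∃ g : K, g = -(Λ j i0.succ) / Λ j 0 := ⟨_, rfl⟩
    obtain ⟨x, hx⟩ : ∃ x : Fin (n + 1) → K, x = Fin.cons g (Pi.single i0 1) := ⟨_, rfl⟩
    have hx0 : x 0 = g := by rw [hx, Fin.cons_zero]
    have hxs : ∀ i : Fin n, x i.succ = (Pi.single i0 1 : Fin n → K) i := fun i => by
      rw [hx, Fin.cons_succ]
    have hval : ∀ j'', -(Λ j'' i0.succ) / Λ j'' 0 = g →
        lin (a (u j'')) (fun c => lin (P c) x) = 0 := by
      intro j'' hj''
      rw [hM, hx0, Finset.sum_eq_single i0, hxs, Pi.single_eq_same, mul_one, hj'', sub_self,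
        mul_zero]
      · intro i _ hi
        rw [hxs, Pi.single_eq_of_ne hi, mul_zero]
      · intro h
        exact absurd (Finset.mem_univ i0) h
    have hcard : (insert (u j) (insert (u j') ((Finset.univ.erase i0).image s))).card = n + 1 := by
      rw [Finset.card_insert_of_notMem, Finset.card_insert_of_notMem,
        Finset.card_image_of_injective _ hs, Finset.card_erase_of_mem (Finset.mem_univ i0),
        Finset.card_univ, Fintype.card_fin]
      · have : 0 < n := i0.pos
        omega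
      · intro h
        obtain ⟨i, -, hi⟩ := Finset.mem_image.1 h
        exact hsu i j' hi
      · intro h
        rcases Finset.mem_insert.1 h with h | h
        · exact hjj (hu h)
        · obtain ⟨i, -, hi⟩ := Finset.mem_image.1 h
          exact hsu i j hi
    have h1 := zero_of ha _ hcard (fun c => lin (P c) x) (by
      intro i hi
      rcases Finset.mem_insert.1 hi with rfl | hi
      · exact hval j hg.symm
      · rcases Finset.mem_insert.1 hi with rfl | hi
        · exact hval j' (by rw [← heq, hg])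
        · obtain ⟨k, hk, rfl⟩ := Finset.mem_image.1 hi
          rw [← hes, ← hAk, hPA, hxs, Pi.single_eq_of_ne (Finset.ne_of_mem_erase hk)])
    have h2 := hPA x i0.succ
    rw [h1, hxs, Pi.single_eq_same] at h2
    unfold lin at h2
    simp at h2
  refine ⟨⟨fun i => a (s i), fun j => a (u j), P, A, fun j => Λ j 0,
    fun j i => -(Λ j i.succ) / Λ j 0, i0, hl, hc, fun i => ha0 _, fun j => ha0 _, ?_, hM, hPA⟩,
    rfl, fun i => rfl, fun j => rfl⟩
  intro x i
  rw [← hes, ← hAk, hPA]

end Pool.Agent.Q272.GL
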