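import Pool.Agent.Q272.GL.J

/-! # Generic joint limit points -/

set_option autoImplicit false

open NumberField Height Function Filter

namespace Pool.Agent.Q272.GL

open Q241.AK Q265.NF Q265.BM LP H57R3.VJ

variable {K : Type*} [Field K] [NumberField K] {n r q : ℕ}

/-- the primes outside `S` at which `x` meets the hyperplane `b` -/
def MH (S : Finset (FinitePlace K)) (b x : Fin (n + 1) → K) : Set (FinitePlace K) :=
  {v | v ∉ S ∧ H57R3.VJ.Meets b x v}

/-- the primes outside `S` at which `x` meets one of the hyperplanes `a i` -/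
def UH (S : Finset (FinitePlace K)) (a : Fin q → Fin (n + 1) → K) (x : Fin (n + 1) → K) :
    Set (FinitePlace K) := {v | v ∉ S ∧ ∃ i, H57R3.VJ.Meets (a i) x v}

/-- generic joint limit points -/
def JH (S : Finset (FinitePlace K)) (a : Fin q → Fin (n + 1) → K) (θ : Fin q → ℝ) : Prop :=
  ∀ F : MvPolynomial (Fin (n + 1)) K, F ≠ 0 → ∀ η : ℝ, 0 < η → ∀ H : ℝ,
    ∃ x : Fin (n + 1) → K, MvPolynomial.eval x F ≠ 0 ∧ x ≠ 0 ∧ (∀ i, lin (a i) x ≠ 0) ∧
      H < logHeight x ∧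
      (∀ i, |Real.log (PP (MH S (a i) x)) - θ i * logHeight x| ≤ η * logHeight x) ∧
      |Real.log (PP (UH S a x)) - (∑ i, θ i) * logHeight x| ≤ η * logHeight x

/-- generic limit points of the total -/
def LH (S : Finset (FinitePlace K)) (a : Fin q → Fin (n + 1) → K) (s : ℝ) : Prop :=
  ∀ F : MvPolynomial (Fin (n + 1)) K, F ≠ 0 → ∀ η : ℝ, 0 < η → ∀ H : ℝ,
    ∃ x : Fin (n + 1) → K, MvPolynomial.eval x F ≠ 0 ∧ x ≠ 0 ∧ (∀ i, lin (a i) x ≠ 0) ∧
      H < logHeight x ∧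
      |Real.log (PP (UH S a x)) - s * logHeight x| ≤ η * logHeight x

lemma enum (I : Finset (Fin q)) (hI : I.card = n) : ∃ s : Fin n → Fin q, Injective s ∧
    (∀ i, s i ∈ I) ∧ (∀ x ∈ I, ∃ i, s i = x) ∧ ∀ θ : Fin q → ℝ, ∑ i, θ (s i) = ∑ x ∈ I, θ x := by
  classical
  have h1 : Finset.univ.image (I.orderEmbOfFin hI) = I := by
    apply Finset.coe_injective
    rw [Finset.coe_image, Finset.coe_univ, Set.image_univ, Finset.range_orderEmbOfFin]
  refine ⟨I.orderEmbOfFin hI, (I.orderEmbOfFin hI).injective, fun i =>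
    Finset.orderEmbOfFin_mem I hI i, fun x hx => ?_, fun θ => ?_⟩
  · rw [← h1] at hx
    obtain ⟨i, -, hi⟩ := Finset.mem_image.1 hx
    exact ⟨i, hi⟩
  · conv_rhs => rw [← h1]
    rw [Finset.sum_image fun x _ y _ h => (I.orderEmbOfFin hI).injective h]

theorem jointH {a : Fin q → Fin (n + 1) → K} (ha : GenPos a) (S : Finset (FinitePlace K))
    (hq : q = n + r) (hr : 0 < r) (I : Finset (Fin q)) (hI : I.card = n) (i₀ : Fin q)
    (hi₀ : i₀ ∈ I) (θ : Fin q → ℝ) (hθ : ∀ i, 0 ≤ θ i ∧ θ i ≤ 1)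
    (hσ0 : (r : ℝ) - 1 ≤ ∑ j ∈ Iᶜ, θ j)
    (hσ : ∀ j, j ∉ I → θ j - θ i₀ ≤ 2 * ((∑ j ∈ Iᶜ, θ j) - (r - 1))) : JH S a θ := by
  classical
  intro F hF η hη H
  obtain ⟨s, hs1, hs2, hs3, hs4⟩ := enum I hI
  have hIc : Iᶜ.card = r := by
    rw [Finset.card_compl, hI, Fintype.card_fin]
    omega
  obtain ⟨u, hu1, hu2, hu3, hu4⟩ := enum Iᶜ hIc
  obtain ⟨i1, hi1⟩ := hs3 i₀ hi₀
  obtain ⟨Bs, hB1, hB2, hB3⟩ := exists_base ha s hs1 u hu1
    (fun i j h => by
      have h1 := hu2 j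
      rw [← h] at h1
      exact (Finset.mem_compl.1 h1) (hs2 i)) hr i1
  obtain ⟨d, hd⟩ : ∃ d, d = Module.finrank ℚ K := ⟨_, rfl⟩
  have hd1 : 1 ≤ d := by rw [hd]; exact Module.finrank_pos
  have hd0 : (0 : ℝ) < d := by exact_mod_cast hd1
  have hr1 : (1 : ℝ) ≤ r := by exact_mod_cast hr
  obtain ⟨c, hc⟩ : ∃ c : ℝ, c = 1 - 1 / (4 * r) := ⟨_, rfl⟩
  have hcr : r * c = r - 1 / 4 := by rw [hc]; field_simp
  have hc1 : c < 1 := by
    rw [hc]
    have : (0 : ℝ) < 1 / (4 * r) := by positivity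
    linarith
  have hc0 : 0 < c := by
    rw [hc]
    have : 1 / (4 * (r : ℝ)) ≤ 1 / 4 := by
      rw [div_le_div_iff₀ (by positivity) (by norm_num)]
      linarith
    linarith
  obtain ⟨Q, hQ⟩ : ∃ Q : ℝ, Q = q + 1 := ⟨_, rfl⟩
  have hQ1 : 1 ≤ Q := by
    rw [hQ]
    have : (0 : ℝ) ≤ q := Nat.cast_nonneg q
    linarith
  obtain ⟨δ, hδ⟩ : ∃ δ : ℝ, δ = min (η / (2 * Q)) (1 / 2) := ⟨_, rfl⟩
  have hδ0 : 0 < δ := by rw [hδ]; exact lt_min (by positivity) (by norm_num)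
  have hδη : Q * δ ≤ η / 2 := by
    have h1 : δ ≤ η / (2 * Q) := by rw [hδ]; exact min_le_left _ _
    calc Q * δ ≤ Q * (η / (2 * Q)) := by gcongr
      _ = η / 2 := by field_simp
  have hδ1 : δ ≤ 1 / 2 := by rw [hδ]; exact min_le_right _ _
  obtain ⟨t, ht⟩ : ∃ t : Fin q → ℝ, t = fun i => if i ∈ I then 1 / 2 else c := ⟨_, rfl⟩
  have ht1 : ∀ i, i ∈ I → t i = 1 / 2 := fun i hi => by rw [ht]; exact if_pos hi
  have ht2 : ∀ i, i ∉ I → t i = c := fun i hi => by rw [ht]; exact if_neg hi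
  have ht3 : ∀ i, 0 < t i ∧ t i < 1 := by
    intro i
    by_cases h : i ∈ I
    · rw [ht1 i h]; norm_num
    · rw [ht2 i h]; exact ⟨hc0, hc1⟩
  obtain ⟨θ', hθ'⟩ : ∃ θ' : Fin q → ℝ, θ' = fun j => (1 - δ) * θ j + δ * t j := ⟨_, rfl⟩
  have hθ'2 : ∀ i, 0 < θ' i ∧ θ' i < 1 := by
    intro j
    have h1 := (hθ j).1
    have h2 := (hθ j).2
    rw [hθ']
    have g1 : 0 ≤ (1 - δ) * θ j := mul_nonneg (by linarith) h1
    have g2 : (1 - δ) * θ j ≤ (1 - δ) * 1 := mul_le_mul_of_nonneg_left h2 (by linarith)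
    have g3 : 0 < δ * t j := mul_pos hδ0 (ht3 j).1
    have g4 : δ * t j < δ * 1 := mul_lt_mul_of_pos_left (ht3 j).2 hδ0
    constructor
    · linarith
    · linarith
  have hθd : ∀ i, |θ' i - θ i| ≤ δ := by
    intro i
    have e : θ' i - θ i = δ * (t i - θ i) := by rw [hθ']; ring
    rw [e, abs_mul, abs_of_pos hδ0]
    have : |t i - θ i| ≤ 1 := by
      rw [abs_le]
      constructor <;> linarith [(hθ i).1, (hθ i).2, (ht3 i).1, (ht3 i).2]
    exact mul_le_of_le_one_right hδ0.le this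
  have hsum : ∑ j ∈ Iᶜ, θ' j = (1 - δ) * (∑ j ∈ Iᶜ, θ j) + δ * (r * c) := by
    rw [hθ', Finset.sum_add_distrib, ← Finset.mul_sum, ← Finset.mul_sum]
    congr 2
    rw [Finset.sum_congr rfl fun j hj => ht2 j (Finset.mem_compl.1 hj), Finset.sum_const, hIc,
      nsmul_eq_mul]
  obtain ⟨C, hC⟩ := build hr Bs S (fun i => θ' (s i)) (fun j => θ' (u j))
    (fun i => hθ'2 _) (fun j => hθ'2 _) ((∑ j, θ' (u j)) - (r - 1)) rfl
    (by
      rw [hu4, hsum, hcr]
      have := mul_le_mul_of_nonneg_left hσ0 (by linarith : (0 : ℝ) ≤ 1 - δ)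
      linarith)
    (fun j => by
      rw [hu4, hsum, hcr, hB1, hi1]
      have h1 := mul_le_mul_of_nonneg_left (hσ (u j) (Finset.mem_compl.1 (hu2 j)))
        (by linarith : (0 : ℝ) ≤ 1 - δ)
      have h2 : θ' (u j) = (1 - δ) * θ (u j) + δ * c := by
        rw [hθ']
        show _ + δ * t (u j) = _
        rw [ht2 _ (Finset.mem_compl.1 (hu2 j))]
      have h3 : θ' i₀ = (1 - δ) * θ i₀ + δ * (1 / 2) := by
        rw [hθ']
        show _ + δ * t i₀ = _
        rw [ht1 _ hi₀]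
      rw [h2, h3]
      have g4 : δ * c < δ * 1 := mul_lt_mul_of_pos_left hc1 hδ0
      linarith) F hF
  have hlog := (Real.tendsto_log_atTop.const_mul_atTop hd0).eventually
    (eventually_gt_atTop (|C| + |H| + 4 * (Q * |C|) / η))
  obtain ⟨B, ⟨x, hx0, hx1, hxL, hxM, hx2, hx3, hx4, hx5⟩, hB⟩ := (hC.and hlog).exists
  rw [← hd] at hx2 hx3 hx4 hx5
  have hC0 := abs_nonneg C
  have hCC := le_abs_self C
  have hHH := le_abs_self H
  have hH0 := abs_nonneg H
  have hη0 : 0 ≤ 4 * (Q * |C|) / η := by positivity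
  rw [abs_le] at hx2
  have hht : |H| + 4 * (Q * |C|) / η < logHeight x := by linarith [hx2.1]
  have hh0 : 0 < logHeight x := by linarith
  have h4C : 4 * (Q * |C|) ≤ η * logHeight x := by
    have h1 : 4 * (Q * |C|) / η ≤ logHeight x := by linarith
    rw [div_le_iff₀ hη] at h1
    linarith
  have hδh : Q * δ * logHeight x ≤ η / 2 * logHeight x := by gcongr
  -- generic estimate
  have gen : ∀ (L t t' : ℝ), 0 ≤ t' → t' ≤ q → |t' - t| ≤ Q * δ →
      |L - d * (t' * Real.log B)| ≤ C → |L - t * logHeight x| ≤ η * logHeight x := by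
    intro L t t' h0 h1 h2 h3
    rw [abs_le] at h2 h3
    have g1 : |t' * (d * Real.log B - logHeight x)| ≤ q * |C| := by
      rw [abs_mul, abs_of_nonneg h0]
      have : |d * Real.log B - logHeight x| ≤ |C| := by
        rw [abs_le]
        constructor <;> linarith [hx2.1, hx2.2]
      gcongr
    rw [abs_le] at g1
    have g2 : (t' - t) * logHeight x ≤ Q * δ * logHeight x :=
      mul_le_mul_of_nonneg_right h2.2 hh0.le
    have g3 : -(Q * δ) * logHeight x ≤ (t' - t) * logHeight x :=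
      mul_le_mul_of_nonneg_right h2.1 hh0.le
    have g5 : Q * |C| = q * |C| + |C| := by rw [hQ]; ring
    rw [abs_le]
    constructor
    · linarith [g1.1, h3.1]
    · linarith [g1.2, h3.2]
  have hcov : ∀ i : Fin q, (∃ k, s k = i) ∨ ∃ k, u k = i := by
    intro i
    by_cases h : i ∈ I
    · exact Or.inl (hs3 i h)
    · exact Or.inr (hu3 i (Finset.mem_compl.2 h))
  have hθ'q : ∀ i, 0 ≤ θ' i ∧ θ' i ≤ q := by
    intro i
    have h1 : (1 : ℝ) ≤ q := by exact_mod_cast i.pos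
    exact ⟨(hθ'2 i).1.le, by linarith [(hθ'2 i).2]⟩
  have hθdQ : ∀ i, |θ' i - θ i| ≤ Q * δ := by
    intro i
    have : δ ≤ Q * δ := by nlinarith
    exact (hθd i).trans this
  refine ⟨x, hx0, hx1, fun i => ?_, by linarith, fun i => ?_, ?_⟩
  · rcases hcov i with ⟨k, rfl⟩ | ⟨k, rfl⟩
    · have := hxL k
      rwa [hB2] at this
    · have := hxM k
      rwa [hB3] at this
  · rcases hcov i with ⟨k, rfl⟩ | ⟨k, rfl⟩
    · have h1 := hx3 k
      rw [hB2] at h1
      exact gen _ _ _ (hθ'q _).1 (hθ'q _).2 (hθdQ _) h1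
    · have h1 := hx4 k
      rw [hB3] at h1
      exact gen _ _ _ (hθ'q _).1 (hθ'q _).2 (hθdQ _) h1
  · have hset : {v | v ∉ S ∧ ((∃ i, H57R3.VJ.Meets (Bs.L i) x v) ∨
        ∃ j, H57R3.VJ.Meets (Bs.M j) x v)} = UH S a x := by
      ext v
      simp only [UH, Set.mem_setOf_eq, hB2, hB3]
      constructor
      · rintro ⟨h1, ⟨i, h2⟩ | ⟨j, h2⟩⟩
        · exact ⟨h1, _, h2⟩
        · exact ⟨h1, _, h2⟩
      · rintro ⟨h1, i, h2⟩
        refine ⟨h1, ?_⟩
        rcases hcov i with ⟨k, rfl⟩ | ⟨k, rfl⟩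
        · exact Or.inl ⟨k, h2⟩
        · exact Or.inr ⟨k, h2⟩
    rw [hset] at hx5
    have hs5 : (∑ i, θ' (s i)) + ∑ j, θ' (u j) = ∑ i, θ' i := by
      rw [hs4, hu4, Finset.sum_add_sum_compl]
    rw [hs5] at hx5
    refine gen _ _ _ (Finset.sum_nonneg fun i _ => (hθ'2 i).1.le) ?_ ?_ hx5
    · have := Finset.sum_le_sum fun i (_ : i ∈ (Finset.univ : Finset (Fin q))) => (hθ'2 i).2.le
      rwa [Finset.sum_const, Finset.card_univ, Fintype.card_fin, nsmul_eq_mul, mul_one] at this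
    · rw [← Finset.sum_sub_distrib]
      refine (Finset.abs_sum_le_sum_abs _ _).trans ?_
      have := Finset.sum_le_sum fun i (_ : i ∈ (Finset.univ : Finset (Fin q))) => hθd i
      rw [Finset.sum_const, Finset.card_univ, Fintype.card_fin, nsmul_eq_mul] at this
      refine this.trans ?_
      rw [hQ]
      nlinarith

lemma JH.total {S : Finset (FinitePlace K)} {a : Fin q → Fin (n + 1) → K} {θ : Fin q → ℝ}
    (h : JH S a θ) : LH S a (∑ i, θ i) := by
  intro F hF η hη H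
  obtain ⟨x, h1, h2, h3, h4, -, h5⟩ := h F hF η hη H
  exact ⟨x, h1, h2, h3, h4, h5⟩

/-- the range of the totals -/
theorem rangeH {a : Fin q → Fin (n + 1) → K} (ha : GenPos a) (S : Finset (FinitePlace K))
    (hn : 0 < n) (hq : q = n + r) (hr : 0 < r) (s : ℝ)
    (h1 : 2 * r * (r - 1) / (2 * r - 1) ≤ s) (h2 : s ≤ q) : LH S a s := by
  classical
  have hr1 : (1 : ℝ) ≤ r := by exact_mod_cast hr
  have hn1 : (1 : ℝ) ≤ n := by exact_mod_cast hn
  have hd : (0 : ℝ) < 2 * r - 1 := by linarith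
  have hqR : (q : ℝ) = n + r := by rw [hq]; push_cast; ring
  obtain ⟨I, -, hI⟩ := Finset.exists_subset_card_eq (s := (Finset.univ : Finset (Fin q)))
    (n := n) (by rw [Finset.card_univ, Fintype.card_fin]; omega)
  obtain ⟨i₀, hi₀⟩ : I.Nonempty := by rw [← Finset.card_pos, hI]; exact hn
  have hIc : Iᶜ.card = r := by
    rw [Finset.card_compl, hI, Fintype.card_fin]
    omega
  have key : ∀ c τ : ℝ, 0 ≤ c → c ≤ 1 → 0 ≤ τ → τ ≤ 1 → (r : ℝ) - 1 ≤ r * c →
      c - τ ≤ 2 * (r * c - (r - 1)) → LH S a (n * τ + r * c) := by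
    intro c τ hc0 hc1 ht0 ht1 hc hc'
    have e : ∀ (T : Finset (Fin q)) (f : Fin q → ℝ) (w : ℝ), (∀ i ∈ T, f i = w) →
        ∑ i ∈ T, f i = T.card * w := by
      intro T f w hf
      rw [Finset.sum_congr rfl hf, Finset.sum_const, nsmul_eq_mul]
    have e1 := e I (fun i => if i ∈ I then τ else c) τ (fun i hi => if_pos hi)
    have e2 := e Iᶜ (fun i => if i ∈ I then τ else c) c
      (fun i hi => if_neg (Finset.mem_compl.1 hi))
    rw [hI] at e1
    rw [hIc] at e2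
    have := (jointH ha S hq hr I hI i₀ hi₀ (fun i => if i ∈ I then τ else c)
      (fun i => by
        by_cases h : i ∈ I
        · simp only [if_pos h]; exact ⟨ht0, ht1⟩
        · simp only [if_neg h]; exact ⟨hc0, hc1⟩)
      (by rw [e2]; exact hc) (fun j hj => by
        rw [e2]
        simp only [if_neg hj, if_pos hi₀]
        exact hc')).total
    rwa [← Finset.sum_add_sum_compl I, e1, e2] at this
  rcases le_or_gt s r with hs | hs
  · have hs0 : 0 ≤ s := le_trans (div_nonneg (by nlinarith) hd.le) h1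
    rw [div_le_iff₀ hd] at h1
    have h3 : r * (s / r) = s := mul_div_cancel₀ _ (by linarith : (r : ℝ) ≠ 0)
    have := key (s / r) 0 (by positivity) (by rw [div_le_one (by linarith)]; exact hs) le_rfl
      zero_le_one (by
        rw [h3]
        nlinarith) (by
        rw [h3, sub_zero, div_le_iff₀ (by linarith)]
        nlinarith)
    rwa [h3, mul_zero, zero_add] at this
  · have h3 : n * ((s - r) / n) = s - r := mul_div_cancel₀ _ (by linarith : (n : ℝ) ≠ 0)
    have := key 1 ((s - r) / n) zero_le_one le_rfl (div_nonneg (by linarith) (by linarith))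
      (by rw [div_le_one (by linarith)]; linarith) (by linarith) (by
        have : 0 ≤ (s - r) / n := div_nonneg (by linarith) (by linarith)
        linarith)
    rwa [h3, mul_one, sub_add_cancel] at this

end Pool.Agent.Q272.GL
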