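import Pool.Agent.Q272.GL.K

/-! # Points of the projective space, the question and the limit points -/

set_option autoImplicit false

open NumberField Height Function Filter
open scoped LinearAlgebra.Projectivization

namespace Pool.Agent.Q272.GL

open Q241.AK Q265.NF Q265.BM LP H57R3.VJ

variable {K : Type*} [Field K] [NumberField K] {n r q : ℕ}

lemma lin_smul (b x : Fin (n + 1) → K) (c : K) : lin b (c • x) = c * lin b x := by
  unfold lin
  rw [Finset.mul_sum]
  refine Finset.sum_congr rfl fun i _ => ?_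
  rw [Pi.smul_apply, smul_eq_mul]
  ring

lemma sv_smul (v : FinitePlace K) (x : Fin (n + 1) → K) (c : K) : sv v (c • x) = v c * sv v x := by
  unfold sv
  rw [Real.mul_iSup_of_nonneg (apply_nonneg _ _)]
  refine iSup_congr fun i => ?_
  rw [Pi.smul_apply, smul_eq_mul, map_mul]

lemma meets_smul (b x : Fin (n + 1) → K) {c : K} (hc : c ≠ 0) (v : FinitePlace K) :
    H57R3.VJ.Meets b (c • x) v ↔ H57R3.VJ.Meets b x v := by
  unfold H57R3.VJ.Meets
  have hv : 0 < v c := FinitePlace.pos_iff.2 hc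
  rw [lin_smul, sv_smul, map_mul, show sv v b * (v c * sv v x) = v c * (sv v b * sv v x) by ring]
  exact mul_lt_mul_iff_right₀ hv

lemma MH_smul (S : Finset (FinitePlace K)) (b x : Fin (n + 1) → K) {c : K} (hc : c ≠ 0) :
    MH S b (c • x) = MH S b x := by
  ext v
  simp only [MH, Set.mem_ofPred_eq, meets_smul b x hc]

lemma UH_smul (S : Finset (FinitePlace K)) (a : Fin q → Fin (n + 1) → K) (x : Fin (n + 1) → K)
    {c : K} (hc : c ≠ 0) : UH S a (c • x) = UH S a x := by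
  ext v
  simp only [UH, Set.mem_ofPred_eq, meets_smul _ x hc]

lemma eval_smul_hom (F : MvPolynomial (Fin (n + 1)) K) {d : ℕ} (hF : F.IsHomogeneous d)
    (c : K) (x : Fin (n + 1) → K) :
    MvPolynomial.eval (c • x) F = c ^ d * MvPolynomial.eval x F := by
  rw [MvPolynomial.eval_eq, MvPolynomial.eval_eq, Finset.mul_sum]
  refine Finset.sum_congr rfl fun m hm => ?_
  have h1 := hF (MvPolynomial.mem_support_iff.1 hm)
  have h2 : ∏ i ∈ m.support, (c • x) i ^ m i = c ^ d * ∏ i ∈ m.support, x i ^ m i := by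
    have h3 : ∀ i ∈ m.support, (c • x) i ^ m i = c ^ m i * x i ^ m i := by
      intro i _
      rw [Pi.smul_apply, smul_eq_mul, mul_pow]
    rw [Finset.prod_congr rfl h3, Finset.prod_mul_distrib, Finset.prod_pow_eq_pow_sum]
    congr 2
    rw [← h1, Finsupp.weight_apply, Finsupp.sum]
    exact Finset.sum_congr rfl fun i _ => by simp
  rw [h2]
  ring

lemma rep_eq {x : Fin (n + 1) → K} (hx : x ≠ 0) :
    ∃ c : K, c ≠ 0 ∧ (Projectivization.mk K x hx).rep = c • x := by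
  obtain ⟨c, hc⟩ := Projectivization.exists_smul_eq_mk_rep K x hx
  refine ⟨c, c.ne_zero, ?_⟩
  rw [← hc]
  rfl

/-- generic joint limit points -/
def JP (S : Finset (FinitePlace K)) (a : Fin q → Fin (n + 1) → K) (θ : Fin q → ℝ) (τ : ℝ) : Prop :=
  ∀ (d : ℕ) (F : MvPolynomial (Fin (n + 1)) K), F ≠ 0 → F.IsHomogeneous d → ∀ η : ℝ, 0 < η →
    ∀ H : ℝ, ∃ P : ℙ K (Fin (n + 1) → K), MvPolynomial.eval P.rep F ≠ 0 ∧
      (∀ i, lin (a i) P.rep ≠ 0) ∧ H < logHeight P.rep ∧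
      (∀ i, |Real.log (PP (MH S (a i) P.rep)) - θ i * logHeight P.rep| ≤ η * logHeight P.rep) ∧
      |Real.log (PP (UH S a P.rep)) - τ * logHeight P.rep| ≤ η * logHeight P.rep

/-- generic limit points of the total -/
def GP (S : Finset (FinitePlace K)) (a : Fin q → Fin (n + 1) → K) (s : ℝ) : Prop :=
  ∀ (d : ℕ) (F : MvPolynomial (Fin (n + 1)) K), F ≠ 0 → F.IsHomogeneous d → ∀ η : ℝ, 0 < η →
    ∀ H : ℝ, ∃ P : ℙ K (Fin (n + 1) → K), MvPolynomial.eval P.rep F ≠ 0 ∧
      (∀ i, lin (a i) P.rep ≠ 0) ∧ H < logHeight P.rep ∧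
      |Real.log (PP (UH S a P.rep)) - s * logHeight P.rep| ≤ η * logHeight P.rep

lemma JH.proj {S : Finset (FinitePlace K)} {a : Fin q → Fin (n + 1) → K} {θ : Fin q → ℝ}
    (h : JH S a θ) : JP S a θ (∑ i, θ i) := by
  intro d F hF hd η hη H
  obtain ⟨x, h1, h2, h3, h4, h5, h6⟩ := h F hF η hη H
  obtain ⟨c, hc0, hc⟩ := rep_eq h2
  refine ⟨Projectivization.mk K x h2, ?_, fun i => ?_, ?_, fun i => ?_, ?_⟩
  · rw [hc, eval_smul_hom F hd]
    exact mul_ne_zero (pow_ne_zero _ hc0) h1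
  · rw [hc, lin_smul]
    exact mul_ne_zero hc0 (h3 i)
  · rw [hc, logHeight_smul_eq_logHeight x hc0]
    exact h4
  · rw [hc, logHeight_smul_eq_logHeight x hc0, MH_smul S _ _ hc0]
    exact h5 i
  · rw [hc, logHeight_smul_eq_logHeight x hc0, UH_smul S _ _ hc0]
    exact h6

lemma LH.proj {S : Finset (FinitePlace K)} {a : Fin q → Fin (n + 1) → K} {s : ℝ}
    (h : LH S a s) : GP S a s := by
  intro d F hF hd η hη H
  obtain ⟨x, h1, h2, h3, h4, h6⟩ := h F hF η hη H
  obtain ⟨c, hc0, hc⟩ := rep_eq h2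
  refine ⟨Projectivization.mk K x h2, ?_, fun i => ?_, ?_, ?_⟩
  · rw [hc, eval_smul_hom F hd]
    exact mul_ne_zero (pow_ne_zero _ hc0) h1
  · rw [hc, lin_smul]
    exact mul_ne_zero hc0 (h3 i)
  · rw [hc, logHeight_smul_eq_logHeight x hc0]
    exact h4
  · rw [hc, logHeight_smul_eq_logHeight x hc0, UH_smul S _ _ hc0]
    exact h6

/-! ### Bounds -/

lemma UH_fin (S : Finset (FinitePlace K)) {a : Fin q → Fin (n + 1) → K} (ha : ∀ i, a i ≠ 0)
    {x : Fin (n + 1) → K} (hx : x ≠ 0) (hl : ∀ i, lin (a i) x ≠ 0) : (UH S a x).Finite := by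
  refine (Set.finite_iUnion fun i => meets_fin (ha i) hx (hl i)).subset ?_
  rintro v ⟨-, i, hi⟩
  exact Set.mem_iUnion.2 ⟨i, hi⟩

lemma PP_finset (T : Set (FinitePlace K)) (hT : T.Finite) : PP T = ∏ v ∈ hT.toFinset, NN v := by
  classical
  unfold PP
  have h1 : ∀ v : FinitePlace K, pr T v = ∏ᶠ (_ : v ∈ hT.toFinset), NN v := by
    intro v
    unfold pr
    rw [finprod_eq_if]
    simp only [Set.Finite.mem_toFinset]
    rfl
  rw [finprod_congr h1]
  exact finprod_mem_finset_eq_prod _ _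

lemma upper_one (S : Finset (FinitePlace K)) {b : Fin (n + 1) → K} (hb : b ≠ 0) :
    ∃ C : ℝ, ∀ x : Fin (n + 1) → K, x ≠ 0 → lin b x ≠ 0 →
      Real.log (PP (MH S b x)) ≤ logHeight x + C := by
  obtain ⟨c, hc⟩ : ∃ c : ℝ, c = ((n + 1 : ℕ) : ℝ) ^ (Module.finrank ℚ K) * mulHeight b := ⟨_, rfl⟩
  have hc0 : 0 < c := by
    rw [hc]
    have := mulHeight_pos b
    positivity
  refine ⟨Real.log c, fun x hx hl => ?_⟩
  have hfin : (MH S b x).Finite := (meets_fin hb hx hl).subset fun v hv => hv.2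
  have h1 := fmt hb hx hl hfin.toFinset (fun v hv => ((Set.Finite.mem_toFinset _).1 hv).2)
  rw [← PP_finset, ← hc] at h1
  have h2 := one_le_PP (MH S b x)
  have h3 := Real.log_le_log (by linarith) h1
  rw [Real.log_mul hc0.ne' (mulHeight_pos x).ne'] at h3
  have e : logHeight x = Real.log (mulHeight x) := rfl
  rw [e]
  linarith

theorem upper (S : Finset (FinitePlace K)) {a : Fin q → Fin (n + 1) → K} (ha : ∀ i, a i ≠ 0) :
    ∃ C : ℝ, ∀ x : Fin (n + 1) → K, x ≠ 0 → (∀ i, lin (a i) x ≠ 0) →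
      Real.log (PP (UH S a x)) ≤ q * logHeight x + C := by
  choose C hC using fun i => upper_one S (ha i)
  refine ⟨∑ i, C i, fun x hx hl => ?_⟩
  have h1 : UH S a x = ⋃ i, MH S (a i) x := by
    ext v
    simp only [UH, MH, Set.mem_ofPred_eq, Set.mem_iUnion]
    constructor
    · rintro ⟨g1, i, g2⟩
      exact ⟨i, g1, g2⟩
    · rintro ⟨i, g1, g2⟩
      exact ⟨g1, i, g2⟩
  rw [h1]
  refine (PP_biUnion _ fun i => (meets_fin (ha i) hx (hl i)).subset fun v hv => hv.2).trans ?_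
  refine (Finset.sum_le_sum fun i _ => hC i x hx (hl i)).trans (le_of_eq ?_)
  rw [Finset.sum_add_distrib, Finset.sum_const, Finset.card_univ, Fintype.card_fin, nsmul_eq_mul]

/-! ### Northcott -/

lemma northcott (B : ℝ) : {P : ℙ K (Fin (n + 1) → K) | logHeight P.rep ≤ B}.Finite := by
  classical
  choose C hC0 hC using fun p : Fin (n + 1) × Fin (n + 1) =>
    height_ratio (K := K) (Pi.single p.1 (1 : K)) (Pi.single p.2 (1 : K))
  obtain ⟨D, hD⟩ : ∃ D : ℝ, D = (∑ p, C p) * Real.exp B := ⟨_, rfl⟩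
  have hCle : ∀ p, C p ≤ ∑ p, C p := fun p =>
    Finset.single_le_sum (fun i _ => (hC0 i).le) (Finset.mem_univ p)
  have hfin : {z : Fin (n + 1) → K | ∀ j, mulHeight₁ (z j) ≤ D}.Finite := by
    have h1 := Set.Finite.pi fun _ : Fin (n + 1) => NumberField.finite_setOfPred_mulHeight₁_le (K := K) D
    refine h1.subset fun z hz => ?_
    rw [Set.mem_pi]
    intro i _
    exact hz i
  have hne : ∃ e : Fin (n + 1) → K, e ≠ 0 :=
    ⟨Pi.single 0 1, fun h => one_ne_zero (by rw [← Pi.single_eq_same (M := fun _ => K) (0 : Fin (n + 1)) 1, h]; rfl)⟩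
  obtain ⟨e, he⟩ := hne
  refine (hfin.image fun z => if h : z ≠ 0 then Projectivization.mk K z h
    else Projectivization.mk K e he).subset ?_
  intro P hP
  have hP' : logHeight P.rep ≤ B := hP
  have hx := P.rep_nonzero
  obtain ⟨k, hk⟩ := Function.ne_iff.1 hx
  have hk' : P.rep k ≠ 0 := hk
  obtain ⟨z, hz⟩ : ∃ z : Fin (n + 1) → K, z = (P.rep k)⁻¹ • P.rep := ⟨_, rfl⟩
  have hz0 : z ≠ 0 := by
    rw [hz]
    exact smul_ne_zero (inv_ne_zero hk') hx
  refine ⟨z, ?_, ?_⟩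
  · intro j
    have h1 := hC (j, k) P.rep
    have hlin : ∀ j, lin (Pi.single j (1 : K)) P.rep = P.rep j := by
      intro j
      unfold lin
      simp [Pi.single_apply]
    rw [hlin, hlin] at h1
    have h2 : z j = P.rep j / P.rep k := by
      rw [hz, Pi.smul_apply, smul_eq_mul]
      field_simp
    rw [h2, hD]
    refine h1.trans ?_
    have h3 : mulHeight P.rep ≤ Real.exp B := by
      have e : logHeight P.rep = Real.log (mulHeight P.rep) := rfl
      rw [e] at hP'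
      exact (Real.log_le_iff_le_exp (mulHeight_pos _)).1 hP'
    have h4 := mulHeight_pos P.rep
    have h5 := hCle (j, k)
    have h6 := hC0 (j, k)
    have h7 : 0 < ∑ p, C p := lt_of_lt_of_le h6 h5
    exact mul_le_mul h5 h3 h4.le h7.le
  · show (if h : z ≠ 0 then Projectivization.mk K z h else Projectivization.mk K e he) = P
    rw [dif_pos hz0]
    conv_rhs => rw [← Projectivization.mk_rep P]
    rw [Projectivization.mk_eq_mk_iff']
    exact ⟨(P.rep k)⁻¹, hz.symm⟩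

/-! ### The question -/

/-- the inequality of the question -/
def QP (S : Finset (FinitePlace K)) (a : Fin q → Fin (n + 1) → K) (m : ℝ) : Prop :=
  ∀ ε : ℝ, 0 < ε → ∃ (d : ℕ) (F : MvPolynomial (Fin (n + 1)) K), F ≠ 0 ∧ F.IsHomogeneous d ∧
    ∀ C : ℝ, 0 ≤ C → {P : ℙ K (Fin (n + 1) → K) | MvPolynomial.eval P.rep F ≠ 0 ∧
      (∀ i, lin (a i) P.rep ≠ 0) ∧
      Real.log (PP (UH S a P.rep)) < (m - ε) * logHeight P.rep - C}.Finite

lemma GP.bounds {S : Finset (FinitePlace K)} {a : Fin q → Fin (n + 1) → K} (ha : ∀ i, a i ≠ 0)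
    {s : ℝ} (h : GP S a s) : 0 ≤ s ∧ s ≤ q := by
  obtain ⟨C, hC⟩ := upper S ha
  have h1 : (1 : MvPolynomial (Fin (n + 1)) K).IsHomogeneous 0 := MvPolynomial.isHomogeneous_one _ _
  constructor
  · by_contra hc
    push Not at hc
    obtain ⟨P, -, -, g3, g4⟩ := h 0 1 one_ne_zero h1 (-s / 2) (by linarith) 0
    have g5 := log_PP_nonneg (UH S a P.rep)
    rw [abs_le] at g4
    nlinarith [g4.1, g4.2]
  · by_contra hc
    push Not at hc
    obtain ⟨η, hη⟩ : ∃ η : ℝ, η = (s - q) / 2 := ⟨_, rfl⟩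
    have hη0 : 0 < η := by rw [hη]; linarith
    obtain ⟨P, -, g2, g3, g4⟩ := h 0 1 one_ne_zero h1 η hη0 (|C| / η)
    have g5 := hC P.rep P.rep_nonzero g2
    rw [div_lt_iff₀ hη0] at g3
    have g6 := le_abs_self C
    rw [abs_le] at g4
    have e : s = q + 2 * η := by rw [hη]; ring
    rw [e] at g4
    nlinarith [g4.1]

theorem q1_iff (S : Finset (FinitePlace K)) (a : Fin q → Fin (n + 1) → K) (m : ℝ) :
    QP S a m ↔ ∀ s, GP S a s → m ≤ s := by
  constructor
  · intro H s hs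
    by_contra hc
    push Not at hc
    obtain ⟨η, hη⟩ : ∃ η : ℝ, η = (m - s) / 3 := ⟨_, rfl⟩
    have hη0 : 0 < η := by rw [hη]; linarith
    obtain ⟨d, F, hF, hd, hC⟩ := H η hη0
    have hfin := hC 0 le_rfl
    obtain ⟨B, hB⟩ := (hfin.image fun P => logHeight P.rep).bddAbove
    obtain ⟨P, h1, h2, h3, h4⟩ := hs d F hF hd η hη0 (max B 0)
    have h5 : 0 < logHeight P.rep := lt_of_le_of_lt (le_max_right _ _) h3
    rw [abs_le] at h4
    have h6 : P ∈ {P : ℙ K (Fin (n + 1) → K) | MvPolynomial.eval P.rep F ≠ 0 ∧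
      (∀ i, lin (a i) P.rep ≠ 0) ∧
      Real.log (PP (UH S a P.rep)) < (m - η) * logHeight P.rep - 0} := by
      refine ⟨h1, h2, ?_⟩
      have e : m = s + 3 * η := by rw [hη]; ring
      rw [e]
      nlinarith [h4.2]
    have h7 := hB (Set.mem_image_of_mem _ h6)
    have h8 := lt_of_le_of_lt (le_max_left B 0) h3
    exact absurd h7 (not_le.2 h8)
  · intro H ε hε
    by_contra hc
    push Not at hc
    obtain ⟨M, hM⟩ : ∃ M : ℝ, M = m - ε := ⟨_, rfl⟩
    -- the sets of values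
    have key : ∀ i : {F : MvPolynomial (Fin (n + 1)) K // F ≠ 0 ∧ ∃ d, F.IsHomogeneous d} × ℝ,
        ∃ P : ℙ K (Fin (n + 1) → K), MvPolynomial.eval P.rep i.1.1 ≠ 0 ∧
          (∀ j, lin (a j) P.rep ≠ 0) ∧ max i.2 0 < logHeight P.rep ∧
          Real.log (PP (UH S a P.rep)) < M * logHeight P.rep := by
      rintro ⟨⟨F, hF, d, hd⟩, Hh⟩
      obtain ⟨C, hC0, hC⟩ := hc d F hF hd
      have hC' : ¬ ({P : ℙ K (Fin (n + 1) → K) | MvPolynomial.eval P.rep F ≠ 0 ∧
        (∀ i, lin (a i) P.rep ≠ 0) ∧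
        Real.log (PP (UH S a P.rep)) < (m - ε) * logHeight P.rep - C}).Finite := hC
      have hinf := Set.Infinite.sdiff hC' (northcott (K := K) (n := n) (max Hh 0))
      obtain ⟨P, ⟨g1, g2, g3⟩, g4⟩ := hinf.nonempty
      refine ⟨P, g1, g2, ?_, ?_⟩
      · have g5 : ¬ logHeight P.rep ≤ max Hh 0 := g4
        exact not_le.1 g5
      · rw [hM]
        linarith
    obtain ⟨T, hT⟩ : ∃ T : {F : MvPolynomial (Fin (n + 1)) K // F ≠ 0 ∧ ∃ d, F.IsHomogeneous d} × ℝ →
        Set ℝ, T = fun i => {ρ | ∃ P : ℙ K (Fin (n + 1) → K), MvPolynomial.eval P.rep i.1.1 ≠ 0 ∧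
          (∀ j, lin (a j) P.rep ≠ 0) ∧ max i.2 0 < logHeight P.rep ∧
          Real.log (PP (UH S a P.rep)) < M * logHeight P.rep ∧
          ρ = Real.log (PP (UH S a P.rep)) / logHeight P.rep} := ⟨_, rfl⟩
    have hTI : ∀ i, T i ⊆ Set.Icc 0 M := by
      rw [hT]
      rintro i ρ ⟨P, g1, g2, g3, g4, rfl⟩
      have h0 : 0 < logHeight P.rep := lt_of_le_of_lt (le_max_right _ _) g3
      exact ⟨div_nonneg (log_PP_nonneg _) h0.le, by rw [div_le_iff₀ h0]; exact g4.le⟩
    have hne : ∀ i, (closure (T i)).Nonempty := by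
      intro i
      obtain ⟨P, g1, g2, g3, g4⟩ := key i
      refine Set.Nonempty.closure ⟨Real.log (PP (UH S a P.rep)) / logHeight P.rep, ?_⟩
      rw [hT]
      exact ⟨P, g1, g2, g3, g4, rfl⟩
    have hcI : ∀ i, closure (T i) ⊆ Set.Icc 0 M := fun i =>
      closure_minimal (hTI i) isClosed_Icc
    have hcomp : ∀ i, IsCompact (closure (T i)) := fun i =>
      isCompact_Icc.of_isClosed_subset isClosed_closure (hcI i)
    have hdir : Directed (· ⊇ ·) fun i => closure (T i) := by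
      rintro ⟨⟨F, hF, d, hd⟩, x⟩ ⟨⟨G, hG, e, he⟩, y⟩
      refine ⟨⟨⟨F * G, mul_ne_zero hF hG, d + e, hd.mul he⟩, max x y⟩, ?_, ?_⟩
      · refine closure_mono ?_
        rw [hT]
        rintro ρ ⟨P, g1, g2, g3, g4, rfl⟩
        refine ⟨P, ?_, g2, lt_of_le_of_lt (max_le_max (le_max_left _ _) le_rfl) g3, g4, rfl⟩
        rw [map_mul] at g1
        exact (mul_ne_zero_iff.1 g1).1
      · refine closure_mono ?_
        rw [hT]
        rintro ρ ⟨P, g1, g2, g3, g4, rfl⟩
        refine ⟨P, ?_, g2, lt_of_le_of_lt (max_le_max (le_max_right _ _) le_rfl) g3, g4, rfl⟩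
        rw [map_mul] at g1
        exact (mul_ne_zero_iff.1 g1).2
    haveI : Nonempty ({F : MvPolynomial (Fin (n + 1)) K // F ≠ 0 ∧ ∃ d, F.IsHomogeneous d} × ℝ) :=
      ⟨⟨⟨1, one_ne_zero, 0, MvPolynomial.isHomogeneous_one _ _⟩, 0⟩⟩
    obtain ⟨s, hs⟩ := IsCompact.nonempty_iInter_of_directed_nonempty_isCompact_isClosed
      (fun i => closure (T i)) hdir hne hcomp (fun i => isClosed_closure)
    rw [Set.mem_iInter] at hs
    have hsM : s ≤ M := (hcI _ (hs (Classical.arbitrary _))).2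
    have h1 : m ≤ s := by
      refine H s fun d F hF hd η hη Hh => ?_
      have h2 := hs ⟨⟨F, hF, d, hd⟩, Hh⟩
      rw [Metric.mem_closure_iff] at h2
      obtain ⟨ρ, hρ, hdist⟩ := h2 η hη
      rw [hT] at hρ
      obtain ⟨P, g1, g2, g3, g4, rfl⟩ := hρ
      have h0 : 0 < logHeight P.rep := lt_of_le_of_lt (le_max_right _ _) g3
      refine ⟨P, g1, g2, lt_of_le_of_lt (le_max_left _ _) g3, ?_⟩
      rw [Real.dist_eq, abs_sub_comm] at hdist
      have e : Real.log (PP (UH S a P.rep)) - s * logHeight P.rep =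
          (Real.log (PP (UH S a P.rep)) / logHeight P.rep - s) * logHeight P.rep := by
        field_simp
      rw [e, abs_mul, abs_of_pos h0]
      exact mul_le_mul_of_nonneg_right hdist.le h0.le
    rw [hM] at hsM
    linarith

end Pool.Agent.Q272.GL
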