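import Pool.Agent.Q272.GL.L

/-! # Generic sequences -/

set_option autoImplicit false

open NumberField Height Function Filter Topology
open scoped LinearAlgebra.Projectivization

namespace Pool.Agent.Q272.GL

open Q241.AK Q265.NF Q265.BM LP H57R3.VJ

variable {K : Type*} [Field K] [NumberField K] {n r q : ℕ}

theorem countable_K (K : Type*) [Field K] [NumberField K] : Countable K :=
  ((Module.finBasis ℚ K).equivFun.toEquiv.countable_iff).2 inferInstance

theorem countable_poly (K : Type*) [Field K] [NumberField K] (n : ℕ) :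
    Countable (MvPolynomial (Fin (n + 1)) K) := by
  have := countable_K K
  rw [← Cardinal.mk_le_aleph0_iff]
  refine (MvPolynomial.cardinalMk_le_max_lift).trans ?_
  refine max_le (max_le ?_ ?_) le_rfl
  · rw [Cardinal.lift_le_aleph0]
    exact Cardinal.mk_le_aleph0
  · rw [Cardinal.lift_le_aleph0]
    exact Cardinal.mk_le_aleph0

/-- a generic sequence of points -/
def Generic (P : ℕ → ℙ K (Fin (n + 1) → K)) : Prop :=
  ∀ (d : ℕ) (F : MvPolynomial (Fin (n + 1)) K), F.IsHomogeneous d → F ≠ 0 →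
    ∀ᶠ k in atTop, MvPolynomial.eval (P k).rep F ≠ 0

theorem seq_gen (B : ℙ K (Fin (n + 1) → K) → Prop) (E : ℝ → ℙ K (Fin (n + 1) → K) → Prop)
    (h : ∀ (d : ℕ) (F : MvPolynomial (Fin (n + 1)) K), F ≠ 0 → F.IsHomogeneous d → ∀ η : ℝ,
      0 < η → ∀ H : ℝ, ∃ P : ℙ K (Fin (n + 1) → K), MvPolynomial.eval P.rep F ≠ 0 ∧ B P ∧
        H < logHeight P.rep ∧ E η P) :
    ∃ P : ℕ → ℙ K (Fin (n + 1) → K), (∀ k, B (P k)) ∧ Generic P ∧
      (∀ k : ℕ, (k : ℝ) < logHeight (P k).rep) ∧ ∀ k : ℕ, E (1 / ((k : ℝ) + 1)) (P k) := by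
  classical
  have := countable_poly K n
  have : Nonempty {F : MvPolynomial (Fin (n + 1)) K // F ≠ 0 ∧ ∃ d, F.IsHomogeneous d} :=
    ⟨⟨1, one_ne_zero, 0, MvPolynomial.isHomogeneous_one _ _⟩⟩
  obtain ⟨e, he⟩ := exists_surjective_nat
    {F : MvPolynomial (Fin (n + 1)) K // F ≠ 0 ∧ ∃ d, F.IsHomogeneous d}
  choose d hd using fun i => (e i).2.2
  have hG : ∀ k : ℕ, ∃ P : ℙ K (Fin (n + 1) → K),
      MvPolynomial.eval P.rep (∏ i ∈ Finset.range (k + 1), (e i).1) ≠ 0 ∧ B P ∧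
        (k : ℝ) < logHeight P.rep ∧ E (1 / ((k : ℝ) + 1)) P := fun k =>
    h (∑ i ∈ Finset.range (k + 1), d i) _
      (Finset.prod_ne_zero_iff.2 fun i _ => (e i).2.1)
      (MvPolynomial.IsHomogeneous.prod _ _ _ fun i _ => hd i) _ (by positivity) _
  choose P hP1 hP2 hP3 hP4 using hG
  refine ⟨P, hP2, ?_, hP3, hP4⟩
  intro d' F hF1 hF2
  obtain ⟨i, hi⟩ := he ⟨F, hF2, d', hF1⟩
  filter_upwards [eventually_ge_atTop i] with k hk
  have h1 := hP1 k
  rw [map_prod, Finset.prod_ne_zero_iff] at h1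
  have h2 := h1 i (Finset.mem_range.2 (by omega))
  rwa [hi] at h2

lemma tendsto_of {f g : ℕ → ℝ} {s : ℝ} (hg : ∀ k, 0 < g k)
    (h : ∀ k : ℕ, |f k - s * g k| ≤ 1 / ((k : ℝ) + 1) * g k) :
    Tendsto (fun k => f k / g k) atTop (𝓝 s) := by
  rw [← tendsto_sub_nhds_zero_iff]
  refine squeeze_zero_norm (fun k => ?_) tendsto_one_div_add_atTop_nhds_zero_nat
  have e : f k / g k - s = (f k - s * g k) / g k := by
    have := (hg k).ne'
    field_simp
  rw [Real.norm_eq_abs, e, abs_div, abs_of_pos (hg k), div_le_iff₀ (hg k)]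
  exact h k

/-- sequences and generic limit points -/
theorem GP_iff (S : Finset (FinitePlace K)) (a : Fin q → Fin (n + 1) → K) (s : ℝ) :
    GP S a s ↔ ∃ P : ℕ → ℙ K (Fin (n + 1) → K), (∀ k i, lin (a i) (P k).rep ≠ 0) ∧ Generic P ∧
      Tendsto (fun k => logHeight (P k).rep) atTop atTop ∧
      Tendsto (fun k => Real.log (PP (UH S a (P k).rep)) / logHeight (P k).rep) atTop (𝓝 s) := by
  constructor
  · intro H
    obtain ⟨P, h1, h2, h3, h4⟩ := seq_gen (K := K) (n := n) (fun P => ∀ i, lin (a i) P.rep ≠ 0)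
      (fun η P => |Real.log (PP (UH S a P.rep)) - s * logHeight P.rep| ≤ η * logHeight P.rep) H
    refine ⟨P, h1, h2, ?_, tendsto_of (fun k => ?_) h4⟩
    · exact tendsto_atTop_mono (fun k => (h3 k).le) tendsto_natCast_atTop_atTop
    · exact lt_of_le_of_lt (Nat.cast_nonneg k) (h3 k)
  · rintro ⟨P, h1, h2, h3, h4⟩ d F hF hd η hη H
    have g1 := h2 d F hd hF
    have g2 := h3.eventually (eventually_gt_atTop (max H 0))
    rw [Metric.tendsto_nhds] at h4
    obtain ⟨k, ⟨g3, g4⟩, g5⟩ := ((g1.and g2).and (h4 η hη)).exists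
    have h0 : 0 < logHeight (P k).rep := lt_of_le_of_lt (le_max_right _ _) g4
    refine ⟨P k, g3, h1 k, lt_of_le_of_lt (le_max_left _ _) g4, ?_⟩
    rw [Real.dist_eq] at g5
    have e : Real.log (PP (UH S a (P k).rep)) - s * logHeight (P k).rep =
        (Real.log (PP (UH S a (P k).rep)) / logHeight (P k).rep - s) * logHeight (P k).rep := by
      field_simp
    rw [e, abs_mul, abs_of_pos h0]
    exact mul_le_mul_of_nonneg_right g5.le h0.le

theorem JP_seq {S : Finset (FinitePlace K)} {a : Fin q → Fin (n + 1) → K} {θ : Fin q → ℝ} {τ : ℝ}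
    (H : JP S a θ τ) : ∃ P : ℕ → ℙ K (Fin (n + 1) → K), (∀ k i, lin (a i) (P k).rep ≠ 0) ∧
      Generic P ∧ Tendsto (fun k => logHeight (P k).rep) atTop atTop ∧
      (∀ i, Tendsto (fun k => Real.log (PP (MH S (a i) (P k).rep)) / logHeight (P k).rep)
        atTop (𝓝 (θ i))) ∧
      Tendsto (fun k => Real.log (PP (UH S a (P k).rep)) / logHeight (P k).rep) atTop (𝓝 τ) := by
  obtain ⟨P, h1, h2, h3, h4⟩ := seq_gen (K := K) (n := n) (fun P => ∀ i, lin (a i) P.rep ≠ 0)
    (fun η P => (∀ i, |Real.log (PP (MH S (a i) P.rep)) - θ i * logHeight P.rep| ≤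
      η * logHeight P.rep) ∧ |Real.log (PP (UH S a P.rep)) - τ * logHeight P.rep| ≤
      η * logHeight P.rep) H
  have hpos : ∀ k, 0 < logHeight (P k).rep := fun k => lt_of_le_of_lt (Nat.cast_nonneg k) (h3 k)
  exact ⟨P, h1, h2, tendsto_atTop_mono (fun k => (h3 k).le) tendsto_natCast_atTop_atTop,
    fun i => tendsto_of hpos fun k => (h4 k).1 i, tendsto_of hpos fun k => (h4 k).2⟩

end Pool.Agent.Q272.GL
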